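import Mathlib

/-!
# Combinatorial core of the lower bound for 1-bend box-drawings of complete graphs
-/

set_option autoImplicit false

namespace Pool.Agent.L5helper35.Box

open Finset Classical

/-- grid point on the path `p - q - r` -/
def OnP (p q r g : Fin 3 → ℤ) : Prop :=
  (∀ i, g i ∈ Set.uIcc (p i) (q i)) ∨ (∀ i, g i ∈ Set.uIcc (q i) (r i))

lemma onP_symm {p q r g : Fin 3 → ℤ} (h : OnP p q r g) : OnP r q p g := by
  rcases h with h | h
  · right; intro i; rw [Set.uIcc_comm]; exact h i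
  · left; intro i; rw [Set.uIcc_comm]; exact h i

/-- the integral data of a drawing -/
structure Core (V : Type) where
  lo : V → Fin 3 → ℤ
  hi : V → Fin 3 → ℤ
  p : V → V → Fin 3 → ℤ
  q : V → V → Fin 3 → ℤ
  B : Finset (Fin 3 → ℤ)
  lohi : ∀ v i, lo v i ≤ hi v i
  disj : ∀ u v, u ≠ v → ∀ g : Fin 3 → ℤ, (∀ i, lo u i ≤ g i ∧ g i ≤ hi u i) →
    (∀ i, lo v i ≤ g i ∧ g i ≤ hi v i) → False
  qc : ∀ u v, q u v = q v u
  pm : ∀ u v, u ≠ v → ∀ i, lo u i ≤ p u v i ∧ p u v i ≤ hi u i
  ax : ∀ u v, u ≠ v → ∃ d, ∀ i, i ≠ d → p u v i = q u v i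
  rb : ∀ u v w, u ≠ v → ∀ g, OnP (p u v) (q u v) (p v u) g → (∀ i, lo w i ≤ g i ∧ g i ≤ hi w i) →
    g = p u v ∨ g = p v u
  rr : ∀ u v u' v', u ≠ v → u' ≠ v' → s(u, v) ≠ s(u', v') → ∀ g,
    OnP (p u v) (q u v) (p v u) g → OnP (p u' v') (q u' v') (p v' u') g → False
  inB : ∀ u v, u ≠ v → ∀ g, OnP (p u v) (q u v) (p v u) g → g ∈ B

namespace Core

variable {V : Type} (D : Core V)

/-- the number of grid points of a route -/
noncomputable def len (u v : V) : ℕ :=
  (D.B.filter (fun g => OnP (D.p u v) (D.q u v) (D.p v u) g)).card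

/-- the projections to the axis `d` intersect -/
def Ov (d : Fin 3) (u v : V) : Prop := D.lo u d ≤ D.hi v d ∧ D.lo v d ≤ D.hi u d

lemma len_le (u v : V) (h : u ≠ v) (d : Fin 3) (x y : ℤ) (hx : x = D.p u v d) (hy : y = D.p v u d) :
    (x - y).natAbs + 1 ≤ D.len u v := by
  unfold len
  have hcard : (Finset.uIcc x y).card = (x - y).natAbs + 1 := by
    rw [Int.card_uIcc]
    omega
  rw [← hcard]
  apply card_le_card_of_surjOn (fun g => g d)
  intro t ht
  rw [mem_coe, Finset.mem_uIcc] at ht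
  simp only [Set.mem_image, mem_coe, mem_filter]
  by_cases h1 : t ∈ Set.uIcc (D.p u v d) (D.q u v d)
  · have hon : OnP (D.p u v) (D.q u v) (D.p v u) (fun i => if i = d then t else D.p u v i) := by
      left
      intro i
      by_cases hi : i = d
      · subst hi; simpa using h1
      · simp [hi]
    exact ⟨_, ⟨D.inB u v h _ hon, hon⟩, by simp⟩
  · have h2 : t ∈ Set.uIcc (D.q u v d) (D.p v u d) := by
      rw [Set.mem_uIcc] at h1 ⊢
      subst hx hy
      simp only [inf_le_iff, le_sup_iff] at ht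
      omega
    have hon : OnP (D.p u v) (D.q u v) (D.p v u) (fun i => if i = d then t else D.q u v i) := by
      right
      intro i
      by_cases hi : i = d
      · subst hi; simpa using h2
      · simp [hi]
    exact ⟨_, ⟨D.inB u v h _ hon, hon⟩, by simp⟩

/-- the total length of the routes, ordered pairs -/
lemma sum_len_le (W : Finset (V × V)) (hW : ∀ x ∈ W, x.1 ≠ x.2) :
    ∑ x ∈ W, D.len x.1 x.2 ≤ 2 * D.B.card := by
  have h1 : ∑ x ∈ W, D.len x.1 x.2 =
      ∑ g ∈ D.B, (W.filter (fun x => OnP (D.p x.1 x.2) (D.q x.1 x.2) (D.p x.2 x.1) g)).card := by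
    unfold len
    simp only [card_filter]
    rw [sum_comm]
  rw [h1, mul_comm, ← smul_eq_mul, ← sum_const]
  apply sum_le_sum
  intro g _
  rcases (W.filter (fun x => OnP (D.p x.1 x.2) (D.q x.1 x.2) (D.p x.2 x.1) g)).eq_empty_or_nonempty
    with h | ⟨y, hy⟩
  · rw [h]; simp
  · calc _ ≤ ({(y.1, y.2), (y.2, y.1)} : Finset (V × V)).card := by
          apply card_le_card
          intro x hx
          rw [mem_filter] at hx hy
          by_contra hne
          apply D.rr x.1 x.2 y.1 y.2 (hW x hx.1) (hW y hy.1) _ g hx.2 hy.2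
          intro heq
          apply hne
          rw [Sym2.eq_iff] at heq
          rw [mem_insert, mem_singleton, Prod.ext_iff, Prod.ext_iff]
          exact heq
      _ ≤ 2 := card_le_two

/-- many long routes need much space -/
lemma long (P : Finset (V × V)) (hP : ∀ x ∈ P, x.1 ≠ x.2) (m M : ℕ)
    (h : (P.filter (fun x => D.len x.1 x.2 ≤ m)).card ≤ M) :
    (P.card - M) * (m + 1) ≤ 2 * D.B.card := by
  have h1 := card_filter_add_card_filter_not (s := P) (fun x => D.len x.1 x.2 ≤ m)
  calc (P.card - M) * (m + 1) ≤ (P.filter (fun x => ¬ D.len x.1 x.2 ≤ m)).card * (m + 1) :=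
        Nat.mul_le_mul_right _ (by omega)
    _ = ∑ x ∈ P.filter (fun x => ¬ D.len x.1 x.2 ≤ m), (m + 1) := by
        rw [sum_const, smul_eq_mul]
    _ ≤ ∑ x ∈ P.filter (fun x => ¬ D.len x.1 x.2 ≤ m), D.len x.1 x.2 := by
        apply sum_le_sum
        intro x hx
        have := (mem_filter.1 hx).2
        omega
    _ ≤ ∑ x ∈ P, D.len x.1 x.2 := sum_le_sum_of_subset (filter_subset _ _)
    _ ≤ _ := D.sum_len_le P hP

/-- a family of boxes with disjoint projections to an axis -/
lemma disjoint_family (S : Finset V) (d : Fin 3)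
    (hS : ∀ u ∈ S, ∀ v ∈ S, u ≠ v → ¬ D.Ov d u v) (m : ℕ) :
    (S.card * (S.card - 1) - 2 * m * S.card) * (m + 1) ≤ 2 * D.B.card := by
  have h0 : S.offDiag.card = S.card * (S.card - 1) := by
    rw [offDiag_card, Nat.mul_sub, mul_one]
  rw [← h0]
  apply D.long _ (fun x hx => (mem_offDiag.1 hx).2.2)
  apply card_le_mul_card_image_of_maps_to (f := Prod.fst) (t := S)
  · intro x hx
    exact (mem_offDiag.1 (mem_filter.1 hx).1).1
  · intro u hu
    have key : ((S.offDiag.filter (fun x => D.len x.1 x.2 ≤ m)).filter (fun a => a.1 = u)).card ≤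
        (Finset.Icc (D.hi u d + 1) (D.hi u d + m)).card +
          (Finset.Icc (D.lo u d - m) (D.lo u d - 1)).card := by
      rw [← card_filter_add_card_filter_not (fun x : V × V => D.hi u d < D.lo x.2 d)]
      apply Nat.add_le_add
      · apply card_le_card_of_injOn (fun x => D.lo x.2 d)
        · intro x hx
          rw [mem_coe, mem_filter, mem_filter, mem_filter, mem_offDiag] at hx
          obtain ⟨⟨⟨⟨_, hx2, hne⟩, hlen⟩, hu'⟩, hlt⟩ := hx
          rw [mem_coe, mem_Icc]
          have h1 := D.len_le x.1 x.2 hne d _ _ rfl rfl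
          have h2 := D.pm x.1 x.2 hne d
          have h3 := D.pm x.2 x.1 hne.symm d
          rw [hu'] at h1 h2 h3 hlen
          simp only
          omega
        · intro x hx y hy hxy
          rw [mem_coe, mem_filter, mem_filter, mem_filter, mem_offDiag] at hx hy
          obtain ⟨⟨⟨⟨_, hx2, hne⟩, hlen⟩, hu'⟩, hlt⟩ := hx
          obtain ⟨⟨⟨⟨_, hy2, hne'⟩, hlen'⟩, hu''⟩, hlt'⟩ := hy
          simp only at hxy
          apply Prod.ext (hu'.trans hu''.symm)
          by_contra hne2
          apply hS _ hx2 _ hy2 hne2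
          have := D.lohi x.2 d
          have := D.lohi y.2 d
          constructor <;> omega
      · apply card_le_card_of_injOn (fun x => D.hi x.2 d)
        · intro x hx
          rw [mem_coe, mem_filter, mem_filter, mem_filter, mem_offDiag] at hx
          obtain ⟨⟨⟨⟨hx1, hx2, hne⟩, hlen⟩, hu'⟩, hlt⟩ := hx
          rw [mem_coe, mem_Icc]
          have h1 := D.len_le x.1 x.2 hne d _ _ rfl rfl
          have h2 := D.pm x.1 x.2 hne d
          have h3 := D.pm x.2 x.1 hne.symm d
          have h4 := hS _ hx1 _ hx2 hne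
          unfold Ov at h4
          rw [hu'] at h1 h2 h3 hlen h4
          have h5 := D.lohi u d
          have h6 := D.lohi x.2 d
          simp only
          omega
        · intro x hx y hy hxy
          rw [mem_coe, mem_filter, mem_filter, mem_filter, mem_offDiag] at hx hy
          obtain ⟨⟨⟨⟨_, hx2, hne⟩, hlen⟩, hu'⟩, hlt⟩ := hx
          obtain ⟨⟨⟨⟨_, hy2, hne'⟩, hlen'⟩, hu''⟩, hlt'⟩ := hy
          simp only at hxy
          apply Prod.ext (hu'.trans hu''.symm)
          by_contra hne2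
          apply hS _ hx2 _ hy2 hne2
          have := D.lohi x.2 d
          have := D.lohi y.2 d
          constructor <;> omega
    refine key.trans ?_
    rw [Int.card_Icc, Int.card_Icc]
    omega

/-- many overlapping projections: a common point -/
lemma plane (S : Finset V) (d : Fin 3) (t : ℕ)
    (h : 2 * t * S.card ≤ (S.offDiag.filter (fun x => D.Ov d x.1 x.2)).card) (hS : S.Nonempty) :
    ∃ z : ℤ, t + 1 ≤ (S.filter (fun u => D.lo u d ≤ z ∧ z ≤ D.hi u d)).card := by
  by_contra hcon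
  push Not at hcon
  have h1 : ∀ v ∈ S, ((S.offDiag.filter (fun x => D.lo x.1 d ≤ D.lo x.2 d ∧ D.lo x.2 d ≤ D.hi x.1 d)).filter
      (fun x => x.2 = v)).card + 1 ≤ t := by
    intro v hv
    refine le_trans ?_ (Nat.lt_succ_iff.1 (hcon (D.lo v d)))
    have h2 : insert v (((S.offDiag.filter (fun x => D.lo x.1 d ≤ D.lo x.2 d ∧ D.lo x.2 d ≤ D.hi x.1 d)).filter
      (fun x => x.2 = v)).image Prod.fst) ⊆ S.filter (fun u => D.lo u d ≤ D.lo v d ∧ D.lo v d ≤ D.hi u d) := by
      intro u hu
      rw [mem_insert, mem_image] at hu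
      rcases hu with rfl | ⟨x, hx, rfl⟩
      · exact mem_filter.2 ⟨hv, le_rfl, D.lohi _ _⟩
      · rw [mem_filter, mem_filter, mem_offDiag] at hx
        obtain ⟨⟨⟨hx1, _, _⟩, h3⟩, h4⟩ := hx
        rw [h4] at h3
        exact mem_filter.2 ⟨hx1, h3⟩
    refine le_trans (le_of_eq ?_) (card_le_card h2)
    rw [card_insert_of_notMem, card_image_of_injOn]
    · intro x hx y hy hxy
      rw [mem_coe, mem_filter] at hx hy
      exact Prod.ext hxy (hx.2.trans hy.2.symm)
    · intro h3
      obtain ⟨x, hx, h4⟩ := mem_image.1 h3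
      rw [mem_filter, mem_filter, mem_offDiag] at hx
      exact hx.1.1.2.2 (h4.trans hx.2.symm)
  have h2 : (S.offDiag.filter (fun x => D.lo x.1 d ≤ D.lo x.2 d ∧ D.lo x.2 d ≤ D.hi x.1 d)).card + S.card ≤
      t * S.card := by
    have h3 : (S.offDiag.filter (fun x => D.lo x.1 d ≤ D.lo x.2 d ∧ D.lo x.2 d ≤ D.hi x.1 d)).card =
        ∑ v ∈ S, ((S.offDiag.filter (fun x => D.lo x.1 d ≤ D.lo x.2 d ∧ D.lo x.2 d ≤ D.hi x.1 d)).filter
      (fun x => x.2 = v)).card := by
      apply card_eq_sum_card_fiberwise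
      intro x hx
      rw [mem_coe, mem_filter, mem_offDiag] at hx
      exact hx.1.2.1
    rw [h3]
    have h4 := sum_le_sum h1
    rw [sum_add_distrib, sum_const, sum_const, smul_eq_mul, smul_eq_mul, mul_one] at h4
    rw [mul_comm t]
    exact h4
  have h3 : (S.offDiag.filter (fun x => D.Ov d x.1 x.2)).card ≤
      2 * (S.offDiag.filter (fun x => D.lo x.1 d ≤ D.lo x.2 d ∧ D.lo x.2 d ≤ D.hi x.1 d)).card := by
    have h4 : S.offDiag.filter (fun x => D.Ov d x.1 x.2) ⊆
        S.offDiag.filter (fun x => D.lo x.1 d ≤ D.lo x.2 d ∧ D.lo x.2 d ≤ D.hi x.1 d) ∪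
        (S.offDiag.filter (fun x => D.lo x.1 d ≤ D.lo x.2 d ∧ D.lo x.2 d ≤ D.hi x.1 d)).image Prod.swap := by
      intro x hx
      rw [mem_filter] at hx
      obtain ⟨hx1, hx2⟩ := hx
      unfold Ov at hx2
      rcases le_total (D.lo x.1 d) (D.lo x.2 d) with h5 | h5
      · exact mem_union_left _ (mem_filter.2 ⟨hx1, h5, hx2.2⟩)
      · apply mem_union_right
        rw [mem_image]
        refine ⟨x.swap, mem_filter.2 ⟨?_, h5, hx2.1⟩, Prod.swap_swap x⟩
        rw [mem_offDiag] at hx1 ⊢
        exact ⟨hx1.2.1, hx1.1, hx1.2.2.symm⟩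
    refine (card_le_card h4).trans ((card_union_le _ _).trans ?_)
    have := card_image_le (s := S.offDiag.filter (fun x => D.lo x.1 d ≤ D.lo x.2 d ∧ D.lo x.2 d ≤ D.hi x.1 d))
      (f := Prod.swap)
    omega
  have h4 : 0 < S.card := card_pos.2 hS
  have : 2 * (t * S.card) = 2 * t * S.card := by ring
  omega

/-- the route from `v` to `u` leaves `v` in the direction of the axis `a` and arrives in the
direction of the axis `b`, in the plane given by the third coordinate -/
def TypeA (a b c : Fin 3) (v u : V) : Prop :=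
  D.q v u a = D.p u v a ∧ D.q v u b = D.p v u b ∧ D.q v u c = D.p v u c ∧ D.q v u c = D.p u v c

lemma types {a b c : Fin 3} (hab : a ≠ b) (hac : a ≠ c)
    (hbc : b ≠ c) (u v : V)
    (ha : ¬ D.Ov a u v) (hb : ¬ D.Ov b u v) : D.TypeA a b c v u ∨ D.TypeA b a c v u := by
  have hne : u ≠ v := by
    rintro rfl
    exact ha ⟨D.lohi _ _, D.lohi _ _⟩
  obtain ⟨d1, h1⟩ := D.ax v u hne.symm
  obtain ⟨d2, h2⟩ := D.ax u v hne
  rw [D.qc u v] at h2
  have h3 := D.pm v u hne.symm
  have h4 := D.pm u v hne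
  have ha' : D.p v u a ≠ D.p u v a := by
    intro h
    apply ha
    have := h3 a
    have := h4 a
    constructor <;> omega
  have hb' : D.p v u b ≠ D.p u v b := by
    intro h
    apply hb
    have := h3 b
    have := h4 b
    constructor <;> omega
  -- `d1` and `d2` are `a` and `b`
  by_cases e1 : a = d1
  · subst e1
    have hbd : D.p v u b = D.q v u b := h1 b hab.symm
    have hcd : D.p v u c = D.q v u c := h1 c hac.symm
    have e2 : b = d2 := by
      by_contra hne2
      exact hb' (hbd.trans (h2 b hne2).symm)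
    subst e2
    left
    exact ⟨(h2 a hab).symm, hbd.symm, hcd.symm, (h2 c hbc.symm).symm⟩
  · have had : D.p v u a = D.q v u a := h1 a e1
    have e2 : a = d2 := by
      by_contra hne2
      exact ha' (had.trans (h2 a hne2).symm)
    subst e2
    have hbd : D.p u v b = D.q v u b := h2 b hab.symm
    have hcd : D.p u v c = D.q v u c := h2 c hac.symm
    have e3 : b = d1 := by
      by_contra hne2
      exact hb' ((h1 b hne2).trans hbd.symm)
    subst e3
    right
    exact ⟨hbd.symm, had.symm, (h1 c hbc.symm).symm, hcd.symm⟩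

/-- the key step: for given `v`, interval of planes, column and direction there is at most one `u` -/
lemma column_unique {a b c : Fin 3} (habc : ∀ i, i = a ∨ i = b ∨ i = c) (hab : a ≠ b) (hac : a ≠ c)
    (hbc : b ≠ c) (v u u' : V)
    (I : Set ℤ) (hI : ∀ z ∈ I, D.lo u c ≤ z ∧ z ≤ D.hi u c)
    (hz' : D.q v u' c ∈ I) (hA' : D.TypeA a b c v u')
    (hcol : D.p u v a = D.p u' v a) (hne : u ≠ v) (hne' : u' ≠ v)
    (hord : (D.hi v b < D.lo u b ∧ D.hi u b < D.lo u' b) ∨
      (D.hi u b < D.lo v b ∧ D.hi u' b < D.lo u b)) : False := by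
  obtain ⟨t1, t2, t3, t4⟩ := hA'
  have p1 := D.pm u v hne
  have p2 := D.pm v u' hne'.symm
  have p3 := D.pm u' v hne'
  have l1 := D.lohi u
  set y : ℤ := if D.hi v b < D.lo u b then D.lo u b else D.hi u b with hy
  set g : Fin 3 → ℤ := fun i => if i = b then y else D.q v u' i with hg
  have gb : g b = y := by simp [hg]
  have ga : g a = D.q v u' a := by simp [hg, hab]
  have gc : g c = D.q v u' c := by simp [hg, hbc.symm]
  have hyu : D.lo u b ≤ y ∧ y ≤ D.hi u b := by
    have := l1 b
    rw [hy]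
    split_ifs <;> omega
  have hybet : (D.p v u' b < y ∧ y < D.p u' v b) ∨ (D.p u' v b < y ∧ y < D.p v u' b) := by
    have := p2 b
    have := p3 b
    have := l1 b
    rw [hy]
    split_ifs <;> omega
  have hon : OnP (D.p v u') (D.q v u') (D.p u' v) g := by
    right
    intro i
    rcases habc i with rfl | rfl | rfl
    · rw [ga]; exact Set.left_mem_uIcc
    · rw [gb, Set.mem_uIcc]
      omega
    · rw [gc]; exact Set.left_mem_uIcc
  have hbox : ∀ i, D.lo u i ≤ g i ∧ g i ≤ D.hi u i := by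
    intro i
    rcases habc i with rfl | rfl | rfl
    · rw [ga, t1, ← hcol]
      exact p1 _
    · rw [gb]; exact hyu
    · rw [gc]
      exact hI _ hz'
  rcases D.rb v u' u hne'.symm g hon hbox with h | h
  · have := congrFun h b
    rw [gb] at this
    omega
  · have := congrFun h b
    rw [gb] at this
    omega

/-- the number of short routes of one type from `v` in one interval of planes -/
lemma short_type {a b c : Fin 3} (habc : ∀ i, i = a ∨ i = b ∨ i = c) (hab : a ≠ b) (hac : a ≠ c)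
    (hbc : b ≠ c) (v : V) (m : ℕ) (I : Set ℤ) (W : Finset V)
    (hI : ∀ u ∈ W, ∀ z ∈ I, D.lo u c ≤ z ∧ z ≤ D.hi u c)
    (hz : ∀ u ∈ W, D.q v u c ∈ I) (hA : ∀ u ∈ W, D.TypeA a b c v u)
    (ha : ∀ u ∈ W, ¬ D.Ov a v u) (hb : ∀ u ∈ W, ¬ D.Ov b v u) (hm : ∀ u ∈ W, D.len v u ≤ m) :
    W.card ≤ 4 * m := by
  have hne : ∀ u ∈ W, u ≠ v := by
    rintro u hu rfl
    exact ha u hu ⟨D.lohi _ _, D.lohi _ _⟩
  let T : Finset (ℤ × Bool) := (Finset.Icc (D.hi v a + 1) (D.hi v a + m) ∪
    Finset.Icc (D.lo v a - m) (D.lo v a - 1)) ×ˢ univ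
  have hT : T.card ≤ 4 * m := by
    have h1 := card_union_le (Finset.Icc (D.hi v a + 1) (D.hi v a + m))
      (Finset.Icc (D.lo v a - m) (D.lo v a - 1))
    rw [Int.card_Icc, Int.card_Icc] at h1
    simp only [T, card_product, card_univ, Fintype.card_bool]
    omega
  refine le_trans ?_ hT
  apply card_le_card_of_injOn (fun u => (D.p u v a, decide (D.hi v b < D.lo u b)))
  · intro u hu
    rw [mem_coe] at hu
    simp only [T, mem_coe, mem_product, mem_univ, and_true, mem_union, mem_Icc]
    have h1 := D.len_le v u (hne u hu).symm a _ _ rfl rfl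
    have h2 := D.pm u v (hne u hu) a
    have h3 := D.pm v u (hne u hu).symm a
    have h4 := ha u hu
    have h5 := hm u hu
    unfold Ov at h4
    omega
  · intro u hu u' hu' heq
    rw [mem_coe] at hu hu'
    simp only [Prod.mk.injEq, decide_eq_decide] at heq
    obtain ⟨h1, h2⟩ := heq
    by_contra hcon
    have b1 := hb u hu
    have b2 := hb u' hu'
    unfold Ov at b1 b2
    -- the boxes of `u` and `u'` have disjoint projections to `b`
    have hov : ¬ (D.lo u b ≤ D.hi u' b ∧ D.lo u' b ≤ D.hi u b) := by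
      rintro ⟨h3, h4⟩
      have l1 := D.lohi u b
      have l2 := D.lohi u' b
      apply D.disj u u' hcon (fun i => if i = a then D.p u v a else
        if i = b then max (D.lo u b) (D.lo u' b) else D.q v u c)
      · intro i
        rcases habc i with rfl | rfl | rfl
        · rw [if_pos rfl]; exact D.pm u v (hne u hu) _
        · rw [if_neg hab.symm, if_pos rfl]
          constructor <;> omega
        · rw [if_neg hac.symm, if_neg hbc.symm]
          exact hI u hu _ (hz u hu)
      · intro i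
        rcases habc i with rfl | rfl | rfl
        · rw [if_pos rfl, h1]; exact D.pm u' v (hne u' hu') _
        · rw [if_neg hab.symm, if_pos rfl]
          constructor <;> omega
        · rw [if_neg hac.symm, if_neg hbc.symm]
          exact hI u' hu' _ (hz u hu)
    have hov' : D.hi u b < D.lo u' b ∨ D.hi u' b < D.lo u b := by omega
    have l0 := D.lohi v b
    have l1 := D.lohi u b
    have l2 := D.lohi u' b
    by_cases hs : D.hi v b < D.lo u b
    · have hs' := h2.1 hs
      rcases hov' with h | h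
      · exact D.column_unique habc hab hac hbc v u u' I (hI u hu) (hz u' hu') (hA u' hu') h1
          (hne u hu) (hne u' hu') (Or.inl ⟨hs, h⟩)
      · exact D.column_unique habc hab hac hbc v u' u I (hI u' hu') (hz u hu) (hA u hu) h1.symm
          (hne u' hu') (hne u hu) (Or.inl ⟨hs', h⟩)
    · have hs' : ¬ D.hi v b < D.lo u' b := fun h => hs (h2.2 h)
      rcases hov' with h | h
      · exact D.column_unique habc hab hac hbc v u' u I (hI u' hu') (hz u hu) (hA u hu) h1.symm
          (hne u' hu') (hne u hu) (Or.inr ⟨by omega, h⟩)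
      · exact D.column_unique habc hab hac hbc v u u' I (hI u hu) (hz u' hu') (hA u' hu') h1
          (hne u hu) (hne u' hu') (Or.inr ⟨by omega, h⟩)

/-- the route of `v`, `u` is charged to `v` -/
def Charged (c : Fin 3) (z0 : ℤ) (v u : V) : Prop :=
  (z0 ≤ D.q v u c ∧ D.hi v c ≤ D.hi u c) ∨ (D.q v u c < z0 ∧ D.lo u c ≤ D.lo v c)

lemma short_charged {a b c : Fin 3} (habc : ∀ i, i = a ∨ i = b ∨ i = c) (hab : a ≠ b) (hac : a ≠ c)
    (hbc : b ≠ c) (v : V) (m : ℕ) (z0 : ℤ) (W : Finset V)
    (hv : D.lo v c ≤ z0 ∧ z0 ≤ D.hi v c)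
    (hW : ∀ u ∈ W, D.lo u c ≤ z0 ∧ z0 ≤ D.hi u c)
    (hch : ∀ u ∈ W, D.Charged c z0 v u)
    (ha : ∀ u ∈ W, ¬ D.Ov a v u) (hb : ∀ u ∈ W, ¬ D.Ov b v u) (hm : ∀ u ∈ W, D.len v u ≤ m) :
    W.card ≤ 16 * m := by
  have hne : ∀ u ∈ W, u ≠ v := by
    rintro u hu rfl
    exact ha u hu ⟨D.lohi _ _, D.lohi _ _⟩
  have hty : ∀ u ∈ W, D.TypeA a b c v u ∨ D.TypeA b a c v u := fun u hu =>
    D.types hab hac hbc u v (fun h => ha u hu ⟨h.2, h.1⟩) (fun h => hb u hu ⟨h.2, h.1⟩)
  have hq : ∀ u ∈ W, D.lo v c ≤ D.q v u c ∧ D.q v u c ≤ D.hi v c := by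
    intro u hu
    rcases hty u hu with h | h
    · rw [h.2.2.1]; exact D.pm v u (hne u hu).symm c
    · rw [h.2.2.1]; exact D.pm v u (hne u hu).symm c
  -- one class
  have cls : ∀ W' ⊆ W, ((∀ u ∈ W', z0 ≤ D.q v u c ∧ D.hi v c ≤ D.hi u c) ∨
      (∀ u ∈ W', D.q v u c < z0 ∧ D.lo u c ≤ D.lo v c)) →
      ((∀ u ∈ W', D.TypeA a b c v u) ∨ (∀ u ∈ W', D.TypeA b a c v u)) → W'.card ≤ 4 * m := by
    intro W' hW' h1 h2
    obtain ⟨I, hI, hz⟩ : ∃ I : Set ℤ, (∀ u ∈ W', ∀ z ∈ I, D.lo u c ≤ z ∧ z ≤ D.hi u c) ∧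
        (∀ u ∈ W', D.q v u c ∈ I) := by
      rcases h1 with h1 | h1
      · refine ⟨Set.Icc z0 (D.hi v c), ?_, ?_⟩
        · intro u hu z hz
          have := h1 u hu
          have := hW u (hW' hu)
          have := hz.1
          have := hz.2
          constructor <;> omega
        · intro u hu
          exact ⟨(h1 u hu).1, (hq u (hW' hu)).2⟩
      · refine ⟨Set.Icc (D.lo v c) z0, ?_, ?_⟩
        · intro u hu z hz
          have := h1 u hu
          have := hW u (hW' hu)
          have := hz.1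
          have := hz.2
          constructor <;> omega
        · intro u hu
          exact ⟨(hq u (hW' hu)).1, (h1 u hu).1.le⟩
    rcases h2 with h2 | h2
    · exact D.short_type habc hab hac hbc v m I W' hI hz h2 (fun u hu => ha u (hW' hu))
        (fun u hu => hb u (hW' hu)) (fun u hu => hm u (hW' hu))
    · exact D.short_type (fun i => by rcases habc i with h | h | h <;> simp [h]) hab.symm hbc hac v m I W'
        hI hz h2 (fun u hu => hb u (hW' hu))
        (fun u hu => ha u (hW' hu)) (fun u hu => hm u (hW' hu))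
  have e1 := card_filter_add_card_filter_not (s := W) (fun u => z0 ≤ D.q v u c ∧ D.hi v c ≤ D.hi u c)
  have e2 := card_filter_add_card_filter_not
    (s := W.filter (fun u => z0 ≤ D.q v u c ∧ D.hi v c ≤ D.hi u c)) (fun u => D.TypeA a b c v u)
  have e3 := card_filter_add_card_filter_not
    (s := W.filter (fun u => ¬ (z0 ≤ D.q v u c ∧ D.hi v c ≤ D.hi u c))) (fun u => D.TypeA a b c v u)
  have f1 := cls _ ((filter_subset (fun u => D.TypeA a b c v u) _).trans
    (filter_subset (fun u => z0 ≤ D.q v u c ∧ D.hi v c ≤ D.hi u c) W))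
    (Or.inl fun u hu => (mem_filter.1 (mem_filter.1 hu).1).2) (Or.inl fun u hu => (mem_filter.1 hu).2)
  have f2 := cls _ ((filter_subset (fun u => ¬ D.TypeA a b c v u) _).trans
    (filter_subset (fun u => z0 ≤ D.q v u c ∧ D.hi v c ≤ D.hi u c) W))
    (Or.inl fun u hu => (mem_filter.1 (mem_filter.1 hu).1).2) (Or.inr fun u hu =>
      (hty u (mem_filter.1 (mem_filter.1 hu).1).1).resolve_left (mem_filter.1 hu).2)
  have g1 := cls _ ((filter_subset (fun u => D.TypeA a b c v u) _).trans
    (filter_subset (fun u => ¬ (z0 ≤ D.q v u c ∧ D.hi v c ≤ D.hi u c)) W))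
    (Or.inr fun u hu => (hch u (mem_filter.1 (mem_filter.1 hu).1).1).resolve_left
      (mem_filter.1 (mem_filter.1 hu).1).2) (Or.inl fun u hu => (mem_filter.1 hu).2)
  have g2 := cls _ ((filter_subset (fun u => ¬ D.TypeA a b c v u) _).trans
    (filter_subset (fun u => ¬ (z0 ≤ D.q v u c ∧ D.hi v c ≤ D.hi u c)) W))
    (Or.inr fun u hu => (hch u (mem_filter.1 (mem_filter.1 hu).1).1).resolve_left
      (mem_filter.1 (mem_filter.1 hu).1).2) (Or.inr fun u hu =>
      (hty u (mem_filter.1 (mem_filter.1 hu).1).1).resolve_left (mem_filter.1 hu).2)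
  omega

lemma len_comm (u v : V) : D.len u v = D.len v u := by
  unfold len
  congr 1
  ext g
  rw [mem_filter, mem_filter, D.qc v u]
  exact and_congr_right fun _ => ⟨onP_symm, onP_symm⟩

/-- few short routes between diagonal pairs of boxes meeting a common plane -/
lemma short_diag {a b c : Fin 3} (habc : ∀ i, i = a ∨ i = b ∨ i = c) (hab : a ≠ b) (hac : a ≠ c)
    (hbc : b ≠ c) (m : ℕ) (z0 : ℤ) (W : Finset V)
    (hW : ∀ u ∈ W, D.lo u c ≤ z0 ∧ z0 ≤ D.hi u c) :
    ((W.offDiag.filter (fun x => ¬ D.Ov a x.1 x.2 ∧ ¬ D.Ov b x.1 x.2)).filter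
      (fun x => D.len x.1 x.2 ≤ m)).card ≤ 32 * m * W.card := by
  set P := (W.offDiag.filter (fun x => ¬ D.Ov a x.1 x.2 ∧ ¬ D.Ov b x.1 x.2)).filter
      (fun x => D.len x.1 x.2 ≤ m) with hP
  set Q := P.filter (fun x => D.Charged c z0 x.1 x.2) with hQ
  have hmem : ∀ x, x ∈ P ↔ ((x.1 ∈ W ∧ x.2 ∈ W ∧ x.1 ≠ x.2) ∧ ¬ D.Ov a x.1 x.2 ∧ ¬ D.Ov b x.1 x.2) ∧
      D.len x.1 x.2 ≤ m := by
    intro x
    rw [hP, mem_filter, mem_filter, mem_offDiag]
  have h1 : Q.card ≤ 16 * m * W.card := by
    apply card_le_mul_card_image_of_maps_to (f := Prod.fst) (t := W)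
    · intro x hx
      exact ((hmem x).1 (mem_filter.1 hx).1).1.1.1
    · intro v hv
      have h2 : (Q.filter (fun x => x.1 = v)).card = ((Q.filter (fun x => x.1 = v)).image Prod.snd).card := by
        rw [card_image_of_injOn]
        intro x hx y hy hxy
        rw [mem_coe, mem_filter] at hx hy
        exact Prod.ext (hx.2.trans hy.2.symm) hxy
      rw [h2]
      have hu : ∀ u ∈ (Q.filter (fun x => x.1 = v)).image Prod.snd,
          (v, u) ∈ P ∧ D.Charged c z0 v u := by
        intro u hu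
        obtain ⟨x, hx, rfl⟩ := mem_image.1 hu
        rw [mem_filter] at hx
        obtain ⟨hx, rfl⟩ := hx
        exact mem_filter.1 hx
      apply D.short_charged habc hab hac hbc v m z0 _ (hW v hv)
      · intro u h
        exact hW u ((hmem _).1 (hu u h).1).1.1.2.1
      · intro u h
        exact (hu u h).2
      · intro u h
        exact ((hmem _).1 (hu u h).1).1.2.1
      · intro u h
        exact ((hmem _).1 (hu u h).1).1.2.2
      · intro u h
        exact ((hmem _).1 (hu u h).1).2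
  have h2 : P ⊆ Q ∪ Q.image Prod.swap := by
    intro x hx
    have hx' := (hmem x).1 hx
    by_cases h3 : D.Charged c z0 x.1 x.2
    · exact mem_union_left _ (mem_filter.2 ⟨hx, h3⟩)
    · apply mem_union_right
      rw [mem_image]
      refine ⟨x.swap, mem_filter.2 ⟨?_, ?_⟩, Prod.swap_swap x⟩
      · rw [hmem]
        obtain ⟨⟨⟨i1, i2, i3⟩, i4, i5⟩, i6⟩ := hx'
        exact ⟨⟨⟨i2, i1, i3.symm⟩, fun h => i4 ⟨h.2, h.1⟩, fun h => i5 ⟨h.2, h.1⟩⟩, by
          rw [D.len_comm]; exact i6⟩
      · unfold Charged at h3 ⊢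
        simp only [Prod.fst_swap, Prod.snd_swap]
        rw [D.qc x.2 x.1]
        omega
  calc P.card ≤ (Q ∪ Q.image Prod.swap).card := card_le_card h2
    _ ≤ Q.card + (Q.image Prod.swap).card := card_union_le _ _
    _ ≤ Q.card + Q.card := Nat.add_le_add_left card_image_le _
    _ ≤ 32 * m * W.card := by
        have : 32 * m * W.card = 16 * m * W.card + 16 * m * W.card := by ring
        omega

/-- a family crossing a plane, with many pairs overlapping in a second direction -/
lemma cross_family {a b c : Fin 3} (habc : ∀ i, i = a ∨ i = b ∨ i = c) (hab : a ≠ b) (hac : a ≠ c)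
    (hbc : b ≠ c) (z0 : ℤ) (W : Finset V) (hne : W.Nonempty)
    (hW : ∀ u ∈ W, D.lo u c ≤ z0 ∧ z0 ≤ D.hi u c) (t : ℕ)
    (h : 2 * t * W.card ≤ (W.offDiag.filter (fun x => D.Ov a x.1 x.2)).card) :
    t ^ 3 ≤ 64 * D.B.card := by
  obtain ⟨x0, hx0⟩ := D.plane W a t h hne
  set S := W.filter (fun u => D.lo u a ≤ x0 ∧ x0 ≤ D.hi u a) with hS
  have hdis : ∀ u ∈ S, ∀ v ∈ S, u ≠ v → ¬ D.Ov b u v := by
    intro u hu v hv huv hov
    rw [hS, mem_filter] at hu hv
    have l1 := D.lohi u b
    have l2 := D.lohi v b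
    obtain ⟨o1, o2⟩ := hov
    apply D.disj u v huv (fun i => if i = a then x0 else
      if i = b then max (D.lo u b) (D.lo v b) else z0)
    · intro i
      rcases habc i with rfl | rfl | rfl
      · rw [if_pos rfl]; exact hu.2
      · rw [if_neg hab.symm, if_pos rfl]
        constructor <;> omega
      · rw [if_neg hac.symm, if_neg hbc.symm]
        exact hW u hu.1
    · intro i
      rcases habc i with rfl | rfl | rfl
      · rw [if_pos rfl]; exact hv.2
      · rw [if_neg hab.symm, if_pos rfl]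
        constructor <;> omega
      · rw [if_neg hac.symm, if_neg hbc.symm]
        exact hW v hv.1
  have h1 := D.disjoint_family S b hdis (S.card / 4)
  set k := S.card with hk
  have h2 : k * (k - 1) - 2 * (k / 4) * k = k * (k - 1 - 2 * (k / 4)) := by
    rw [mul_comm (2 * (k / 4)) k, Nat.mul_sub k (k - 1) (2 * (k / 4))]
  rw [h2] at h1
  -- `k ≥ t + 1`
  rcases Nat.lt_or_ge t 4 with h3 | h3
  · -- small `t`
    have hB : 1 ≤ D.B.card ∨ t = 0 := by
      rcases Nat.eq_zero_or_pos t with h4 | h4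
      · right; exact h4
      · left
        obtain ⟨u, hu, v, hv, huv⟩ := one_lt_card.1 (show 1 < S.card by omega)
        apply card_pos.2
        exact ⟨D.p u v, D.inB u v huv _ (Or.inl fun i => Set.left_mem_uIcc)⟩
    rcases hB with hB | hB
    · calc t ^ 3 ≤ 3 ^ 3 := Nat.pow_le_pow_left (by omega) 3
        _ ≤ _ := by omega
    · subst hB; simp
  · have h4 : t ≤ k - 1 := by omega
    have h5 : t ≤ 4 * (k - 1 - 2 * (k / 4)) := by omega
    have h6 : t ≤ 4 * (k / 4 + 1) := by omega
    calc t ^ 3 = t * t * t := by ring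
      _ ≤ k * (4 * (k - 1 - 2 * (k / 4))) * (4 * (k / 4 + 1)) :=
          Nat.mul_le_mul (Nat.mul_le_mul (by omega) h5) h6
      _ = 16 * (k * (k - 1 - 2 * (k / 4)) * (k / 4 + 1)) := by ring
      _ ≤ 16 * (2 * D.B.card) := Nat.mul_le_mul_left _ h1
      _ ≤ 64 * D.B.card := by omega

/-- a family crossing a plane -/
lemma plane_family {a b c : Fin 3} (habc : ∀ i, i = a ∨ i = b ∨ i = c) (hab : a ≠ b) (hac : a ≠ c)
    (hbc : b ≠ c) (z0 : ℤ) (W : Finset V) (hne : W.Nonempty)
    (hW : ∀ u ∈ W, D.lo u c ≤ z0 ∧ z0 ≤ D.hi u c) (s : ℕ) (hs : 128 * s ≤ W.card) :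
    s ^ 3 ≤ 64 * D.B.card := by
  rcases Nat.eq_zero_or_pos s with rfl | hs0
  · simp
  set t := 8 * s with ht
  by_cases h1 : 2 * t * W.card ≤ (W.offDiag.filter (fun x => D.Ov a x.1 x.2)).card
  · have := D.cross_family habc hab hac hbc z0 W hne hW t h1
    refine le_trans (Nat.pow_le_pow_left (by omega) 3) this
  by_cases h2 : 2 * t * W.card ≤ (W.offDiag.filter (fun x => D.Ov b x.1 x.2)).card
  · have := D.cross_family (fun i => by rcases habc i with h | h | h <;> simp [h]) hab.symm hbc hac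
      z0 W hne hW t h2
    refine le_trans (Nat.pow_le_pow_left (by omega) 3) this
  push Not at h1 h2
  set P := W.offDiag.filter (fun x => ¬ D.Ov a x.1 x.2 ∧ ¬ D.Ov b x.1 x.2) with hP
  have hoff : W.offDiag.card = W.card * (W.card - 1) := by
    rw [offDiag_card, Nat.mul_sub, mul_one]
  have hcov : W.offDiag ⊆ P ∪ (W.offDiag.filter (fun x => D.Ov a x.1 x.2) ∪
      W.offDiag.filter (fun x => D.Ov b x.1 x.2)) := by
    intro x hx
    by_cases i1 : D.Ov a x.1 x.2
    · exact mem_union_right _ (mem_union_left _ (mem_filter.2 ⟨hx, i1⟩))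
    by_cases i2 : D.Ov b x.1 x.2
    · exact mem_union_right _ (mem_union_right _ (mem_filter.2 ⟨hx, i2⟩))
    exact mem_union_left _ (mem_filter.2 ⟨hx, i1, i2⟩)
  have h3 : W.card * (W.card - 1) ≤ P.card + 4 * t * W.card := by
    rw [← hoff]
    refine (card_le_card hcov).trans ((card_union_le _ _).trans ?_)
    apply Nat.add_le_add_left
    refine (card_union_le _ _).trans ?_
    have : 4 * t * W.card = 2 * t * W.card + 2 * t * W.card := by ring
    omega
  have h4 := D.long P (fun x hx => (mem_offDiag.1 (mem_filter.1 hx).1).2.2) s (32 * s * W.card)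
    (D.short_diag habc hab hac hbc s z0 W hW)
  set w := W.card with hw
  have h5 : w * (w - 1 - 4 * t - 32 * s) ≤ P.card - 32 * s * w := by
    have e1 : w * (w - 1 - 4 * t - 32 * s) = w * (w - 1) - w * (4 * t) - w * (32 * s) := by
      rw [Nat.mul_sub, Nat.mul_sub]
    have e2 : w * (4 * t) = 4 * t * w := by ring
    have e3 : w * (32 * s) = 32 * s * w := by ring
    rw [e1, e2, e3]
    omega
  calc s ^ 3 = s * s * s := by ring
    _ ≤ w * (w - 1 - 4 * t - 32 * s) * (s + 1) :=
        Nat.mul_le_mul (Nat.mul_le_mul (by omega) (by omega)) (by omega)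
    _ ≤ (P.card - 32 * s * w) * (s + 1) := Nat.mul_le_mul_right _ h5
    _ ≤ 2 * D.B.card := h4
    _ ≤ 64 * D.B.card := by omega

/-- **The lower bound.** -/
theorem bound [Fintype V] (s : ℕ) (hs : 768 * s + 6 ≤ Fintype.card V) : s ^ 3 ≤ 64 * D.B.card := by
  set n := Fintype.card V with hn
  have hcov : (univ : Finset V).offDiag ⊆ (univ.offDiag.filter (fun x => D.Ov 0 x.1 x.2)) ∪
      ((univ.offDiag.filter (fun x => D.Ov 1 x.1 x.2)) ∪
        (univ.offDiag.filter (fun x => D.Ov 2 x.1 x.2))) := by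
    intro x hx
    have hne := (mem_offDiag.1 hx).2.2
    obtain ⟨d1, h1⟩ := D.ax x.1 x.2 hne
    obtain ⟨d2, h2⟩ := D.ax x.2 x.1 hne.symm
    rw [D.qc x.2 x.1] at h2
    obtain ⟨d, hd1, hd2⟩ : ∃ d : Fin 3, d ≠ d1 ∧ d ≠ d2 := by
      have : ∀ d1 d2 : Fin 3, ∃ d : Fin 3, d ≠ d1 ∧ d ≠ d2 := by decide
      exact this d1 d2
    have hov : D.Ov d x.1 x.2 := by
      have e1 := h1 d hd1
      have e2 := h2 d hd2
      have e3 := D.pm x.1 x.2 hne d
      have e4 := D.pm x.2 x.1 hne.symm d
      constructor <;> omega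
    simp only [mem_union, mem_filter]
    fin_cases d
    · exact Or.inl ⟨hx, hov⟩
    · exact Or.inr (Or.inl ⟨hx, hov⟩)
    · exact Or.inr (Or.inr ⟨hx, hov⟩)
  have hne : (univ : Finset V).Nonempty := card_pos.1 (by rw [card_univ]; omega)
  have hcard : n * (n - 1) ≤ (univ.offDiag.filter (fun x : V × V => D.Ov 0 x.1 x.2)).card +
      ((univ.offDiag.filter (fun x : V × V => D.Ov 1 x.1 x.2)).card +
        (univ.offDiag.filter (fun x : V × V => D.Ov 2 x.1 x.2)).card) := by
    have : (univ : Finset V).offDiag.card = n * (n - 1) := by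
      rw [offDiag_card, card_univ, Nat.mul_sub, mul_one]
    rw [← this]
    refine (card_le_card hcov).trans ((card_union_le _ _).trans ?_)
    exact Nat.add_le_add_left (card_union_le _ _) _
  set t := 128 * s with ht
  have hn6 : 6 * (t * n) ≤ n * (n - 1) := by
    have : 6 * (t * n) = n * (6 * t) := by ring
    rw [this]
    exact Nat.mul_le_mul_left _ (by omega)
  have h2t : 2 * t * (univ : Finset V).card = 2 * (t * n) := by rw [card_univ]; ring
  -- one direction
  have go : ∀ a b c : Fin 3, (∀ i, i = a ∨ i = b ∨ i = c) → a ≠ b → a ≠ c → b ≠ c →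
      2 * t * (univ : Finset V).card ≤ ((univ : Finset V).offDiag.filter (fun x => D.Ov c x.1 x.2)).card →
      s ^ 3 ≤ 64 * D.B.card := by
    intro a b c habc hab hac hbc h
    obtain ⟨z0, hz0⟩ := D.plane univ c t h hne
    refine D.plane_family habc hab hac hbc z0 (univ.filter (fun u => D.lo u c ≤ z0 ∧ z0 ≤ D.hi u c))
      (card_pos.1 (by omega)) (fun u hu => (mem_filter.1 hu).2) s (by omega)
  by_cases h0 : 2 * t * (univ : Finset V).card ≤ ((univ : Finset V).offDiag.filter (fun x => D.Ov 0 x.1 x.2)).card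
  · exact go 1 2 0 (by decide) (by decide) (by decide) (by decide) h0
  by_cases h1 : 2 * t * (univ : Finset V).card ≤ ((univ : Finset V).offDiag.filter (fun x => D.Ov 1 x.1 x.2)).card
  · exact go 0 2 1 (by decide) (by decide) (by decide) (by decide) h1
  by_cases h2 : 2 * t * (univ : Finset V).card ≤ ((univ : Finset V).offDiag.filter (fun x => D.Ov 2 x.1 x.2)).card
  · exact go 0 1 2 (by decide) (by decide) (by decide) (by decide) h2
  omega

end Core

end Pool.Agent.L5helper35.Box
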