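import Mathlib

/-!
# Three-dimensional orthogonal box-drawings of complete graphs with one bend per edge: definitions
-/

set_option autoImplicit false

namespace Pool.Agent.L5helper35.Box

/-- Grid points of `ℤ³`. -/
abbrev GridPoint : Type := Fin 3 → ℤ

/-- A grid point as a point of `ℝ³`. -/
def toReal (p : GridPoint) : Fin 3 → ℝ := fun i => (p i : ℝ)

/-- The axis-parallel box of `ℝ³` with lowest corner `a` and highest corner `b`. -/
def box (a b : GridPoint) : Set (Fin 3 → ℝ) := Set.Icc (toReal a) (toReal b)

/-- The grid points `p` and `q` differ in at most one coordinate. -/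
def AxisParallel (p q : GridPoint) : Prop := ∃ d, ∀ i, i ≠ d → p i = q i

/-- The polygonal path from `p` over `q` to `r`. -/
def path (p q r : GridPoint) : Set (Fin 3 → ℝ) :=
  segment ℝ (toReal p) (toReal q) ∪ segment ℝ (toReal q) (toReal r)

/-- A 3D orthogonal 1-bend box-drawing of the complete graph with vertex set `Fin n`. -/
structure Drawing (n : ℕ) where
  /-- the lowest corner of the box of a vertex -/
  lo : Fin n → GridPoint
  /-- the highest corner of the box of a vertex -/
  hi : Fin n → GridPoint
  /-- `endpt u v` is the endpoint at the box of `u` of the route of the edge `uv` -/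
  endpt : Fin n → Fin n → GridPoint
  /-- the point where the route of the edge `uv` may change its direction -/
  bend : Fin n → Fin n → GridPoint
  lo_le_hi : ∀ v, lo v ≤ hi v
  /-- the boxes of distinct vertices are disjoint -/
  boxes_disjoint : ∀ u v, u ≠ v → Disjoint (box (lo u) (hi u)) (box (lo v) (hi v))
  bend_comm : ∀ u v, bend u v = bend v u
  /-- the route of `uv` starts at the box of `u` (and, exchanging `u` and `v`, ends at the box of `v`) -/
  endpt_mem : ∀ u v, u ≠ v → lo u ≤ endpt u v ∧ endpt u v ≤ hi u
  /-- its endpoints are on the surfaces of the boxes -/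
  endpt_surface : ∀ u v, u ≠ v → ∃ i, endpt u v i = lo u i ∨ endpt u v i = hi u i
  /-- the segments of the route are parallel to the axes -/
  axis_parallel : ∀ u v, u ≠ v → AxisParallel (endpt u v) (bend u v)
  /-- apart from its endpoints a route meets no box -/
  route_inter_box : ∀ u v w, u ≠ v →
    path (endpt u v) (bend u v) (endpt v u) ∩ box (lo w) (hi w) ⊆
      {toReal (endpt u v), toReal (endpt v u)}
  /-- the routes of distinct edges are disjoint -/
  routes_disjoint : ∀ u v u' v', u ≠ v → u' ≠ v' → s(u, v) ≠ s(u', v') →
    Disjoint (path (endpt u v) (bend u v) (endpt v u)) (path (endpt u' v') (bend u' v') (endpt v' u'))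

/-- The boxes and the routes of the drawing lie in the box with corners `a` and `b`. -/
def Drawing.Within {n : ℕ} (D : Drawing n) (a b : GridPoint) : Prop :=
  (∀ v, box (D.lo v) (D.hi v) ⊆ box a b) ∧
    ∀ u v, u ≠ v → path (D.endpt u v) (D.bend u v) (D.endpt v u) ⊆ box a b

/-- The number of grid points in the box with corners `a ≤ b`. -/
def gridVolume (a b : GridPoint) : ℕ := ∏ i, (b i - a i + 1).toNat

/-- `V₁(n)`: the least number of grid points of a box which contains a 3D orthogonal 1-bend
box-drawing of `K_n`. -/
noncomputable def V₁ (n : ℕ) : ℕ :=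
  sInf {V | ∃ (D : Drawing n) (a b : GridPoint), a ≤ b ∧ D.Within a b ∧ V = gridVolume a b}

end Pool.Agent.L5helper35.Box
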