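import Mathlib
import Pool.Agent.L5helper35.BoxDefs
import Pool.Agent.L5helper35.BoxCore

/-!
# The volume of 1-bend box-drawings of complete graphs
-/

set_option autoImplicit false

namespace Pool.Agent.L5helper35.Box

open Finset

lemma seg_mem {p q g : GridPoint} (h : AxisParallel p q) (hg : ∀ i, g i ∈ Set.uIcc (p i) (q i)) :
    toReal g ∈ segment ℝ (toReal p) (toReal q) := by
  obtain ⟨d, hd⟩ := h
  have hne : ∀ i, i ≠ d → g i = p i := by
    intro i hi
    have h1 := hg i
    rw [← hd i hi, Set.uIcc_self] at h1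
    exact h1
  by_cases hpq : p d = q d
  · have : g = p := by
      funext i
      by_cases hi : i = d
      · subst hi
        have h1 := hg i
        rw [← hpq, Set.uIcc_self] at h1
        exact h1
      · exact hne i hi
    rw [this]
    exact left_mem_segment _ _ _
  · have h1 := hg d
    rw [Set.mem_uIcc] at h1
    have hpqr : (q d : ℝ) - p d ≠ 0 := by
      intro h
      apply hpq
      have : (p d : ℝ) = q d := by linarith
      exact_mod_cast this
    set t : ℝ := ((g d : ℝ) - p d) / ((q d : ℝ) - p d) with ht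
    have htm : t * ((q d : ℝ) - p d) = (g d : ℝ) - p d := by
      rw [ht]; field_simp
    have ht01 : 0 ≤ t ∧ t ≤ 1 := by
      rcases h1 with ⟨h1, h2⟩ | ⟨h1, h2⟩
      · have h1' : (p d : ℝ) ≤ g d := by exact_mod_cast h1
        have h2' : (g d : ℝ) ≤ q d := by exact_mod_cast h2
        have h3 : 0 < (q d : ℝ) - p d := lt_of_le_of_ne (by linarith) hpqr.symm
        exact ⟨div_nonneg (by linarith) h3.le, (div_le_one h3).2 (by linarith)⟩
      · have h1' : (q d : ℝ) ≤ g d := by exact_mod_cast h1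
        have h2' : (g d : ℝ) ≤ p d := by exact_mod_cast h2
        have h3 : (q d : ℝ) - p d < 0 := lt_of_le_of_ne (by linarith) hpqr
        refine ⟨div_nonneg_of_nonpos (by linarith) h3.le, ?_⟩
        rw [ht, div_le_one_of_neg h3]
        linarith
    refine ⟨1 - t, t, by linarith, ht01.1, by ring, ?_⟩
    funext i
    simp only [Pi.add_apply, Pi.smul_apply, smul_eq_mul, toReal]
    by_cases hi : i = d
    · subst hi
      linarith
    · rw [← hd i hi, hne i hi]
      ring

lemma mem_box {a b g : GridPoint} : toReal g ∈ box a b ↔ ∀ i, a i ≤ g i ∧ g i ≤ b i := by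
  unfold box toReal
  rw [Set.mem_Icc, Pi.le_def, Pi.le_def]
  constructor
  · rintro ⟨h1, h2⟩ i
    exact ⟨by exact_mod_cast h1 i, by exact_mod_cast h2 i⟩
  · intro h
    exact ⟨fun i => by exact_mod_cast (h i).1, fun i => by exact_mod_cast (h i).2⟩

lemma toReal_inj {p q : GridPoint} (h : toReal p = toReal q) : p = q := by
  funext i
  have := congrFun h i
  unfold toReal at this
  exact_mod_cast this

lemma AxisParallel.symm {p q : GridPoint} (h : AxisParallel p q) : AxisParallel q p := by
  obtain ⟨d, hd⟩ := h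
  exact ⟨d, fun i hi => (hd i hi).symm⟩

lemma path_mem {p q r g : GridPoint} (h : AxisParallel p q) (h' : AxisParallel q r)
    (hg : OnP p q r g) : toReal g ∈ path p q r := by
  rcases hg with hg | hg
  · exact Or.inl (seg_mem h hg)
  · exact Or.inr (seg_mem h' hg)

/-- the integral data of a drawing -/
noncomputable def Drawing.core {n : ℕ} (D : Drawing n) {a b : GridPoint} (hab : D.Within a b) : Core (Fin n) where
  lo := D.lo
  hi := D.hi
  p := D.endpt
  q := D.bend
  B := Finset.Icc a b
  lohi := fun v i => D.lo_le_hi v i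
  disj := by
    intro u v huv g h1 h2
    exact Set.disjoint_left.1 (D.boxes_disjoint u v huv) (mem_box.2 h1) (mem_box.2 h2)
  qc := D.bend_comm
  pm := fun u v huv i => ⟨(D.endpt_mem u v huv).1 i, (D.endpt_mem u v huv).2 i⟩
  ax := D.axis_parallel
  rb := by
    intro u v w huv g hg hw
    have h2 : AxisParallel (D.bend u v) (D.endpt v u) := by
      have := (D.axis_parallel v u huv.symm).symm
      rwa [D.bend_comm v u] at this
    have := D.route_inter_box u v w huv ⟨path_mem (D.axis_parallel u v huv) h2 hg, mem_box.2 hw⟩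
    rcases this with h | h
    · left; exact toReal_inj h
    · right; exact toReal_inj h
  rr := by
    intro u v u' v' huv huv' hne g hg hg'
    have h2 : AxisParallel (D.bend u v) (D.endpt v u) := by
      have := (D.axis_parallel v u huv.symm).symm
      rwa [D.bend_comm v u] at this
    have h2' : AxisParallel (D.bend u' v') (D.endpt v' u') := by
      have := (D.axis_parallel v' u' huv'.symm).symm
      rwa [D.bend_comm v' u'] at this
    exact Set.disjoint_left.1 (D.routes_disjoint u v u' v' huv huv' hne)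
      (path_mem (D.axis_parallel u v huv) h2 hg) (path_mem (D.axis_parallel u' v' huv') h2' hg')
  inB := by
    intro u v huv g hg
    have h2 : AxisParallel (D.bend u v) (D.endpt v u) := by
      have := (D.axis_parallel v u huv.symm).symm
      rwa [D.bend_comm v u] at this
    have := hab.2 u v huv (path_mem (D.axis_parallel u v huv) h2 hg)
    rw [mem_box] at this
    rw [Finset.mem_Icc, Pi.le_def, Pi.le_def]
    exact ⟨fun i => (this i).1, fun i => (this i).2⟩

lemma card_Icc_eq (a b : GridPoint) : (Finset.Icc a b).card = gridVolume a b := by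
  unfold gridVolume
  rw [Pi.card_Icc]
  apply Finset.prod_congr rfl
  intro i _
  rw [Int.card_Icc]
  congr 1
  ring

lemma volume_pos {a b : GridPoint} (h : a ≤ b) : 1 ≤ gridVolume a b := by
  rw [← card_Icc_eq]
  exact card_pos.2 ⟨a, Finset.mem_Icc.2 ⟨le_rfl, h⟩⟩

/-- the lower bound for one drawing -/
theorem lower {n : ℕ} (D : Drawing n) {a b : GridPoint} (h : a ≤ b) (hab : D.Within a b) :
    (n : ℝ) ^ 3 ≤ 10 ^ 12 * (gridVolume a b : ℝ) := by
  have h1 := volume_pos h
  have h1' : (1 : ℝ) ≤ gridVolume a b := by exact_mod_cast h1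
  rcases Nat.lt_or_ge n 10000 with hn | hn
  · have h2 : (n : ℝ) ≤ 10000 := by exact_mod_cast hn.le
    calc (n : ℝ) ^ 3 ≤ 10000 ^ 3 := by gcongr
      _ = 10 ^ 12 * 1 := by norm_num
      _ ≤ _ := by gcongr
  · have h2 := (D.core hab).bound (s := (n - 6) / 768) (by rw [Fintype.card_fin]; omega)
    have h3 : (D.core hab).B.card = gridVolume a b := card_Icc_eq a b
    rw [h3] at h2
    have h4 : n ≤ 1536 * ((n - 6) / 768) := by omega
    have h4' : (n : ℝ) ≤ 1536 * (((n - 6) / 768 : ℕ) : ℝ) := by exact_mod_cast h4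
    have h2' : (((n - 6) / 768 : ℕ) : ℝ) ^ 3 ≤ 64 * (gridVolume a b : ℝ) := by exact_mod_cast h2
    calc (n : ℝ) ^ 3 ≤ (1536 * (((n - 6) / 768 : ℕ) : ℝ)) ^ 3 := by gcongr
      _ = 1536 ^ 3 * (((n - 6) / 768 : ℕ) : ℝ) ^ 3 := by ring
      _ ≤ 1536 ^ 3 * (64 * (gridVolume a b : ℝ)) := by gcongr
      _ ≤ 10 ^ 12 * (gridVolume a b : ℝ) := by nlinarith

/-! ### The upper bound -/

lemma seg_coord {p q : GridPoint} {z : Fin 3 → ℝ} (hz : z ∈ segment ℝ (toReal p) (toReal q))
    (i : Fin 3) : min (p i : ℝ) (q i) ≤ z i ∧ z i ≤ max (p i : ℝ) (q i) := by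
  obtain ⟨s, t, hs, ht, hst, rfl⟩ := hz
  simp only [Pi.add_apply, Pi.smul_apply, smul_eq_mul, toReal]
  have hs' : s = 1 - t := by linarith
  subst hs'
  have h1 : min (p i : ℝ) (q i) ≤ p i := min_le_left _ _
  have h2 : min (p i : ℝ) (q i) ≤ q i := min_le_right _ _
  have h3 : (p i : ℝ) ≤ max (p i : ℝ) (q i) := le_max_left _ _
  have h4 : (q i : ℝ) ≤ max (p i : ℝ) (q i) := le_max_right _ _
  constructor <;> nlinarith

def dLo (n : ℕ) (v : Fin n) : GridPoint := ![(v : ℤ), (v : ℤ), 0]
def dHi (n : ℕ) (v : Fin n) : GridPoint := ![(v : ℤ), (v : ℤ), 2 * n]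
def dEnd (n : ℕ) (u v : Fin n) : GridPoint := ![(u : ℤ), (u : ℤ), (u : ℤ) + v]
def dBend (n : ℕ) (u v : Fin n) : GridPoint :=
  ![max (u : ℤ) v, min (u : ℤ) v, (u : ℤ) + v]

lemma path_coord {n : ℕ} {u v : Fin n} (huv : u ≠ v) {z : Fin 3 → ℝ}
    (hz : z ∈ path (dEnd n u v) (dBend n u v) (dEnd n v u)) :
    z 2 = (u : ℝ) + v ∧
    ((z 1 = min (u : ℝ) v ∧ min (u : ℝ) v ≤ z 0 ∧ z 0 ≤ max (u : ℝ) v) ∨
      (z 0 = max (u : ℝ) v ∧ min (u : ℝ) v ≤ z 1 ∧ z 1 ≤ max (u : ℝ) v)) := by
  have hne : (u : ℕ) ≠ v := fun h => huv (Fin.ext h)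
  rcases hz with hz | hz
  · have h0 := seg_coord hz 0
    have h1 := seg_coord hz 1
    have h2 := seg_coord hz 2
    simp only [dEnd, dBend, Matrix.cons_val_zero, Matrix.cons_val_one, Matrix.cons_val,
      Int.cast_natCast, Int.cast_max, Int.cast_min, Int.cast_add] at h0 h1 h2
    rcases lt_or_gt_of_ne hne with h | h
    · have h' : (u : ℝ) < v := by exact_mod_cast h
      rw [max_eq_right h'.le, min_eq_left h'.le] at *
      simp only [min_self, max_self] at *
      refine ⟨by linarith, Or.inl ⟨by linarith, ?_, ?_⟩⟩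
      · exact h0.1
      · rw [max_eq_right h'.le] at h0; exact h0.2
    · have h' : (v : ℝ) < u := by exact_mod_cast h
      rw [max_eq_left h'.le, min_eq_right h'.le] at *
      simp only [min_self, max_self] at *
      refine ⟨by linarith, Or.inr ⟨by linarith, ?_, ?_⟩⟩
      · rw [min_eq_right h'.le] at h1; exact h1.1
      · rw [max_eq_left h'.le] at h1; exact h1.2
  · have h0 := seg_coord hz 0
    have h1 := seg_coord hz 1
    have h2 := seg_coord hz 2
    simp only [dEnd, dBend, Matrix.cons_val_zero, Matrix.cons_val_one, Matrix.cons_val,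
      Int.cast_natCast, Int.cast_max, Int.cast_min, Int.cast_add] at h0 h1 h2
    rw [add_comm (v : ℝ) u] at h2
    rcases lt_or_gt_of_ne hne with h | h
    · have h' : (u : ℝ) < v := by exact_mod_cast h
      rw [max_eq_right h'.le, min_eq_left h'.le] at *
      simp only [min_self, max_self] at *
      refine ⟨by linarith, Or.inr ⟨by linarith, ?_, ?_⟩⟩
      · rw [min_eq_left h'.le] at h1; exact h1.1
      · rw [max_eq_right h'.le] at h1; exact h1.2
    · have h' : (v : ℝ) < u := by exact_mod_cast h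
      rw [max_eq_left h'.le, min_eq_right h'.le] at *
      simp only [min_self, max_self] at *
      refine ⟨by linarith, Or.inl ⟨by linarith, ?_, ?_⟩⟩
      · exact h0.1
      · rw [max_eq_left h'.le] at h0; exact h0.2

lemma box_coord {n : ℕ} {w : Fin n} {z : Fin 3 → ℝ} (hz : z ∈ box (dLo n w) (dHi n w)) :
    z 0 = w ∧ z 1 = w ∧ 0 ≤ z 2 ∧ z 2 ≤ 2 * n := by
  unfold box at hz
  rw [Set.mem_Icc, Pi.le_def, Pi.le_def] at hz
  obtain ⟨h1, h2⟩ := hz
  have a0 := h1 0
  have a1 := h1 1
  have a2 := h1 2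
  have b0 := h2 0
  have b1 := h2 1
  have b2 := h2 2
  simp only [toReal, dLo, dHi, Matrix.cons_val_zero, Matrix.cons_val_one, Matrix.cons_val,
    Int.cast_natCast, Int.cast_mul, Int.cast_ofNat, Int.cast_zero] at a0 a1 a2 b0 b1 b2
  exact ⟨by linarith, by linarith, a2, b2⟩

/-- the drawing of Biedl et al. -/
def stdDrawing (n : ℕ) : Drawing n where
  lo := dLo n
  hi := dHi n
  endpt := dEnd n
  bend := dBend n
  lo_le_hi := by
    intro v i
    fin_cases i <;> simp [dLo, dHi]
  boxes_disjoint := by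
    intro u v huv
    rw [Set.disjoint_left]
    intro z h1 h2
    have e1 := (box_coord h1).1
    have e2 := (box_coord h2).1
    apply huv
    apply Fin.ext
    have : (u : ℝ) = v := by linarith
    exact_mod_cast this
  bend_comm := by
    intro u v
    unfold dBend
    rw [max_comm, min_comm, add_comm]
  endpt_mem := by
    intro u v _
    constructor
    · intro i
      fin_cases i <;> simp [dLo, dEnd]
      positivity
    · intro i
      fin_cases i <;> simp [dHi, dEnd]
      omega
  endpt_surface := by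
    intro u v _
    exact ⟨0, Or.inl (by simp [dLo, dEnd])⟩
  axis_parallel := by
    intro u v huv
    rcases le_total (u : ℤ) v with h | h
    · refine ⟨0, fun i hi => ?_⟩
      fin_cases i
      · exact absurd rfl hi
      · simp only [dEnd, dBend, Fin.mk_one, Matrix.cons_val_one, Matrix.cons_val_zero]
        rw [min_eq_left h]
      · simp [dEnd, dBend]
    · refine ⟨1, fun i hi => ?_⟩
      fin_cases i
      · simp only [dEnd, dBend, Fin.zero_eta, Matrix.cons_val_zero]
        rw [max_eq_left h]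
      · exact absurd rfl hi
      · simp [dEnd, dBend]
  route_inter_box := by
    intro u v w huv z ⟨h1, h2⟩
    obtain ⟨e1, e2, e3, e4⟩ := box_coord h2
    obtain ⟨f1, f2⟩ := path_coord huv h1
    have hz : z 0 = z 1 := by rw [e1, e2]
    have key : (z 0 = u ∧ z 1 = u) ∨ (z 0 = v ∧ z 1 = v) := by
      rcases le_total (u : ℝ) v with h | h
      · rw [max_eq_right h, min_eq_left h] at f2
        rcases f2 with ⟨f2, _⟩ | ⟨f2, _⟩
        · left; exact ⟨by rw [hz]; exact f2, f2⟩
        · right; exact ⟨f2, by rw [← hz]; exact f2⟩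
      · rw [max_eq_left h, min_eq_right h] at f2
        rcases f2 with ⟨f2, _⟩ | ⟨f2, _⟩
        · right; exact ⟨by rw [hz]; exact f2, f2⟩
        · left; exact ⟨f2, by rw [← hz]; exact f2⟩
    rcases key with ⟨k1, k2⟩ | ⟨k1, k2⟩
    · left
      funext i
      fin_cases i
      · simpa [toReal, dEnd] using k1
      · simpa [toReal, dEnd] using k2
      · simpa [toReal, dEnd] using f1
    · right
      rw [Set.mem_singleton_iff]
      funext i
      fin_cases i
      · simpa [toReal, dEnd] using k1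
      · simpa [toReal, dEnd] using k2
      · have : z 2 = (v : ℝ) + u := by rw [f1, add_comm]
        simpa [toReal, dEnd] using this
  routes_disjoint := by
    intro u v u' v' huv huv' hne
    rw [Set.disjoint_left]
    intro z h1 h2
    obtain ⟨f1, f2⟩ := path_coord huv h1
    obtain ⟨g1, g2⟩ := path_coord huv' h2
    have hs : (u : ℝ) + v = u' + v' := by linarith
    have m1 := min_add_max (u : ℝ) v
    have m2 := min_add_max (u' : ℝ) v'
    have l1 : min (u : ℝ) v ≤ max (u : ℝ) v := min_le_max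
    have l2 : min (u' : ℝ) v' ≤ max (u' : ℝ) v' := min_le_max
    have hmin : min (u : ℝ) v ≠ min (u' : ℝ) v' := by
      intro h
      have h' : max (u : ℝ) v = max (u' : ℝ) v' := by linarith
      apply hne
      rw [Sym2.eq_iff]
      have hnat : ∀ x y : Fin n, (x : ℝ) = y → x = y := fun x y hxy => by
        apply Fin.ext
        exact_mod_cast hxy
      rcases le_total (u : ℝ) v with a1 | a1 <;> rcases le_total (u' : ℝ) v' with a2 | a2
      · rw [min_eq_left a1, min_eq_left a2] at h
        rw [max_eq_right a1, max_eq_right a2] at h'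
        exact Or.inl ⟨hnat _ _ h, hnat _ _ h'⟩
      · rw [min_eq_left a1, min_eq_right a2] at h
        rw [max_eq_right a1, max_eq_left a2] at h'
        exact Or.inr ⟨hnat _ _ h, hnat _ _ h'⟩
      · rw [min_eq_right a1, min_eq_left a2] at h
        rw [max_eq_left a1, max_eq_right a2] at h'
        exact Or.inr ⟨hnat _ _ h', hnat _ _ h⟩
      · rw [min_eq_right a1, min_eq_right a2] at h
        rw [max_eq_left a1, max_eq_left a2] at h'
        exact Or.inl ⟨hnat _ _ h', hnat _ _ h⟩
    rcases lt_or_gt_of_ne hmin with h | h <;>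
    rcases f2 with ⟨a1, a2, a3⟩ | ⟨a1, a2, a3⟩ <;>
    rcases g2 with ⟨b1, b2, b3⟩ | ⟨b1, b2, b3⟩ <;> linarith

lemma std_within {n : ℕ} : (stdDrawing n).Within ![0, 0, 0] ![n, n, 2 * n] := by
  constructor
  · intro v z hz
    obtain ⟨e1, e2, e3, e4⟩ := box_coord hz
    have hv : (v : ℝ) ≤ n := by exact_mod_cast v.2.le
    have hv0 : (0 : ℝ) ≤ v := by positivity
    unfold box
    rw [Set.mem_Icc, Pi.le_def, Pi.le_def]
    constructor
    · intro i
      fin_cases i <;> simp [toReal] <;> linarith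
    · intro i
      fin_cases i <;> simp [toReal] <;> linarith
  · intro u v huv z hz
    obtain ⟨f1, f2⟩ := path_coord huv hz
    have hu : (u : ℝ) ≤ n := by exact_mod_cast u.2.le
    have hu0 : (0 : ℝ) ≤ u := by positivity
    have hv : (v : ℝ) ≤ n := by exact_mod_cast v.2.le
    have hv0 : (0 : ℝ) ≤ v := by positivity
    have m1 : max (u : ℝ) v ≤ n := max_le hu hv
    have m2 : 0 ≤ min (u : ℝ) v := le_min hu0 hv0
    have m3 : min (u : ℝ) v ≤ max (u : ℝ) v := min_le_max
    unfold box
    rw [Set.mem_Icc, Pi.le_def, Pi.le_def]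
    constructor
    · intro i
      fin_cases i <;> simp [toReal] <;> rcases f2 with ⟨a1, a2, a3⟩ | ⟨a1, a2, a3⟩ <;> linarith
    · intro i
      fin_cases i <;> simp [toReal] <;> rcases f2 with ⟨a1, a2, a3⟩ | ⟨a1, a2, a3⟩ <;> linarith

lemma std_volume (n : ℕ) : gridVolume ![0, 0, 0] ![n, n, 2 * n] = (n + 1) * (n + 1) * (2 * n + 1) := by
  unfold gridVolume
  rw [Fin.prod_univ_three]
  simp only [Matrix.cons_val_zero, Matrix.cons_val_one, Matrix.cons_val, sub_zero]
  have h1 : ((n : ℤ) + 1).toNat = n + 1 := by omega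
  have h2 : ((2 * n : ℤ) + 1).toNat = 2 * n + 1 := by omega
  rw [h1, h2]

/-- **`V₁(n) = Θ(n³)`** -/
theorem theta (n : ℕ) (hn : 1 ≤ n) :
    (1 / 10 ^ 12 : ℝ) * (n : ℝ) ^ 3 ≤ V₁ n ∧ (V₁ n : ℝ) ≤ 12 * (n : ℝ) ^ 3 := by
  have hmem : gridVolume ![0, 0, 0] ![n, n, 2 * n] ∈
      {V | ∃ (D : Drawing n) (a b : GridPoint), a ≤ b ∧ D.Within a b ∧ V = gridVolume a b} := by
    refine ⟨stdDrawing n, _, _, ?_, std_within, rfl⟩
    intro i
    fin_cases i <;> simp
  constructor
  · obtain ⟨D, a, b, h, hab, hV⟩ := Nat.sInf_mem ⟨_, hmem⟩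
    have h1 := lower D h hab
    have h2 : V₁ n = gridVolume a b := hV
    rw [h2]
    linarith
  · have h1 : V₁ n ≤ (n + 1) * (n + 1) * (2 * n + 1) := by
      rw [← std_volume]
      exact Nat.sInf_le hmem
    have h2 : (V₁ n : ℝ) ≤ (n + 1) * (n + 1) * (2 * n + 1) := by exact_mod_cast h1
    have h3 : (1 : ℝ) ≤ n := by exact_mod_cast hn
    have h4 : ((n : ℝ) + 1) * (n + 1) * (2 * n + 1) ≤ (2 * n) * (2 * n) * (3 * n) := by
      gcongr <;> linarith
    calc (V₁ n : ℝ) ≤ _ := h2
      _ ≤ _ := h4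
      _ = _ := by ring

end Pool.Agent.L5helper35.Box
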