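import Mathlib
import Pool.Agent.R64.EGdeg

/-!
# The edge imbalances of a graph without edges of imbalance zero form a graphic multiset
-/

set_option autoImplicit false

namespace Pool.Agent.L5helper35.Imb

open Finset Classical

variable {V : Type*} [Fintype V] (G : SimpleGraph V)

/-- the imbalance of an edge -/
noncomputable def imb : Sym2 V → ℕ :=
  Sym2.lift ⟨fun u v => ((G.degree u : ℤ) - G.degree v).natAbs, fun u v => by
    show ((G.degree u : ℤ) - G.degree v).natAbs = ((G.degree v : ℤ) - G.degree u).natAbs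
    omega⟩

@[simp] lemma imb_mk (u v : V) : imb G s(u, v) = ((G.degree u : ℤ) - G.degree v).natAbs := rfl

/-- arithmetic of the main inequality -/
lemma arith (k s r r2 d : ℤ) (hs : 1 ≤ s) (hk : s ≤ k) (hd : k < d) (hr : 0 ≤ r) (hr2 : 0 ≤ r2)
    (h : r + r2 + s = d) :
    2 * k * (d - k) ≤ 2 * k * r2 + 2 * r * (d - 1) - r * (r - 1) - 2 * (k - s) := by
  obtain ⟨j, rfl⟩ : ∃ j, k = s + j := ⟨k - s, by ring⟩
  obtain ⟨b, rfl⟩ : ∃ b, d = s + j + b := ⟨d - (s + j), by ring⟩
  have hj : 0 ≤ j := by linarith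
  have hb : 1 ≤ b := by linarith
  have hr2' : r2 = j + b - r := by linarith
  subst hr2'
  have key : 2 * (s + j) * (j + b - r) + 2 * r * (s + j + b - 1) - r * (r - 1) - 2 * (s + j - s) -
      2 * (s + j) * (s + j + b - (s + j)) = 2 * (s + j - 1) * j + r * (2 * b - 1 - r) := by ring
  have h2 : 0 ≤ 2 * (s + j - 1) * j + r * (2 * b - 1 - r) := by
    rcases le_or_gt r (2 * b - 1) with h3 | h3
    · have h4 : 0 ≤ r * (2 * b - 1 - r) := mul_nonneg hr (by linarith)
      have h5 : 0 ≤ 2 * (s + j - 1) * j := mul_nonneg (by linarith) hj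
      linarith
    · -- `r ≥ 2 b`, `r ≤ j + b`
      have h4 : r ≤ j + b := by linarith
      have h5 : (j + b) * (2 * b - 1 - (j + b)) ≤ r * (2 * b - 1 - r) := by
        nlinarith [mul_nonneg (by linarith : 0 ≤ j + b - r) (by linarith : 0 ≤ j + b + r - (2 * b - 1))]
      have h6 : 0 ≤ 2 * (s + j - 1) * j + (j + b) * (2 * b - 1 - (j + b)) := by
        have h7 : 2 * (s + j - 1) * j + (j + b) * (2 * b - 1 - (j + b)) =
            2 * (s - 1) * j + j * (j - 1) + b * (b - 1) := by ring
        rw [h7]
        have h8 : 0 ≤ j * (j - 1) := by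
          rcases hj.eq_or_lt with h9 | h9
          · rw [← h9]; simp
          · exact mul_nonneg hj (by linarith [Int.add_one_le_iff.2 h9])
        have h9 : 0 ≤ 2 * (s - 1) * j := mul_nonneg (by linarith) hj
        have h10 : 0 ≤ b * (b - 1) := mul_nonneg (by linarith) (by linarith)
        linarith
      linarith
  linarith

variable {G}

lemma mem_edge {u v : V} : s(u, v) ∈ G.edgeFinset ↔ G.Adj u v := by simp

/-- edges at `w` -/
lemma card_at (w : V) : (G.edgeFinset.filter (fun e => w ∈ e)).card = G.degree w := by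
  rw [← G.card_incidenceFinset_eq_degree w]
  congr 1
  ext e
  simp [SimpleGraph.mem_incidenceFinset, SimpleGraph.incidenceSet]

/-- the number of edges meeting a set `R` and avoiding `u` -/
lemma meet_card (u : V) (R : Finset V) (hR : ∀ w ∈ R, G.Adj u w) :
    2 * ∑ w ∈ R, ((G.degree w : ℤ) - 1) - R.card * (R.card - 1) ≤
      2 * ((G.edgeFinset.filter (fun e => u ∉ e ∧ ∃ w ∈ R, w ∈ e)).card : ℤ) := by
  set E0 := G.edgeFinset.filter (fun e => u ∉ e) with hE0
  have h1 : ∀ w ∈ R, ((E0.filter (fun e => w ∈ e)).card : ℤ) = (G.degree w : ℤ) - 1 := by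
    intro w hw
    have huw : G.Adj u w := hR w hw
    have h2 : G.edgeFinset.filter (fun e => w ∈ e) =
        insert s(u, w) (E0.filter (fun e => w ∈ e)) := by
      ext e
      simp only [mem_filter, mem_insert, hE0]
      constructor
      · rintro ⟨he, hwe⟩
        by_cases hu : u ∈ e
        · left
          exact (Sym2.mem_and_mem_iff huw.ne).1 ⟨hu, hwe⟩
        · right
          exact ⟨⟨he, hu⟩, hwe⟩
      · rintro (rfl | ⟨⟨he, hu⟩, hwe⟩)
        · exact ⟨mem_edge.2 huw, by simp⟩
        · exact ⟨he, hwe⟩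
    have h3 : s(u, w) ∉ E0.filter (fun e => w ∈ e) := by
      simp [hE0]
    have h4 := card_at (G := G) w
    rw [h2, card_insert_of_notMem h3] at h4
    have : (G.degree w : ℤ) = (E0.filter (fun e => w ∈ e)).card + 1 := by exact_mod_cast h4.symm
    linarith
  have h2 : ∑ w ∈ R, ((G.degree w : ℤ) - 1) = ∑ e ∈ E0, ((R.filter (fun w => w ∈ e)).card : ℤ) := by
    rw [← sum_congr rfl h1]
    have : ∑ w ∈ R, (E0.filter (fun e => w ∈ e)).card = ∑ e ∈ E0, (R.filter (fun w => w ∈ e)).card := by
      simp only [card_filter]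
      rw [sum_comm]
    exact_mod_cast this
  have h3 : ∑ e ∈ E0, ((R.offDiag.filter (fun p => s(p.1, p.2) = e)).card : ℤ) ≤
      R.card * (R.card - 1) := by
    have h4 : ∑ e ∈ E0, (R.offDiag.filter (fun p => s(p.1, p.2) = e)).card ≤ R.offDiag.card := by
      rw [← card_biUnion]
      · apply card_le_card
        intro p hp
        rw [mem_biUnion] at hp
        obtain ⟨e, _, hp⟩ := hp
        exact (mem_filter.1 hp).1
      · intro e _ e' _ hne
        rw [Function.onFun, disjoint_left]
        intro p hp hp'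
        exact hne ((mem_filter.1 hp).2.symm.trans (mem_filter.1 hp').2)
    rw [offDiag_card] at h4
    have h5 : ((R.card * R.card - R.card : ℕ) : ℤ) = R.card * (R.card - 1) := by
      rw [Nat.cast_sub (Nat.le_mul_self _)]
      push_cast
      ring
    rw [← h5]
    exact_mod_cast h4
  have h4 : ∀ e ∈ E0, 2 * ((R.filter (fun w => w ∈ e)).card : ℤ) -
      ((R.offDiag.filter (fun p => s(p.1, p.2) = e)).card : ℤ) ≤
      2 * (if ∃ w ∈ R, w ∈ e then 1 else 0 : ℤ) := by
    intro e he
    induction e using Sym2.ind with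
    | _ a b =>
      have hab : G.Adj a b := mem_edge.1 (mem_filter.1 he).1
      have hne := hab.ne
      by_cases ha : a ∈ R <;> by_cases hb : b ∈ R
      · have e1 : R.filter (fun w => w ∈ s(a, b)) = {a, b} := by
          ext w
          simp only [mem_filter, Sym2.mem_iff, mem_insert, mem_singleton]
          constructor
          · exact fun h => h.2
          · rintro (rfl | rfl)
            · exact ⟨ha, Or.inl rfl⟩
            · exact ⟨hb, Or.inr rfl⟩
        have e2 : R.offDiag.filter (fun p => s(p.1, p.2) = s(a, b)) = {(a, b), (b, a)} := by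
          ext ⟨x, y⟩
          simp only [mem_filter, mem_offDiag, Sym2.eq_iff, mem_insert, mem_singleton, Prod.mk.injEq]
          constructor
          · exact fun h => h.2
          · rintro (⟨rfl, rfl⟩ | ⟨rfl, rfl⟩)
            · exact ⟨⟨ha, hb, hne⟩, Or.inl ⟨rfl, rfl⟩⟩
            · exact ⟨⟨hb, ha, hne.symm⟩, Or.inr ⟨rfl, rfl⟩⟩
        rw [e1, e2, card_pair hne, card_pair (by simp [hne]), if_pos ⟨a, ha, by simp⟩]
        norm_num
      · have e1 : R.filter (fun w => w ∈ s(a, b)) = {a} := by
          ext w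
          simp only [mem_filter, Sym2.mem_iff, mem_singleton]
          constructor
          · rintro ⟨hw, rfl | rfl⟩
            · rfl
            · exact absurd hw hb
          · rintro rfl
            exact ⟨ha, Or.inl rfl⟩
        rw [e1, card_singleton, if_pos ⟨a, ha, by simp⟩]
        have : (0 : ℤ) ≤ ((R.offDiag.filter (fun p => s(p.1, p.2) = s(a, b))).card : ℤ) := by positivity
        push_cast
        linarith
      · have e1 : R.filter (fun w => w ∈ s(a, b)) = {b} := by
          ext w
          simp only [mem_filter, Sym2.mem_iff, mem_singleton]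
          constructor
          · rintro ⟨hw, rfl | rfl⟩
            · exact absurd hw ha
            · rfl
          · rintro rfl
            exact ⟨hb, Or.inr rfl⟩
        rw [e1, card_singleton, if_pos ⟨b, hb, by simp⟩]
        have : (0 : ℤ) ≤ ((R.offDiag.filter (fun p => s(p.1, p.2) = s(a, b))).card : ℤ) := by positivity
        push_cast
        linarith
      · have e1 : R.filter (fun w => w ∈ s(a, b)) = ∅ := by
          ext w
          simp only [mem_filter, Sym2.mem_iff, notMem_empty, iff_false, not_and, not_or]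
          intro hw
          exact ⟨fun h => ha (h ▸ hw), fun h => hb (h ▸ hw)⟩
        rw [e1, card_empty]
        have : (0 : ℤ) ≤ ((R.offDiag.filter (fun p => s(p.1, p.2) = s(a, b))).card : ℤ) := by positivity
        split_ifs <;> push_cast <;> linarith
  have h5 := sum_le_sum h4
  rw [sum_sub_distrib, ← mul_sum, ← mul_sum, ← h2] at h5
  have h6 : (∑ e ∈ E0, (if ∃ w ∈ R, w ∈ e then 1 else 0 : ℤ)) =
      ((G.edgeFinset.filter (fun e => u ∉ e ∧ ∃ w ∈ R, w ∈ e)).card : ℤ) := by
    rw [card_filter, Nat.cast_sum, hE0, sum_filter]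
    apply sum_congr rfl
    intro e _
    by_cases h7 : u ∈ e <;> simp [h7]
  rw [h6] at h5
  linarith

/-- an edge of positive imbalance has an endpoint of degree larger than the imbalance -/
lemma exists_high {e : Sym2 V} (he : e ∈ G.edgeFinset) :
    ∃ u ∈ e, imb G e + 1 ≤ G.degree u := by
  induction e using Sym2.ind with
  | _ a b =>
    have hab : G.Adj a b := mem_edge.1 he
    have ha : 0 < G.degree a := (G.degree_pos_iff_exists_adj a).2 ⟨b, hab⟩
    have hb : 0 < G.degree b := (G.degree_pos_iff_exists_adj b).2 ⟨a, hab.symm⟩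
    rcases le_total (G.degree a) (G.degree b) with h | h
    · refine ⟨b, by simp, ?_⟩
      rw [imb_mk]
      omega
    · refine ⟨a, by simp, ?_⟩
      rw [imb_mk]
      omega

/-- the Erdős–Gallai inequality for the imbalances -/
theorem main_ineq (hpos : ∀ e ∈ G.edgeFinset, 0 < imb G e) (S : Finset (Sym2 V))
    (hS : S ⊆ G.edgeFinset) :
    ∑ e ∈ S, imb G e + S.card ≤ S.card * S.card + ∑ e ∈ G.edgeFinset \ S, min (imb G e) S.card := by
  rcases S.eq_empty_or_nonempty with rfl | hne
  · simp
  set k := S.card with hk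
  have hk0 : 0 < k := card_pos.2 hne
  have hV : Nonempty V := by
    obtain ⟨e, _⟩ := hne
    induction e using Sym2.ind with
    | _ a b => exact ⟨a⟩
  choose! f hf hf1 using fun e (he : e ∈ G.edgeFinset) => exists_high (G := G) he
  obtain ⟨e0, he0, hmax⟩ := exists_max_image S (fun e => G.degree (f e)) hne
  set u := f e0 with hu
  set d := G.degree u with hd
  have hue0 : u ∈ e0 := hf e0 (hS he0)
  have hsum : ∑ e ∈ S, imb G e + k ≤ k * d := by
    have : ∑ e ∈ S, (imb G e + 1) ≤ ∑ e ∈ S, d :=
      sum_le_sum fun e he => (hf1 e (hS he)).trans (hmax e he)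
    rw [sum_add_distrib, sum_const, sum_const, smul_eq_mul, smul_eq_mul, mul_one] at this
    exact this
  by_cases hdk : d ≤ k
  · calc _ ≤ k * d := hsum
      _ ≤ k * k := Nat.mul_le_mul_left _ hdk
      _ ≤ _ := Nat.le_add_right _ _
  push Not at hdk
  -- neighbours of `u` by edges outside `S`
  set N := (G.neighborFinset u).filter (fun w => s(u, w) ∉ S) with hN
  set R := N.filter (fun w => imb G s(u, w) < k) with hR
  set R2 := N.filter (fun w => ¬ imb G s(u, w) < k) with hR2
  set Su := S.filter (fun e => u ∈ e) with hSu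
  have hs1 : 1 ≤ Su.card := card_pos.2 ⟨e0, mem_filter.2 ⟨he0, hue0⟩⟩
  have hsk : Su.card ≤ k := card_le_card (filter_subset _ _)
  have hNcard : R.card + R2.card + Su.card = d := by
    rw [hR, hR2, card_filter_add_card_filter_not]
    have h1 : ((G.neighborFinset u).filter (fun w => ¬ s(u, w) ∉ S)).card = Su.card := by
      apply card_bij (fun w _ => s(u, w))
      · intro w hw
        rw [mem_filter] at hw
        exact mem_filter.2 ⟨not_not.1 hw.2, by simp⟩
      · intro w _ w' _ h
        exact Sym2.congr_right.1 h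
      · intro e he
        rw [mem_filter] at he
        obtain ⟨w, rfl⟩ := he.2
        refine ⟨w, ?_, rfl⟩
        rw [mem_filter, SimpleGraph.mem_neighborFinset]
        exact ⟨mem_edge.1 (hS he.1), not_not.2 he.1⟩
    rw [← h1, hN, card_filter_add_card_filter_not, SimpleGraph.card_neighborFinset_eq_degree]
  have hRadj : ∀ w ∈ R, G.Adj u w := fun w hw => by
    have := (mem_filter.1 (mem_filter.1 hw).1).1
    rwa [SimpleGraph.mem_neighborFinset] at this
  have hmeet := meet_card (G := G) u R hRadj
  set E2 := G.edgeFinset.filter (fun e => u ∉ e ∧ ∃ w ∈ R, w ∈ e) with hE2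
  -- the two parts of the complement of `S`
  set T1 := N.image (fun w => s(u, w)) with hT1
  set T2 := E2 \ S with hT2
  have hT1sub : T1 ⊆ G.edgeFinset \ S := by
    intro e he
    obtain ⟨w, hw, rfl⟩ := mem_image.1 he
    rw [hN, mem_filter, SimpleGraph.mem_neighborFinset] at hw
    exact mem_sdiff.2 ⟨mem_edge.2 hw.1, hw.2⟩
  have hT2sub : T2 ⊆ G.edgeFinset \ S := by
    intro e he
    rw [hT2, mem_sdiff, hE2, mem_filter] at he
    exact mem_sdiff.2 ⟨he.1.1, he.2⟩
  have hdisj : Disjoint T1 T2 := by
    rw [disjoint_left]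
    intro e he he'
    obtain ⟨w, hw, rfl⟩ := mem_image.1 he
    rw [hT2, mem_sdiff, hE2, mem_filter] at he'
    exact he'.1.2.1 (by simp)
  have hsumT1 : (∑ e ∈ T1, (min (imb G e) k : ℤ)) =
      ∑ w ∈ R, (imb G s(u, w) : ℤ) + R2.card * k := by
    rw [hT1, sum_image (fun w _ w' _ h => Sym2.congr_right.1 h)]
    rw [← sum_filter_add_sum_filter_not N (fun w => imb G s(u, w) < k)]
    congr 1
    · apply sum_congr rfl
      intro w hw
      have := (mem_filter.1 hw).2
      have h2 : (imb G s(u, w) : ℤ) ≤ k := by exact_mod_cast this.le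
      rw [min_eq_left h2]
    · rw [← nsmul_eq_mul, ← sum_const]
      apply sum_congr rfl
      intro w hw
      have := (mem_filter.1 hw).2
      have h2 : (k : ℤ) ≤ imb G s(u, w) := by exact_mod_cast not_lt.1 this
      rw [min_eq_right h2]
  have hsumT2 : (T2.card : ℤ) ≤ ∑ e ∈ T2, (min (imb G e) k : ℤ) := by
    rw [card_eq_sum_ones, Nat.cast_sum]
    apply sum_le_sum
    intro e he
    have h1 := hpos e (mem_sdiff.1 (hT2sub he)).1
    have h2 : (1 : ℤ) ≤ imb G e := by exact_mod_cast h1
    have h3 : (1 : ℤ) ≤ k := by exact_mod_cast hk0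
    rw [Nat.cast_one]
    exact le_min h2 h3
  have hT2card : (E2.card : ℤ) - (k - Su.card) ≤ T2.card := by
    have h1 : E2.card ≤ T2.card + (S \ Su).card := by
      rw [hT2]
      have : E2 ⊆ (E2 \ S) ∪ (S \ Su) := by
        intro e he
        by_cases h : e ∈ S
        · apply mem_union_right
          rw [mem_sdiff]
          refine ⟨h, fun h' => ?_⟩
          rw [hE2, mem_filter] at he
          exact he.2.1 (mem_filter.1 h').2
        · exact mem_union_left _ (mem_sdiff.2 ⟨he, h⟩)
      exact (card_le_card this).trans (card_union_le _ _)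
    rw [card_sdiff_of_subset (filter_subset _ _)] at h1
    have h2 : ((S.card - Su.card : ℕ) : ℤ) = k - Su.card := by
      rw [Nat.cast_sub (card_le_card (filter_subset _ _))]
    have h3 : (E2.card : ℤ) ≤ T2.card + ((S.card - Su.card : ℕ) : ℤ) := by exact_mod_cast h1
    linarith
  have htot : (∑ e ∈ T1, (min (imb G e) k : ℤ)) + ∑ e ∈ T2, (min (imb G e) k : ℤ) ≤
      ∑ e ∈ G.edgeFinset \ S, (min (imb G e) k : ℤ) := by
    rw [← sum_union hdisj]
    apply sum_le_sum_of_subset_of_nonneg (union_subset hT1sub hT2sub)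
    intro e _ _
    positivity
  have hdeg : ∑ w ∈ R, ((d : ℤ) - 1) ≤ ∑ w ∈ R, (imb G s(u, w) : ℤ) + ∑ w ∈ R, ((G.degree w : ℤ) - 1) := by
    rw [← sum_add_distrib]
    apply sum_le_sum
    intro w _
    rw [imb_mk]
    omega
  rw [sum_const, nsmul_eq_mul] at hdeg
  have har := arith k Su.card R.card R2.card d (by exact_mod_cast hs1) (by exact_mod_cast hsk)
    (by exact_mod_cast hdk) (by positivity) (by positivity) (by exact_mod_cast hNcard)
  have hfin : (k : ℤ) * (d - k) ≤ ∑ e ∈ G.edgeFinset \ S, (min (imb G e) k : ℤ) := by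
    nlinarith [htot, hsumT1, hsumT2, hT2card, hmeet, hdeg, har]
  have hsum' : (∑ e ∈ S, (imb G e : ℤ)) + k ≤ k * d := by exact_mod_cast hsum
  have : (∑ e ∈ S, (imb G e : ℤ)) + k ≤ k * k + ∑ e ∈ G.edgeFinset \ S, (min (imb G e) k : ℤ) := by
    nlinarith
  exact_mod_cast this

/-- the sum of the imbalances is even -/
theorem even_sum : Even (∑ e ∈ G.edgeFinset, imb G e) := by
  have h1 : ∀ e ∈ G.edgeFinset, ((imb G e : ℤ) : ZMod 2) =
      ∑ v ∈ univ.filter (fun v => v ∈ e), ((G.degree v : ℤ) : ZMod 2) := by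
    intro e he
    induction e using Sym2.ind with
    | _ a b =>
      have hab : G.Adj a b := mem_edge.1 he
      have e1 : univ.filter (fun v => v ∈ s(a, b)) = {a, b} := by
        ext v
        simp
      rw [e1, sum_pair hab.ne, imb_mk, ← Int.cast_add]
      rw [ZMod.intCast_eq_intCast_iff_dvd_sub]
      omega
  have h2 : ((∑ e ∈ G.edgeFinset, imb G e : ℕ) : ZMod 2) = 0 := by
    have h3 : ((∑ e ∈ G.edgeFinset, imb G e : ℕ) : ZMod 2) =
        ∑ e ∈ G.edgeFinset, ((imb G e : ℤ) : ZMod 2) := by
      push_cast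
      rfl
    rw [h3, sum_congr rfl h1]
    simp only [sum_filter]
    rw [sum_comm]
    have h4 : ∀ v : V, ∑ e ∈ G.edgeFinset, (if v ∈ e then ((G.degree v : ℤ) : ZMod 2) else 0) =
        ((G.degree v : ℕ) : ZMod 2) := by
      intro v
      rw [← sum_filter, sum_const, card_at, nsmul_eq_mul]
      have h5 : ∀ x : ZMod 2, x * x = x := by decide
      have h6 := h5 ((G.degree v : ℕ) : ZMod 2)
      push_cast
      exact h6
    rw [sum_congr rfl fun v _ => h4 v, ← Nat.cast_sum, G.sum_degrees_eq_twice_card_edges]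
    push_cast
    have : (2 : ZMod 2) = 0 := by decide
    rw [this, zero_mul]
  rw [ZMod.natCast_eq_zero_iff_even] at h2
  exact h2

/-- a multiset satisfying the Erdős–Gallai inequalities for all subsets is graphic; here for the
values of a function on a finite set -/
theorem graphic_of_ineq {α : Type*} [DecidableEq α] (E : Finset α) (f : α → ℕ) (hev : Even (∑ e ∈ E, f e))
    (h : ∀ S ⊆ E, ∑ e ∈ S, f e + S.card ≤ S.card * S.card + ∑ e ∈ E \ S, min (f e) S.card) :
    ∃ H : SimpleGraph (Fin E.card), (univ : Finset (Fin E.card)).val.map (fun v => H.degree v) =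
      E.val.map f := by
  set m := E.card with hm
  let φ : Fin m ≃ E := E.equivFin.symm
  let g : Fin m → ℕᵒᵈ := fun i => OrderDual.toDual (f (φ i))
  let σ := Tuple.sort g
  let b : Fin m → ℕ := fun i => f (φ (σ i))
  have hb : Antitone b := by
    intro i j hij
    exact Tuple.monotone_sort g hij
  let ψ : Fin m ↪ α := ⟨fun i => (φ (σ i) : α), fun i j hij => σ.injective (φ.injective (Subtype.ext hij))⟩
  have hmap : (univ : Finset (Fin m)).map ψ = E := by
    ext x
    simp only [mem_map, mem_univ, true_and]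
    constructor
    · rintro ⟨i, rfl⟩
      exact (φ (σ i)).2
    · intro hx
      refine ⟨σ.symm (φ.symm ⟨x, hx⟩), ?_⟩
      show ((φ (σ (σ.symm (φ.symm ⟨x, hx⟩)))) : α) = x
      rw [Equiv.apply_symm_apply, Equiv.apply_symm_apply]
  have hsum : ∀ (T : Finset (Fin m)) (F : ℕ → ℕ), ∑ i ∈ T, F (b i) = ∑ e ∈ T.map ψ, F (f e) := by
    intro T F
    rw [sum_map]
    rfl
  obtain ⟨H, hH⟩ := Pool.Agent.R64.EGdeg.erdosGallai b hb (by
    have := hsum univ id
    simp only [id] at this
    rw [this, hmap]
    exact hev) (by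
    intro r
    have h1 := h ((Finset.Iic r).map ψ) (by rw [← hmap]; exact map_subset_map.2 (subset_univ _))
    have h2 : E \ (Finset.Iic r).map ψ = (Finset.Ioi r).map ψ := by
      rw [← hmap]
      ext x
      simp only [mem_sdiff, mem_map, mem_univ, true_and, mem_Iic, mem_Ioi]
      constructor
      · rintro ⟨⟨i, rfl⟩, h3⟩
        exact ⟨i, not_le.1 fun h4 => h3 ⟨i, h4, rfl⟩, rfl⟩
      · rintro ⟨i, hi, rfl⟩
        exact ⟨⟨i, rfl⟩, fun ⟨j, hj, hji⟩ => absurd (ψ.injective hji ▸ hj) (not_le.2 hi)⟩
    have h3 : ((Finset.Iic r).map ψ).card = r.1 + 1 := by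
      rw [card_map, Fin.card_Iic]
    rw [h2, h3] at h1
    have h4 := hsum (Finset.Iic r) id
    have h5 := hsum (Finset.Ioi r) (fun x => min x (r.1 + 1))
    simp only [id] at h4 h5
    rw [h4, h5]
    have : (r.1 + 1) * (r.1 + 1) = (r.1 + 1) * r.1 + (r.1 + 1) := by ring
    omega)
  refine ⟨H, ?_⟩
  have h1 : (fun v => H.degree v) = b := by
    funext v
    rw [← hH v, ← SimpleGraph.card_neighborFinset_eq_degree]
    unfold Pool.Agent.R64.EGdeg.dg
    congr 1
    ext w
    rw [Pool.Agent.R64.EGdeg.mem_nbr, SimpleGraph.mem_neighborFinset]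
  rw [h1]
  conv_rhs => rw [← hmap]
  rw [map_val, Multiset.map_map]
  rfl

/-- **The imbalances of a graph without edges of imbalance zero form a graphic multiset.** -/
theorem imb_graphic (hpos : ∀ e ∈ G.edgeFinset, 0 < imb G e) :
    ∃ H : SimpleGraph (Fin G.edgeFinset.card),
      (univ : Finset (Fin G.edgeFinset.card)).val.map (fun v => H.degree v) =
        G.edgeFinset.val.map (imb G) :=
  graphic_of_ineq _ _ even_sum fun S hS => main_ineq hpos S hS

end Pool.Agent.L5helper35.Imb
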