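import Mathlib
import Pool.Agent.Helper770.VanKampen

/-!
# Two-colourings of the complete graph on nine vertices: a checker

The edges of the complete graph on `{0, ..., 8}` are numbered by `eid`. A colouring is a function
`C : ℕ → Bool` on the numbers of the edges. `Good C` says that, for every numbering of the nine
vertices, the van Kampen relations mod 2 have a solution for the pairs of disjoint edges of equal
colour. The function `go` reads a certificate (a decision tree, coded as a number).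
-/

namespace Pool.Agent.L5helper35.K9

open Pool.Agent.Helper770.VanKampen

/-- binary digit `n` of `m` -/
def tb (m n : ℕ) : Bool := Nat.beq (Nat.mod (Nat.shiftRight m n) 2) 1

/-- the number of the edge `ij` -/
def eid (i j : ℕ) : ℕ :=
  cond (Nat.ble i j) (Nat.add (Nat.div (Nat.mul j (Nat.sub j 1)) 2) i)
    (Nat.add (Nat.div (Nat.mul i (Nat.sub i 1)) 2) j)

/-- the hexadecimal digit `i` of `p` -/
def pe (p i : ℕ) : ℕ := Nat.mod (Nat.shiftRight p (Nat.mul 4 i)) 16

/-- the first nine digits of `p` are a permutation of `0, ..., 8` -/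
def permOK (p : ℕ) : Bool :=
  Nat.beq (Nat.lor (Nat.shiftLeft 1 (pe p 0)) (Nat.lor (Nat.shiftLeft 1 (pe p 1))
    (Nat.lor (Nat.shiftLeft 1 (pe p 2)) (Nat.lor (Nat.shiftLeft 1 (pe p 3))
    (Nat.lor (Nat.shiftLeft 1 (pe p 4)) (Nat.lor (Nat.shiftLeft 1 (pe p 5))
    (Nat.lor (Nat.shiftLeft 1 (pe p 6)) (Nat.lor (Nat.shiftLeft 1 (pe p 7))
    (Nat.shiftLeft 1 (pe p 8)))))))))) 511

/-- all edges of the list, moved by `p`, are in the set `m` -/
def allE (p m : ℕ) : List (ℕ × ℕ) → Bool
  | [] => true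
  | q :: E => cond (tb m (eid (pe p q.1) (pe p q.2))) (allE p m E) false

/-- a certificate type: a list of edges and a list of pairs of disjoint edges -/
abbrev Typ := List (ℕ × ℕ) × List (ℕ × ℕ × ℕ × ℕ)

/-- leaf of the first kind -/
def leafOK (Ty : List Typ) (t p m : ℕ) : Bool :=
  match Ty[t]? with
  | none => false
  | some T => cond (permOK p) (allE p m T.1) false

/-- the pairs `(i, j)`, `i < j < N` -/
def prs (N : ℕ) : List (ℕ × ℕ) :=
  (List.range N).flatMap (fun j => (List.range j).map (fun i => (i, j)))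

/-- the set `m` seen through the relabelling `p` -/
def nm (p m : ℕ) : List (ℕ × ℕ) → ℕ
  | [] => 0
  | q :: E => cond (tb m (eid (pe p q.1) (pe p q.2)))
      (Nat.lor (Nat.shiftLeft 1 (eid q.1 q.2)) (nm p m E)) (nm p m E)

/-- all edges between the first `N` vertices -/
def fullm (N : ℕ) : ℕ := Nat.sub (Nat.shiftLeft 1 (Nat.div (Nat.mul N (Nat.sub N 1)) 2)) 1

def mem1 (r : ℕ) : List (ℕ × ℕ) → Bool
  | [] => false
  | q :: L => cond (Nat.beq q.1 r) true (mem1 r L)

/-- leaf of the second kind -/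
def isoOK (N : ℕ) (L : List (ℕ × ℕ)) (p m m' : ℕ) : Bool :=
  cond (permOK p)
    (cond (Nat.beq (nm p m' (prs N)) (Nat.xor (fullm N) (nm p m (prs N))))
      (mem1 (nm p m (prs N)) L) false) false

/-- reads the certificate `code` below a node with the sets `m0`, `m1` -/
def go (Ty : List Typ) (N : ℕ) (L : List (ℕ × ℕ)) : ℕ → ℕ → ℕ → ℕ → Option ℕ
  | 0, _, _, _ => none
  | f + 1, code, m0, m1 =>
    cond (Nat.beq (Nat.mod code 4) 0)
      (match go Ty N L f (Nat.div code 256)
          (Nat.lor m0 (Nat.shiftLeft 1 (Nat.mod (Nat.div code 4) 64))) m1 with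
        | none => none
        | some code' => go Ty N L f code' m0
            (Nat.lor m1 (Nat.shiftLeft 1 (Nat.mod (Nat.div code 4) 64))))
      (cond (Nat.beq (Nat.mod code 4) 1)
        (cond (leafOK Ty (Nat.mod (Nat.div code 8) 64) (Nat.mod (Nat.div code 512) 68719476736)
            (cond (Nat.beq (Nat.mod (Nat.div code 4) 2) 0) m0 m1))
          (some (Nat.div code 35184372088832)) none)
        (cond (cond (Nat.beq (Nat.mod (Nat.div code 4) 2) 0)
            (isoOK N L (Nat.mod (Nat.div code 8) 68719476736) m0 m1)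
            (isoOK N L (Nat.mod (Nat.div code 8) 68719476736) m1 m0))
          (some (Nat.div code 549755813888)) none))

/-- all certificates of the list `D` are correct -/
def runL (Ty : List Typ) (n N : ℕ) (L : List (ℕ × ℕ)) : List (ℕ × ℕ) → Bool
  | [] => true
  | q :: D => cond ((go Ty N L 40 q.2 q.1 (Nat.xor (fullm n) q.1)).isSome) (runL Ty n N L D) false

/-- the number of a triple -/
def lidx (a b x : ℕ) : ℕ := 81 * a + 9 * b + x

/-- is the pair of edges `ab`, `xy` a pair of disjoint edges from the list -/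
def pairOK (E : List (ℕ × ℕ)) (q : ℕ × ℕ × ℕ × ℕ) : Bool :=
  decide (q.1 < q.2.1) && decide (q.2.1 < 9) && decide (q.2.2.1 < q.2.2.2) &&
    decide (q.2.2.2 < 9) && !(Nat.beq q.1 q.2.2.1) && !(Nat.beq q.1 q.2.2.2) &&
    !(Nat.beq q.2.1 q.2.2.1) && !(Nat.beq q.2.1 q.2.2.2) &&
    E.contains (q.1, q.2.1) && E.contains (q.2.2.1, q.2.2.2)

/-- interleaving -/
def bt (q : ℕ × ℕ × ℕ × ℕ) : Bool :=
  (decide (q.1 < q.2.2.1) && decide (q.2.2.1 < q.2.1)) ^^
    (decide (q.1 < q.2.2.2) && decide (q.2.2.2 < q.2.1))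

/-- the labels of a pair -/
def lb (q : ℕ × ℕ × ℕ × ℕ) : ℕ :=
  (2 ^ lidx q.1 q.2.1 q.2.2.1 ^^^ 2 ^ lidx q.1 q.2.1 q.2.2.2) ^^^
    (2 ^ lidx q.2.2.1 q.2.2.2 q.1 ^^^ 2 ^ lidx q.2.2.1 q.2.2.2 q.2.1)

/-- the certificate of a type -/
def certOK (T : Typ) : Bool :=
  T.2.all (pairOK T.1) && (T.2.foldr (fun q b => bt q ^^ b) false) &&
    Nat.beq (T.2.foldr (fun q b => lb q ^^^ b) 0) 0

end Pool.Agent.L5helper35.K9
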