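import Pool.Agent.Helper770.Straight

/-! A biplanar drawing of the complete graph on nine vertices with one crossing. -/

namespace Pool.Agent.L5helper35.K9D

open Pool.Agent.Helper770.Straight

/-- first coordinates -/
def xs (i : Fin 2) (v : Fin 9) : ℤ :=
  if i = 0 then ![12, 29, 11, 15, 14, 21, 4, 9, 14] v else ![25, 14, 2, 27, 27, 11, 4, 21, 15] v

/-- second coordinates -/
def ys (i : Fin 2) (v : Fin 9) : ℤ :=
  if i = 0 then ![27, 4, 1, 2, 11, 3, 14, 6, 7] v else ![26, 14, 28, 24, 21, 20, 2, 23, 13] v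

/-- orientation of a triple -/
def oz (i : Fin 2) (a b c : Fin 9) : ℤ :=
  (xs i b - xs i a) * (ys i c - ys i a) - (ys i b - ys i a) * (xs i c - xs i a)

/-- the positions of the vertices -/
noncomputable def P (i : Fin 2) (v : Fin 9) : ℂ := ⟨(xs i v : ℝ), (ys i v : ℝ)⟩

theorem ori_P (i : Fin 2) (a b c : Fin 9) : ori (P i a) (P i b) (P i c) = (oz i a b c : ℝ) := by
  simp only [ori, P, oz]
  push_cast
  ring

/-- the edges in the second plane -/
def colL : List (Fin 9 × Fin 9) :=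
  [(0, 2), (0, 3), (3, 4), (0, 5), (2, 5), (1, 6), (2, 6), (3, 6), (4, 6), (5, 6), (1, 7), (3, 7),
    (5, 7), (0, 8), (1, 8), (6, 8), (7, 8)]

/-- the partition of the edges -/
def col (u v : Fin 9) : Fin 2 := if (u, v) ∈ colL ∨ (v, u) ∈ colL then 1 else 0

theorem col_comm : ∀ u v : Fin 9, col u v = col v u := by decide +kernel

theorem oz_ne : ∀ (i : Fin 2) (a b c : Fin 9), a ≠ b → c ≠ a → c ≠ b → oz i a b c ≠ 0 := by
  decide +kernel

/-- the crossing pairs -/
def S : Finset (Fin 2 × Fin 9 × Fin 9 × Fin 9 × Fin 9) :=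
  {(1, 3, 7, 0, 8), (1, 7, 3, 0, 8), (1, 3, 7, 8, 0), (1, 7, 3, 8, 0),
   (1, 0, 8, 3, 7), (1, 8, 0, 3, 7), (1, 0, 8, 7, 3), (1, 8, 0, 7, 3)}

theorem S_card : S.card ≤ 8 := by decide +kernel

theorem cross_mem : ∀ (i : Fin 2) (u v x y : Fin 9), u ≠ v → x ≠ y → u ≠ x → u ≠ y → v ≠ x → v ≠ y →
    col u v = i → col x y = i → oz i u v x * oz i u v y < 0 → oz i x y u * oz i x y v < 0 →
    (i, u, v, x, y) ∈ S := by
  decide +kernel

end Pool.Agent.L5helper35.K9D
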