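import Pool.Agent.L5helper35.K9Top

/-! The complete graph on nine vertices has a biplanar drawing with one crossing, but no
self-complementary biplanar drawing with at most one crossing. -/

namespace Pool.Agent.L5helper35.K9M

open Pool.Agent.Helper770.Straight Pool.Agent.L5helper35.K9D

abbrev T9 := Fin 2 × Fin 9 × Fin 9 × Fin 9 × Fin 9 × ℂ

/-- the crossings of a biplanar drawing of `K₉` -/
def crossSet (c : Fin 9 → Fin 9 → Fin 2) (γ : Fin 2 → Fin 9 → Fin 9 → ℝ → ℂ) : Set T9 :=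
  {x | (⊤ : SimpleGraph (Fin 9)).Adj x.2.1 x.2.2.1 ∧
    (⊤ : SimpleGraph (Fin 9)).Adj x.2.2.2.1 x.2.2.2.2.1 ∧
    c x.2.1 x.2.2.1 = x.1 ∧ c x.2.2.2.1 x.2.2.2.2.1 = x.1 ∧
    ¬ (x.2.1 = x.2.2.2.1 ∧ x.2.2.1 = x.2.2.2.2.1) ∧
    ¬ (x.2.1 = x.2.2.2.2.1 ∧ x.2.2.1 = x.2.2.2.1) ∧
    (∃ t : ℝ, 0 < t ∧ t < 1 ∧ γ x.1 x.2.1 x.2.2.1 t = x.2.2.2.2.2) ∧
    (∃ t : ℝ, 0 < t ∧ t < 1 ∧ γ x.1 x.2.2.2.1 x.2.2.2.2.1 t = x.2.2.2.2.2)}

/-- the explicit arcs -/
noncomputable def γ₁ (i : Fin 2) (u v : Fin 9) (t : ℝ) : ℂ := seg (P i u) (P i v) t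

theorem P_inj (i : Fin 2) : Function.Injective (P i) := by
  intro a b hab
  by_contra hne
  have hd : ∀ a b : Fin 9, ∃ d : Fin 9, d ≠ a ∧ d ≠ b := by decide
  obtain ⟨d, hda, hdb⟩ := hd a b
  have := oz_ne i a b d hne hda hdb
  have h2 := ori_P i a b d
  rw [hab, ori] at h2
  simp only [sub_self, zero_mul] at h2
  exact this (by exact_mod_cast h2.symm)

theorem sep {i : Fin 2} {u v x y : Fin 9} (huv : u ≠ v) (hxy : x ≠ y)
    (h1 : ¬ (u = x ∧ v = y)) (h2 : ¬ (u = y ∧ v = x)) {s t : ℝ} (hs0 : 0 < s) (hs1 : s < 1)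
    (ht0 : 0 < t) (ht1 : t < 1) (h : γ₁ i u v s = γ₁ i x y t) :
    u ≠ x ∧ u ≠ y ∧ v ≠ x ∧ v ≠ y ∧ oz i u v x * oz i u v y < 0 ∧ oz i x y u * oz i x y v < 0 := by
  have o1 := ori_seg h
  have o2 := ori_seg h.symm
  simp only [ori_P] at o1 o2
  have z1 : ∀ a b : Fin 9, (oz i a b a : ℝ) = 0 := fun a b => by
    rw [← ori_P]; exact ori_self₁ _ _
  have z2 : ∀ a b : Fin 9, (oz i a b b : ℝ) = 0 := fun a b => by
    rw [← ori_P]; exact ori_self₂ _ _
  have g : ∀ a b d : Fin 9, a ≠ b → d ≠ a → d ≠ b → (oz i a b d : ℝ) ≠ 0 := fun a b d k1 k2 k3 => by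
    exact_mod_cast oz_ne i a b d k1 k2 k3
  have e1 : u ≠ x := by
    rintro rfl
    rw [z1, mul_zero, zero_add] at o1
    have hy : y ≠ v := fun hh => h1 ⟨rfl, hh.symm⟩
    exact (mul_ne_zero ht0.ne' (g u v y huv hxy.symm hy)) o1
  have e2 : u ≠ y := by
    rintro rfl
    rw [z1, mul_zero, add_zero] at o1
    have hy : x ≠ v := fun hh => h2 ⟨rfl, hh.symm⟩
    exact (mul_ne_zero (by linarith : (1 : ℝ) - t ≠ 0) (g u v x huv hxy hy)) o1
  have e3 : v ≠ x := by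
    rintro rfl
    rw [z2, mul_zero, zero_add] at o1
    have hy : y ≠ u := fun hh => h2 ⟨hh.symm, rfl⟩
    exact (mul_ne_zero ht0.ne' (g u v y huv hy hxy.symm)) o1
  have e4 : v ≠ y := by
    rintro rfl
    rw [z2, mul_zero, add_zero] at o1
    have hy : x ≠ u := fun hh => h1 ⟨hh.symm, rfl⟩
    exact (mul_ne_zero (by linarith : (1 : ℝ) - t ≠ 0) (g u v x huv hy hxy)) o1
  refine ⟨e1, e2, e3, e4, ?_, ?_⟩
  · have n1 := g u v x huv e1.symm e3.symm
    have n2 := g u v y huv e2.symm e4.symm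
    have q : t * ((oz i u v x : ℝ) * oz i u v y) = -((1 - t) * (oz i u v x : ℝ) ^ 2) := by
      linear_combination (oz i u v x : ℝ) * o1
    have p1 : 0 < (1 - t) * (oz i u v x : ℝ) ^ 2 := by
      have : 0 < (oz i u v x : ℝ) ^ 2 := by positivity
      have h1t : 0 < 1 - t := by linarith
      positivity
    have : ((oz i u v x * oz i u v y : ℤ) : ℝ) < 0 := by
      push_cast
      by_contra hc
      push Not at hc
      have := mul_nonneg ht0.le hc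
      linarith
    exact_mod_cast this
  · have n1 := g x y u hxy e1 e2
    have q : s * ((oz i x y u : ℝ) * oz i x y v) = -((1 - s) * (oz i x y u : ℝ) ^ 2) := by
      linear_combination (oz i x y u : ℝ) * o2
    have p1 : 0 < (1 - s) * (oz i x y u : ℝ) ^ 2 := by
      have : 0 < (oz i x y u : ℝ) ^ 2 := by positivity
      have h1t : 0 < 1 - s := by linarith
      positivity
    have : ((oz i x y u * oz i x y v : ℤ) : ℝ) < 0 := by
      push_cast
      by_contra hc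
      push Not at hc
      have := mul_nonneg hs0.le hc
      linarith
    exact_mod_cast this

/-- the explicit drawing has one crossing (counted eight times) -/
theorem cross_small : (crossSet col γ₁).Finite ∧ (crossSet col γ₁).ncard ≤ 8 := by
  let f : T9 → Fin 2 × Fin 9 × Fin 9 × Fin 9 × Fin 9 :=
    fun x => (x.1, x.2.1, x.2.2.1, x.2.2.2.1, x.2.2.2.2.1)
  have hsub : f '' crossSet col γ₁ ⊆ (S : Set _) := by
    rintro _ ⟨⟨i, u, v, x, y, z⟩, ⟨a1, a2, a3, a4, a5, a6, ⟨s, s0, s1, hs⟩, ⟨t, t0, t1, ht⟩⟩, rfl⟩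
    simp only at a1 a2 a3 a4 a5 a6 hs ht
    have k := sep a1.ne a2.ne a5 a6 s0 s1 t0 t1 (hs.trans ht.symm)
    exact cross_mem i u v x y a1.ne a2.ne k.1 k.2.1 k.2.2.1 k.2.2.2.1 a3 a4 k.2.2.2.2.1
      k.2.2.2.2.2
  have hinj : Set.InjOn f (crossSet col γ₁) := by
    rintro ⟨i, u, v, x, y, z⟩ ⟨a1, a2, a3, a4, a5, a6, ⟨s, s0, s1, hs⟩, ⟨t, t0, t1, ht⟩⟩
      ⟨i', u', v', x', y', z'⟩ ⟨b1, b2, b3, b4, b5, b6, ⟨s', s0', s1', hs'⟩, ⟨t', t0', t1', ht'⟩⟩ hff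
    simp only [f, Prod.mk.injEq] at hff
    obtain ⟨rfl, rfl, rfl, rfl, rfl⟩ := hff
    simp only at a1 a2 a3 a4 a5 a6 hs ht b1 b2 b3 b4 b5 b6 hs' ht'
    have k := sep a1.ne a2.ne a5 a6 s0 s1 t0 t1 (hs.trans ht.symm)
    have o1 := ori_seg (ht.trans hs.symm)
    have o2 := ori_seg (ht'.trans hs'.symm)
    simp only [ori_P] at o1 o2
    have hAB : ((oz i x y u : ℤ) : ℝ) ≠ oz i x y v := by
      intro hh
      have hh' : oz i x y u = oz i x y v := by exact_mod_cast hh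
      have := k.2.2.2.2.2
      rw [hh'] at this
      nlinarith [mul_self_nonneg (oz i x y v)]
    have hss : s = s' := by
      have : (s - s') * ((oz i x y v : ℝ) - oz i x y u) = 0 := by linarith
      rcases mul_eq_zero.mp this with hh | hh
      · linarith
      · exact absurd (by linarith) hAB
    have : z = z' := by rw [← hs, ← hs', hss]
    rw [this]
  have hfin : (crossSet col γ₁).Finite :=
    Set.Finite.of_finite_image ((Finset.finite_toSet S).subset hsub) hinj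
  refine ⟨hfin, ?_⟩
  rw [← hinj.ncard_image]
  refine (Set.ncard_le_ncard hsub (Finset.finite_toSet S)).trans ?_
  rw [Set.ncard_coe_finset]
  exact S_card

/-- swap if `b` -/
def sw {α : Type*} (b : Bool) (q : α × α) : α × α := if b then q.swap else q

/-- the eight descriptions of a crossing -/
def vr (i : Fin 2) (b : Bool × Bool × Bool) (w : Fin 9 × Fin 9 × Fin 9 × Fin 9 × ℂ) : T9 :=
  let r := sw b.2.2 (sw b.1 (w.1, w.2.1), sw b.2.1 (w.2.2.1, w.2.2.2.1))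
  (i, r.1.1, r.1.2, r.2.1, r.2.2, w.2.2.2.2)

theorem sw_inj {α : Type*} {e : α × α} (h : e ≠ e.swap) {b c : Bool} (hbc : sw b e = sw c e) :
    b = c := by
  cases b <;> cases c
  · rfl
  · exact absurd hbc h
  · exact absurd hbc.symm h
  · rfl

theorem sw_ne {α : Type*} {e f : α × α} (h1 : e ≠ f) (h2 : e ≠ f.swap) {b c : Bool} :
    sw b e ≠ sw c f := by
  intro h
  cases b <;> cases c
  · exact h1 h
  · exact h2 h
  · apply h2
    have h' : e.swap = f := h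
    rw [← h', Prod.swap_swap]
  · apply h1
    have h' : e.swap = f.swap := h
    exact Prod.swap_injective h'

theorem vr_inj (i : Fin 2) {u v x y : Fin 9} (z : ℂ) (huv : u ≠ v) (hxy : x ≠ y)
    (h1 : ¬ (u = x ∧ v = y)) (h2 : ¬ (u = y ∧ v = x)) {b b' : Bool × Bool × Bool}
    (h : vr i b (u, v, x, y, z) = vr i b' (u, v, x, y, z)) : b = b' := by
  obtain ⟨b1, b2, b3⟩ := b
  obtain ⟨c1, c2, c3⟩ := b'
  have e1 : ((u, v) : Fin 9 × Fin 9) ≠ (u, v).swap := fun hh => huv (congrArg Prod.fst hh)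
  have e2 : ((x, y) : Fin 9 × Fin 9) ≠ (x, y).swap := fun hh => hxy (congrArg Prod.fst hh)
  have e3 : ((u, v) : Fin 9 × Fin 9) ≠ (x, y) := fun hh =>
    h1 ⟨congrArg Prod.fst hh, congrArg Prod.snd hh⟩
  have e4 : ((u, v) : Fin 9 × Fin 9) ≠ (x, y).swap := fun hh =>
    h2 ⟨congrArg Prod.fst hh, congrArg Prod.snd hh⟩
  have hr : sw b3 (sw b1 (u, v), sw b2 (x, y)) = sw c3 (sw c1 (u, v), sw c2 (x, y)) := by
    simp only [vr, Prod.mk.injEq, true_and, and_true] at h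
    obtain ⟨k1, k2, k3, k4⟩ := h
    exact Prod.ext (Prod.ext k1 k2) (Prod.ext k3 k4)
  cases b3 <;> cases c3
  · have a1 : sw b1 (u, v) = sw c1 (u, v) := congrArg Prod.fst hr
    have a2 : sw b2 (x, y) = sw c2 (x, y) := congrArg Prod.snd hr
    rw [sw_inj e1 a1, sw_inj e2 a2]
  · have a1 : sw b1 (u, v) = sw c2 (x, y) := congrArg Prod.fst hr
    exact absurd a1 (sw_ne e3 e4)
  · have a1 : sw b1 (u, v) = sw c2 (x, y) := congrArg Prod.snd hr
    exact absurd a1 (sw_ne e3 e4)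
  · have a1 : sw b1 (u, v) = sw c1 (u, v) := congrArg Prod.snd hr
    have a2 : sw b2 (x, y) = sw c2 (x, y) := congrArg Prod.fst hr
    rw [sw_inj e1 a1, sw_inj e2 a2]

theorem one_plane (c : Fin 9 → Fin 9 → Fin 2) (γ : Fin 2 → Fin 9 → Fin 9 → ℝ → ℂ)
    (hsym : ∀ u v : Fin 9, u ≠ v → c u v = c v u)
    (hrev : ∀ (i : Fin 2) (u v : Fin 9), u ≠ v → c u v = i →
      ∀ t : ℝ, 0 ≤ t → t ≤ 1 → γ i v u t = γ i u v (1 - t))
    (hfin : (crossSet c γ).Finite) (hcard : (crossSet c γ).ncard ≤ 8) :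
    ∃ i : Fin 2, ∀ x ∈ crossSet c γ, x.1 ≠ i := by
  classical
  by_contra hcon
  push Not at hcon
  choose w hw hwi using hcon
  have rev : ∀ (i : Fin 2) (u v : Fin 9) (z : ℂ), u ≠ v → c u v = i →
      (∃ t : ℝ, 0 < t ∧ t < 1 ∧ γ i u v t = z) → ∃ t : ℝ, 0 < t ∧ t < 1 ∧ γ i v u t = z := by
    rintro i u v z huv hc ⟨t, t0, t1, ht⟩
    refine ⟨1 - t, by linarith, by linarith, ?_⟩
    rw [hrev i u v huv hc (1 - t) (by linarith) (by linarith), sub_sub_cancel]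
    exact ht
  let Φ : Fin 2 × (Bool × Bool × Bool) → T9 := fun q => vr q.1 q.2 (w q.1).2
  have hΦ : ∀ q, Φ q ∈ crossSet c γ := by
    rintro ⟨i, b1, b2, b3⟩
    have h1 := hw i
    have h2 := hwi i
    change vr i (b1, b2, b3) (w i).2 ∈ crossSet c γ
    generalize w i = ww at h1 h2 ⊢
    obtain ⟨i', u, v, x, y, z⟩ := ww
    have h2' : i' = i := h2
    subst h2'
    obtain ⟨a1, a2, a3, a4, a5, a6, a7, a8⟩ := h1
    simp only at a1 a2 a3 a4 a5 a6 a7 a8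
    have a3' : c v u = i' := (hsym v u a1.ne').trans a3
    have a4' : c y x = i' := (hsym y x a2.ne').trans a4
    have a7' := rev _ _ _ _ a1.ne a3 a7
    have a8' := rev _ _ _ _ a2.ne a4 a8
    have b5 : ¬ (v = x ∧ u = y) := fun hh => a6 ⟨hh.2, hh.1⟩
    have b6 : ¬ (v = y ∧ u = x) := fun hh => a5 ⟨hh.2, hh.1⟩
    have b7 : ¬ (x = u ∧ y = v) := fun hh => a5 ⟨hh.1.symm, hh.2.symm⟩
    have b8 : ¬ (y = u ∧ x = v) := fun hh => a6 ⟨hh.1.symm, hh.2.symm⟩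
    have b9 : ¬ (x = v ∧ y = u) := fun hh => b8 ⟨hh.2, hh.1⟩
    have b10 : ¬ (y = v ∧ x = u) := fun hh => b7 ⟨hh.2, hh.1⟩
    cases b1 <;> cases b2 <;> cases b3
    · exact ⟨a1, a2, a3, a4, a5, a6, a7, a8⟩
    · exact ⟨a2, a1, a4, a3, b7, b9, a8, a7⟩
    · exact ⟨a1, a2.symm, a3, a4', a6, a5, a7, a8'⟩
    · exact ⟨a2.symm, a1, a4', a3, b8, b10, a8', a7⟩
    · exact ⟨a1.symm, a2, a3', a4, b5, b6, a7', a8⟩
    · exact ⟨a2, a1.symm, a4, a3', b9, b7, a8, a7'⟩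
    · exact ⟨a1.symm, a2.symm, a3', a4', b6, b5, a7', a8'⟩
    · exact ⟨a2.symm, a1.symm, a4', a3', b10, b8, a8', a7'⟩
  have hinj : Function.Injective Φ := by
    rintro ⟨i, b⟩ ⟨i', b'⟩ h
    have hi : i = i' := congrArg Prod.fst h
    subst hi
    have h1 := hw i
    have h' : vr i b (w i).2 = vr i b' (w i).2 := h
    generalize w i = ww at h1 h'
    obtain ⟨i'', u, v, x, y, z⟩ := ww
    obtain ⟨a1, a2, a3, a4, a5, a6, a7, a8⟩ := h1
    rw [vr_inj i z a1.ne a2.ne a5 a6 h']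
  have hc : ((Finset.univ.image Φ : Finset T9)).card = 16 := by
    rw [Finset.card_image_of_injective _ hinj]; rfl
  have hs : ((Finset.univ.image Φ : Finset T9) : Set T9) ⊆ crossSet c γ := by
    intro x hx
    rw [Finset.coe_image] at hx
    obtain ⟨q, -, rfl⟩ := hx
    exact hΦ q
  have := Set.ncard_le_ncard hs hfin
  rw [Set.ncard_coe_finset, hc] at this
  omega

/-- no self-complementary drawing has at most one crossing -/
theorem no_selfcompl (c : Fin 9 → Fin 9 → Fin 2) (p : Fin 2 → Fin 9 → ℂ)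
    (γ : Fin 2 → Fin 9 → Fin 9 → ℝ → ℂ)
    (hsym : ∀ u v : Fin 9, (⊤ : SimpleGraph (Fin 9)).Adj u v → c u v = c v u)
    (hinj : ∀ i : Fin 2, Function.Injective (p i))
    (harc : ∀ i : Fin 2, ∀ u v : Fin 9, (⊤ : SimpleGraph (Fin 9)).Adj u v → c u v = i →
      ContinuousOn (γ i u v) (Set.Icc (0:ℝ) 1) ∧
      Set.InjOn (γ i u v) (Set.Icc (0:ℝ) 1) ∧
      γ i u v 0 = p i u ∧ γ i u v 1 = p i v ∧
      (∀ t : ℝ, 0 ≤ t → t ≤ 1 → γ i v u t = γ i u v (1 - t)) ∧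
      ∀ t : ℝ, 0 < t → t < 1 → ∀ w : Fin 9, γ i u v t ≠ p i w)
    (hfin : (crossSet c γ).Finite)
    (φ : SimpleGraph.fromRel (fun u v => (⊤ : SimpleGraph (Fin 9)).Adj u v ∧ c u v = 0) ≃g
      SimpleGraph.fromRel (fun u v => (⊤ : SimpleGraph (Fin 9)).Adj u v ∧ c u v = 1))
    (hcard : (crossSet c γ).ncard ≤ 8) : False := by
  have adj : ∀ u v : Fin 9, (⊤ : SimpleGraph (Fin 9)).Adj u v ↔ u ≠ v := fun u v => Iff.rfl
  have hsym' : ∀ u v : Fin 9, u ≠ v → c u v = c v u := fun u v h => hsym u v h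
  obtain ⟨i₀, hi₀⟩ := one_plane c γ hsym'
    (fun i u v huv hc => (harc i u v huv hc).2.2.2.2.1) hfin hcard
  have hA : ∀ (i : Fin 2) (u v : Fin 9),
      (SimpleGraph.fromRel (fun u v => (⊤ : SimpleGraph (Fin 9)).Adj u v ∧ c u v = i)).Adj u v ↔
        u ≠ v ∧ c u v = i := by
    intro i u v
    rw [SimpleGraph.fromRel_adj]
    constructor
    · rintro ⟨h1, h2 | h2⟩
      · exact ⟨h1, h2.2⟩
      · exact ⟨h1, (hsym' u v h1).trans h2.2⟩
    · rintro ⟨h1, h2⟩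
      exact ⟨h1, Or.inl ⟨h1, h2⟩⟩
  obtain ⟨ψ, hψ⟩ : ∃ ψ : Fin 2 → Fin 9 ≃ Fin 9, ∀ i u v, u ≠ v → c u v = i →
      c (ψ i u) (ψ i v) = i₀ := by
    have hφ : ∀ u v, u ≠ v → c u v = 0 → c (φ u) (φ v) = 1 := by
      intro u v huv hc
      exact ((hA 1 _ _).mp (φ.map_adj_iff.mpr ((hA 0 u v).mpr ⟨huv, hc⟩))).2
    have hφ' : ∀ u v, u ≠ v → c u v = 1 → c (φ.symm u) (φ.symm v) = 0 := by
      intro u v huv hc
      exact ((hA 0 _ _).mp (φ.symm.map_adj_iff.mpr ((hA 1 u v).mpr ⟨huv, hc⟩))).2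
    have h01 : ∀ i : Fin 2, i = 0 ∨ i = 1 := by decide
    rcases h01 i₀ with rfl | rfl
    · refine ⟨fun i => if i = 0 then Equiv.refl _ else φ.symm.toEquiv, ?_⟩
      intro i u v huv hc
      rcases h01 i with rfl | rfl
      · simpa using hc
      · simpa using hφ' u v huv hc
    · refine ⟨fun i => if i = 0 then φ.toEquiv else Equiv.refl _, ?_⟩
      intro i u v huv hc
      rcases h01 i with rfl | rfl
      · simpa using hφ u v huv hc
      · simpa using hc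
  have hne : ∀ (i : Fin 2) (u v : Fin 9), u ≠ v → ψ i u ≠ ψ i v := fun i u v h =>
    (ψ i).injective.ne h
  refine K9T.no_biplanar c hsym' (fun i v => p i₀ (ψ i v))
    (fun i u v h => (ψ i).injective (hinj i₀ h)) (fun i u v => γ i₀ (ψ i u) (ψ i v))
    ?_ ?_ ?_ ?_ ?_
  · intro i u v huv hc
    exact (harc i₀ _ _ (hne i u v huv) (hψ i u v huv hc)).1
  · intro i u v huv hc
    exact (harc i₀ _ _ (hne i u v huv) (hψ i u v huv hc)).2.2.1
  · intro i u v huv hc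
    exact (harc i₀ _ _ (hne i u v huv) (hψ i u v huv hc)).2.2.2.1
  · intro i u v huv hc t t0 t1 w
    exact (harc i₀ _ _ (hne i u v huv) (hψ i u v huv hc)).2.2.2.2.2 t t0 t1 _
  · intro i u v x y huv hxy n1 n2 n3 n4 hc1 hc2 s t s0 s1 t0 t1 he
    refine hi₀ (i₀, ψ i u, ψ i v, ψ i x, ψ i y, γ i₀ (ψ i x) (ψ i y) t) ?_ rfl
    refine ⟨hne i u v huv, hne i x y hxy, hψ i u v huv hc1, hψ i x y hxy hc2, ?_, ?_,
      ⟨s, s0, s1, he⟩, ⟨t, t0, t1, rfl⟩⟩
    · exact fun hh => hne i u x n1 hh.1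
    · exact fun hh => hne i u y n2 hh.1

/-- the explicit drawing is a drawing -/
theorem drawn (i : Fin 2) (u v : Fin 9) (h : (⊤ : SimpleGraph (Fin 9)).Adj u v) :
    ContinuousOn (γ₁ i u v) (Set.Icc (0:ℝ) 1) ∧
      Set.InjOn (γ₁ i u v) (Set.Icc (0:ℝ) 1) ∧
      γ₁ i u v 0 = P i u ∧ γ₁ i u v 1 = P i v ∧
      (∀ t : ℝ, 0 ≤ t → t ≤ 1 → γ₁ i v u t = γ₁ i u v (1 - t)) ∧
      ∀ t : ℝ, 0 < t → t < 1 → ∀ w : Fin 9, γ₁ i u v t ≠ P i w := by
  have huv : u ≠ v := h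
  have hne : P i u ≠ P i v := (P_inj i).ne huv
  refine ⟨(seg_cont _ _).continuousOn, fun s _ t _ hst => seg_inj hne hst, seg_zero _ _,
    seg_one _ _, fun t _ _ => seg_comm _ _ _, ?_⟩
  intro t t0 t1 w hw
  change seg (P i u) (P i v) t = P i w at hw
  by_cases h1 : w = u
  · have h2 : seg (P i u) (P i v) t = seg (P i u) (P i v) 0 := by rw [hw, seg_zero, h1]
    exact t0.ne' (seg_inj hne h2)
  by_cases h3 : w = v
  · have h2 : seg (P i u) (P i v) t = seg (P i u) (P i v) 1 := by rw [hw, seg_one, h3]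
    exact t1.ne (seg_inj hne h2)
  · have h4 : seg (P i u) (P i v) t = seg (P i w) (P i w) 0 := by rw [hw, seg_zero]
    have h5 := ori_seg h4
    rw [ori_P] at h5
    have h6 : (oz i u v w : ℝ) ≠ 0 := by exact_mod_cast oz_ne i u v w huv h1 h3
    apply h6
    linarith

end Pool.Agent.L5helper35.K9M
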