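import Pool.Agent.L5helper35.K9Types
import Pool.Agent.L5helper35.K9Lev
import Pool.Agent.L5helper35.K9Fin

/-! The certificates for colourings of the complete graph on nine vertices are correct. -/

namespace Pool.Agent.L5helper35.K9

theorem run_types : types.all certOK = true := by decide +kernel

theorem run1 : runL types 1 2 lev2 lev1 = true := by decide +kernel

theorem run2 : runL types 2 3 lev3 lev2 = true := by decide +kernel

theorem run3 : runL types 3 4 lev4 lev3 = true := by decide +kernel

theorem run4 : runL types 4 5 lev5 lev4 = true := by decide +kernel

theorem run5 : runL types 5 6 lev6 lev5 = true := by decide +kernel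

theorem run6 : runL types 6 7 lev7 lev6 = true := by decide +kernel

theorem runf0 : runL types 7 9 [] fin0 = true := by decide +kernel

theorem runf1 : runL types 7 9 [] fin1 = true := by decide +kernel

theorem runf2 : runL types 7 9 [] fin2 = true := by decide +kernel

theorem runf3 : runL types 7 9 [] fin3 = true := by decide +kernel

theorem runf4 : runL types 7 9 [] fin4 = true := by decide +kernel

theorem runf5 : runL types 7 9 [] fin5 = true := by decide +kernel

theorem runf6 : runL types 7 9 [] fin6 = true := by decide +kernel

theorem runf7 : runL types 7 9 [] fin7 = true := by decide +kernel

theorem runf8 : runL types 7 9 [] fin8 = true := by decide +kernel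

theorem runf9 : runL types 7 9 [] fin9 = true := by decide +kernel

theorem runf10 : runL types 7 9 [] fin10 = true := by decide +kernel

theorem runf11 : runL types 7 9 [] fin11 = true := by decide +kernel

theorem runf12 : runL types 7 9 [] fin12 = true := by decide +kernel

theorem runf13 : runL types 7 9 [] fin13 = true := by decide +kernel

theorem runf14 : runL types 7 9 [] fin14 = true := by decide +kernel

end Pool.Agent.L5helper35.K9
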