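import Pool.Agent.L5helper35.K9Run

/-! Soundness of the checker: there is no good colouring of the edges of `K₉`. -/

namespace Pool.Agent.L5helper35.K9

open Pool.Agent.Helper770.VanKampen

/-- For every numbering of the nine vertices, the van Kampen relations mod 2 of the pairs of
disjoint edges of equal colour have a solution. -/
def Good (C : ℕ → Bool) : Prop :=
  ∀ σ : Equiv.Perm (Fin 9), ∃ m : Fin 9 → Fin 9 → Fin 9 → ZMod 2,
    ∀ a b x y : Fin 9, a < b → x < y → a ≠ x → a ≠ y → b ≠ x → b ≠ y →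
      C (eid (σ a) (σ b)) = C (eid (σ x) (σ y)) →
      beta a b x y = m a b x + m a b y + m x y a + m x y b

theorem tb_eq (m n : ℕ) : tb m n = m.testBit n := by
  unfold tb
  rw [Nat.testBit_eq_decide_div_mod_eq]
  have h1 : Nat.shiftRight m n = m / 2 ^ n := Nat.shiftRight_eq_div_pow m n
  have h2 : Nat.mod (Nat.shiftRight m n) 2 = m / 2 ^ n % 2 := by rw [h1]; rfl
  rw [h2]
  rcases Nat.mod_two_eq_zero_or_one (m / 2 ^ n) with h | h
  · rw [h]; rfl
  · rw [h]; rfl

theorem eid_comm (i j : ℕ) : eid i j = eid j i := by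
  unfold eid
  rcases lt_trichotomy i j with h | h | h
  · have h1 : Nat.ble i j = true := Nat.ble_eq.mpr h.le
    have h2 : Nat.ble j i = false := by
      rw [Bool.eq_false_iff]
      intro h3
      exact absurd (Nat.ble_eq.mp h3) (not_le.mpr h)
    rw [h1, h2]; rfl
  · rw [h]
  · have h1 : Nat.ble j i = true := Nat.ble_eq.mpr h.le
    have h2 : Nat.ble i j = false := by
      rw [Bool.eq_false_iff]
      intro h3
      exact absurd (Nat.ble_eq.mp h3) (not_le.mpr h)
    rw [h1, h2]; rfl

theorem eid_inj : ∀ a b x y : Fin 9, a < b → x < y → eid a b = eid x y → a = x ∧ b = y := by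
  decide +kernel

open Classical in
/-- The colouring seen through the relabelling `σ`. -/
noncomputable def prm (σ : Equiv.Perm (Fin 9)) (C : ℕ → Bool) : ℕ → Bool := fun k =>
  decide (∃ a b : Fin 9, a < b ∧ eid a b = k ∧ C (eid (σ a) (σ b)) = true)

theorem prm_eid (σ : Equiv.Perm (Fin 9)) (C : ℕ → Bool) {a b : Fin 9} (h : a ≠ b) :
    prm σ C (eid a b) = C (eid (σ a) (σ b)) := by
  classical
  wlog hab : a < b generalizing a b
  · rw [eid_comm a b, eid_comm (σ a) (σ b)]
    exact this h.symm (lt_of_le_of_ne (not_lt.mp hab) h.symm)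
  unfold prm
  cases hc : C (eid (σ a) (σ b))
  · rw [decide_eq_false_iff_not]
    rintro ⟨x, y, hxy, he, hC⟩
    obtain ⟨rfl, rfl⟩ := eid_inj _ _ _ _ hxy hab he
    rw [hc] at hC
    exact Bool.noConfusion hC
  · rw [decide_eq_true_iff]
    exact ⟨a, b, hab, rfl, hc⟩

theorem good_prm {C : ℕ → Bool} (h : Good C) (τ : Equiv.Perm (Fin 9)) : Good (prm τ C) := by
  intro σ
  obtain ⟨m, hm⟩ := h (σ.trans τ)
  refine ⟨m, fun a b x y hab hxy h1 h2 h3 h4 hc => hm a b x y hab hxy h1 h2 h3 h4 ?_⟩
  rw [prm_eid τ C (σ.injective.ne hab.ne), prm_eid τ C (σ.injective.ne hxy.ne)] at hc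
  exact hc

theorem good_not {C : ℕ → Bool} (h : Good C) : Good (fun k => !C k) := by
  intro σ
  obtain ⟨m, hm⟩ := h σ
  refine ⟨m, fun a b x y hab hxy h1 h2 h3 h4 hc => hm a b x y hab hxy h1 h2 h3 h4 ?_⟩
  simpa using hc

/-! ### Types -/

/-- sum of the values of `f` on the binary digits of `N` -/
def LS (f : ℕ → ZMod 2) (N : ℕ) : ZMod 2 :=
  ∑ k ∈ Finset.range 810, if N.testBit k = true then f k else 0

theorem LS_zero (f : ℕ → ZMod 2) : LS f 0 = 0 := by
  simp [LS]

theorem LS_xor (f : ℕ → ZMod 2) (x y : ℕ) : LS f (x ^^^ y) = LS f x + LS f y := by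
  unfold LS
  rw [← Finset.sum_add_distrib]
  refine Finset.sum_congr rfl (fun k _ => ?_)
  rw [Nat.testBit_xor]
  have h2 : f k + f k = 0 := CharTwo.add_self_eq_zero _
  cases x.testBit k <;> cases y.testBit k <;> simp [h2]

theorem LS_pow (f : ℕ → ZMod 2) {k : ℕ} (hk : k < 810) : LS f (2 ^ k) = f k := by
  unfold LS
  rw [Finset.sum_eq_single k]
  · simp
  · intro b _ hb
    rw [if_neg]
    rw [Nat.testBit_two_pow]
    simpa using hb.symm
  · intro h
    exact absurd (Finset.mem_range.mpr hk) h

theorem foldr_xor_bool (l : List (ℕ × ℕ × ℕ × ℕ)) (g : ℕ × ℕ × ℕ × ℕ → ZMod 2)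
    (h : ∀ q ∈ l, g q = if bt q = true then 1 else 0) :
    (l.map g).sum = if (l.foldr (fun q b => bt q ^^ b) false) = true then 1 else 0 := by
  induction l with
  | nil => simp
  | cons q l ih =>
    rw [List.map_cons, List.sum_cons, ih (fun q' hq' => h q' (List.mem_cons_of_mem _ hq')),
      h q List.mem_cons_self, List.foldr_cons]
    have h2 : (1 : ZMod 2) + 1 = 0 := rfl
    cases bt q <;> cases (List.foldr (fun q b => bt q ^^ b) false l) <;> simp [h2]

theorem foldr_xor_nat (f : ℕ → ZMod 2) (l : List (ℕ × ℕ × ℕ × ℕ)) (g : ℕ × ℕ × ℕ × ℕ → ZMod 2)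
    (h : ∀ q ∈ l, g q = LS f (lb q)) :
    (l.map g).sum = LS f (l.foldr (fun q b => lb q ^^^ b) 0) := by
  induction l with
  | nil => simp [LS_zero]
  | cons q l ih =>
    rw [List.map_cons, List.sum_cons, ih (fun q' hq' => h q' (List.mem_cons_of_mem _ hq')),
      h q List.mem_cons_self, List.foldr_cons, LS_xor]

theorem pair_spec {E : List (ℕ × ℕ)} {q : ℕ × ℕ × ℕ × ℕ} (h : pairOK E q = true) :
    q.1 < q.2.1 ∧ q.2.1 < 9 ∧ q.2.2.1 < q.2.2.2 ∧ q.2.2.2 < 9 ∧ q.1 ≠ q.2.2.1 ∧
      q.1 ≠ q.2.2.2 ∧ q.2.1 ≠ q.2.2.1 ∧ q.2.1 ≠ q.2.2.2 ∧ (q.1, q.2.1) ∈ E ∧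
      (q.2.2.1, q.2.2.2) ∈ E := by
  have hb : ∀ x y : ℕ, Nat.beq x y = false → x ≠ y := by
    intro x y hxy he
    rw [he, Nat.beq_refl] at hxy
    exact Bool.noConfusion hxy
  unfold pairOK at h
  simp only [Bool.and_eq_true, decide_eq_true_eq, Bool.not_eq_true', List.contains_eq_mem] at h
  obtain ⟨⟨⟨⟨⟨⟨⟨⟨⟨h1, h2⟩, h3⟩, h4⟩, h5⟩, h6⟩, h7⟩, h8⟩, h9⟩, h10⟩ := h
  exact ⟨h1, h2, h3, h4, hb _ _ h5, hb _ _ h6, hb _ _ h7, hb _ _ h8, h9, h10⟩

theorem typ_sound (T : Typ) (h : certOK T = true) (C : ℕ → Bool)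
    (m : Fin 9 → Fin 9 → Fin 9 → ZMod 2)
    (hm : ∀ a b x y : Fin 9, a < b → x < y → a ≠ x → a ≠ y → b ≠ x → b ≠ y →
      C (eid a b) = C (eid x y) → beta a b x y = m a b x + m a b y + m x y a + m x y b)
    (col : Bool) (hE : ∀ q ∈ T.1, q.1 < q.2 → q.2 < 9 → C (eid q.1 q.2) = col) : False := by
  unfold certOK at h
  simp only [Bool.and_eq_true, List.all_eq_true] at h
  obtain ⟨⟨hp, hb⟩, hl⟩ := h
  have hl' : T.2.foldr (fun q b => lb q ^^^ b) 0 = 0 := Nat.eq_of_beq_eq_true hl
  let F : ℕ → Fin 9 := fun n => ⟨n % 9, Nat.mod_lt _ (by norm_num)⟩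
  let f : ℕ → ZMod 2 := fun k => m (F (k / 81)) (F (k / 9)) (F k)
  let g : ℕ × ℕ × ℕ × ℕ → ZMod 2 := fun q => beta (F q.1) (F q.2.1) (F q.2.2.1) (F q.2.2.2)
  have hF : ∀ n, n < 9 → ((F n : Fin 9) : ℕ) = n := fun n hn => Nat.mod_eq_of_lt hn
  have hf : ∀ a b x : ℕ, a < 9 → b < 9 → x < 9 → f (lidx a b x) = m (F a) (F b) (F x) := by
    intro a b x ha hb hx
    have e1 : F ((81 * a + 9 * b + x) / 81) = F a := by
      apply Fin.ext
      change (81 * a + 9 * b + x) / 81 % 9 = a % 9
      omega
    have e2 : F ((81 * a + 9 * b + x) / 9) = F b := by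
      apply Fin.ext
      change (81 * a + 9 * b + x) / 9 % 9 = b % 9
      omega
    have e3 : F (81 * a + 9 * b + x) = F x := by
      apply Fin.ext
      change (81 * a + 9 * b + x) % 9 = x % 9
      omega
    change m (F ((81 * a + 9 * b + x) / 81)) (F ((81 * a + 9 * b + x) / 9))
      (F (81 * a + 9 * b + x)) = _
    rw [e1, e2, e3]
  have s1 := foldr_xor_bool T.2 g (by
    intro q hq
    obtain ⟨h1, h2, h3, h4, -⟩ := pair_spec (hp q hq)
    have a1 := hF q.1 (by omega)
    have a2 := hF q.2.1 h2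
    have a3 := hF q.2.2.1 (by omega)
    have a4 := hF q.2.2.2 h4
    change beta (F q.1) (F q.2.1) (F q.2.2.1) (F q.2.2.2) = _
    unfold beta bt
    simp only [Fin.lt_def, a1, a2, a3, a4]
    have h2 : (1 : ZMod 2) + 1 = 0 := rfl
    by_cases c1 : q.1 < q.2.2.1 ∧ q.2.2.1 < q.2.1 <;> by_cases c2 : q.1 < q.2.2.2 ∧ q.2.2.2 < q.2.1
    · simp [c1, c2, h2]
    · rw [if_pos c1, if_neg c2, ← Bool.decide_and, ← Bool.decide_and, decide_eq_true c1,
        decide_eq_false c2]
      simp
    · rw [if_neg c1, if_pos c2, ← Bool.decide_and, ← Bool.decide_and, decide_eq_false c1,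
        decide_eq_true c2]
      simp
    · rw [if_neg c1, if_neg c2, ← Bool.decide_and, ← Bool.decide_and, decide_eq_false c1,
        decide_eq_false c2]
      simp)
  have s2 := foldr_xor_nat f T.2 g (by
    intro q hq
    obtain ⟨h1, h2, h3, h4, h5, h6, h7, h8, h9, h10⟩ := pair_spec (hp q hq)
    have a1 := hF q.1 (by omega)
    have a2 := hF q.2.1 h2
    have a3 := hF q.2.2.1 (by omega)
    have a4 := hF q.2.2.2 h4
    have hc : C (eid (F q.1) (F q.2.1)) = C (eid (F q.2.2.1) (F q.2.2.2)) := by
      rw [a1, a2, a3, a4, hE _ h9 h1 h2, hE _ h10 h3 h4]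
    have ne : ∀ x y : ℕ, x < 9 → y < 9 → x ≠ y → F x ≠ F y := by
      intro x y hx hy hxy he
      apply hxy
      have := congrArg Fin.val he
      rw [hF x hx, hF y hy] at this
      exact this
    have key := hm (F q.1) (F q.2.1) (F q.2.2.1) (F q.2.2.2)
      (by rw [Fin.lt_def, a1, a2]; exact h1) (by rw [Fin.lt_def, a3, a4]; exact h3)
      (ne _ _ (by omega) (by omega) h5) (ne _ _ (by omega) h4 h6) (ne _ _ h2 (by omega) h7)
      (ne _ _ h2 h4 h8) hc
    change beta (F q.1) (F q.2.1) (F q.2.2.1) (F q.2.2.2) = _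
    unfold lb
    rw [LS_xor, LS_xor, LS_xor, LS_pow _ (by unfold lidx; omega), LS_pow _ (by unfold lidx; omega),
      LS_pow _ (by unfold lidx; omega), LS_pow _ (by unfold lidx; omega),
      hf _ _ _ (by omega) h2 (by omega), hf _ _ _ (by omega) h2 h4,
      hf _ _ _ (by omega) h4 (by omega), hf _ _ _ (by omega) h4 h2, key]
    ring)
  rw [hl', LS_zero] at s2
  rw [s2, if_pos hb] at s1
  exact zero_ne_one s1

/-! ### Permutations -/

theorem perm_spec {p : ℕ} (h : permOK p = true) :
    ∃ σ : Equiv.Perm (Fin 9), ∀ i : Fin 9, ((σ i : Fin 9) : ℕ) = pe p i := by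
  have h0 := Nat.eq_of_beq_eq_true h
  have hbit : ∀ k, Nat.testBit 511 k = true ↔ ∃ i : Fin 9, pe p i = k := by
    intro k
    have hs : ∀ n, Nat.testBit (Nat.shiftLeft 1 n) k = true ↔ n = k := by
      intro n
      have : Nat.shiftLeft 1 n = 2 ^ n := Nat.one_shiftLeft n
      rw [this, Nat.testBit_two_pow]
      simp
    have hl : ∀ x y, Nat.testBit (Nat.lor x y) k = true ↔ Nat.testBit x k = true ∨
        Nat.testBit y k = true := by
      intro x y
      have : Nat.lor x y = x ||| y := rfl
      rw [this, Nat.testBit_or, Bool.or_eq_true]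
    rw [← h0]
    simp only [hl, hs]
    constructor
    · rintro (h | h | h | h | h | h | h | h | h)
      · exact ⟨0, h⟩
      · exact ⟨1, h⟩
      · exact ⟨2, h⟩
      · exact ⟨3, h⟩
      · exact ⟨4, h⟩
      · exact ⟨5, h⟩
      · exact ⟨6, h⟩
      · exact ⟨7, h⟩
      · exact ⟨8, h⟩
    · rintro ⟨i, hi⟩
      fin_cases i
      · left; exact hi
      · right; left; exact hi
      · right; right; left; exact hi
      · right; right; right; left; exact hi
      · right; right; right; right; left; exact hi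
      · right; right; right; right; right; left; exact hi
      · right; right; right; right; right; right; left; exact hi
      · right; right; right; right; right; right; right; left; exact hi
      · right; right; right; right; right; right; right; right; exact hi
  have hlt : ∀ i : Fin 9, pe p i < 9 := by
    intro i
    have h1 := (hbit (pe p i)).mpr ⟨i, rfl⟩
    by_contra hc
    have h2 : (511 : ℕ) < 2 ^ pe p i := by
      calc (511 : ℕ) < 2 ^ 9 := by norm_num
        _ ≤ 2 ^ pe p i := Nat.pow_le_pow_right (by norm_num) (not_lt.mp hc)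
    rw [Nat.testBit_lt_two_pow h2] at h1
    exact Bool.noConfusion h1
  let g : Fin 9 → Fin 9 := fun i => ⟨pe p i, hlt i⟩
  have hsurj : Function.Surjective g := by
    intro j
    have hj : Nat.testBit 511 j = true := by
      revert j; decide
    obtain ⟨i, hi⟩ := (hbit j).mp hj
    exact ⟨i, Fin.ext hi⟩
  have hbij : Function.Bijective g := ⟨Finite.injective_iff_surjective.mpr hsurj, hsurj⟩
  exact ⟨Equiv.ofBijective g hbij, fun i => rfl⟩

/-! ### Leaves -/

theorem allE_spec {p m : ℕ} : ∀ {E : List (ℕ × ℕ)}, allE p m E = true →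
    ∀ q ∈ E, tb m (eid (pe p q.1) (pe p q.2)) = true := by
  intro E
  induction E with
  | nil => intro _ q hq; simp at hq
  | cons e E ih =>
    intro h q hq
    unfold allE at h
    cases ht : tb m (eid (pe p e.1) (pe p e.2)) with
    | false => rw [ht] at h; exact Bool.noConfusion h
    | true =>
      rw [ht] at h
      rcases List.mem_cons.mp hq with rfl | hq
      · exact ht
      · exact ih h q hq

theorem leaf_sound {Ty : List Typ} (hTy : Ty.all certOK = true) {t p m : ℕ}
    (h : leafOK Ty t p m = true) {C : ℕ → Bool} (hC : Good C) (col : Bool)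
    (hm : ∀ k, tb m k = true → C k = col) : False := by
  unfold leafOK at h
  cases hT : Ty[t]? with
  | none => rw [hT] at h; exact Bool.noConfusion h
  | some T =>
    rw [hT] at h
    have hTm : T ∈ Ty := List.mem_of_getElem? hT
    have hcert : certOK T = true := List.all_eq_true.mp hTy T hTm
    cases hp : permOK p with
    | false => simp only [hp] at h; exact Bool.noConfusion h
    | true =>
      simp only [hp] at h
      obtain ⟨σ, hσ⟩ := perm_spec hp
      obtain ⟨lab, hlab⟩ := hC σ
      refine typ_sound T hcert (prm σ C) lab ?_ col ?_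
      · intro a b x y hab hxy h1 h2 h3 h4 hc
        refine hlab a b x y hab hxy h1 h2 h3 h4 ?_
        rw [prm_eid σ C hab.ne, prm_eid σ C hxy.ne] at hc
        exact hc
      · rintro ⟨x, y⟩ hq hxy hy
        simp only at hxy hy ⊢
        have hx : x < 9 := by omega
        have e := prm_eid σ C (a := ⟨x, hx⟩) (b := ⟨y, hy⟩) (by
          intro he
          have := congrArg Fin.val he
          simp only at this
          omega)
        rw [hσ, hσ] at e
        simp only at e
        rw [e]
        exact hm _ (allE_spec h _ hq)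

/-- the colouring `C` is false on `m0` and true on `m1` -/
def Agr (C : ℕ → Bool) (m0 m1 : ℕ) : Prop :=
  (∀ k, tb m0 k = true → C k = false) ∧ (∀ k, tb m1 k = true → C k = true)

theorem tb_lor (a e k : ℕ) (h : tb (Nat.lor a (Nat.shiftLeft 1 e)) k = true) :
    tb a k = true ∨ k = e := by
  rw [tb_eq] at h ⊢
  have h1 : Nat.lor a (Nat.shiftLeft 1 e) = a ||| 2 ^ e := by
    have : Nat.shiftLeft 1 e = 2 ^ e := Nat.one_shiftLeft e
    rw [this]; rfl
  rw [h1, Nat.testBit_or, Bool.or_eq_true, Nat.testBit_two_pow] at h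
  rcases h with h | h
  · exact Or.inl h
  · right
    exact (by simpa using h : e = k).symm

theorem nm_spec (p m : ℕ) : ∀ (E : List (ℕ × ℕ)) (k : ℕ), tb (nm p m E) k = true →
    ∃ e ∈ E, k = eid e.1 e.2 ∧ tb m (eid (pe p e.1) (pe p e.2)) = true := by
  intro E
  induction E with
  | nil =>
    intro k h
    rw [tb_eq] at h
    simp [nm] at h
  | cons e E ih =>
    intro k h
    unfold nm at h
    cases ht : tb m (eid (pe p e.1) (pe p e.2)) with
    | false =>
      rw [ht] at h
      obtain ⟨e', he', h1, h2⟩ := ih k h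
      exact ⟨e', List.mem_cons_of_mem _ he', h1, h2⟩
    | true =>
      rw [ht] at h
      have h' : tb (Nat.lor (nm p m E) (Nat.shiftLeft 1 (eid e.1 e.2))) k = true := by
        have hc : Nat.lor (nm p m E) (Nat.shiftLeft 1 (eid e.1 e.2)) =
            Nat.lor (Nat.shiftLeft 1 (eid e.1 e.2)) (nm p m E) := Nat.or_comm _ _
        rw [hc]; exact h
      rcases tb_lor _ _ _ h' with h1 | h1
      · obtain ⟨e', he', h1, h2⟩ := ih k h1
        exact ⟨e', List.mem_cons_of_mem _ he', h1, h2⟩
      · exact ⟨e, List.mem_cons_self, h1, ht⟩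

theorem prs_spec {N : ℕ} {e : ℕ × ℕ} (h : e ∈ prs N) : e.1 < e.2 ∧ e.2 < N := by
  unfold prs at h
  rw [List.mem_flatMap] at h
  obtain ⟨j, hj, hi⟩ := h
  rw [List.mem_map] at hi
  obtain ⟨i, hi, rfl⟩ := hi
  rw [List.mem_range] at hi hj
  exact ⟨hi, hj⟩

theorem mem1_spec {r : ℕ} : ∀ {L : List (ℕ × ℕ)}, mem1 r L = true → ∃ q ∈ L, q.1 = r := by
  intro L
  induction L with
  | nil => intro h; exact Bool.noConfusion h
  | cons q L ih =>
    intro h
    unfold mem1 at h
    cases hb : Nat.beq q.1 r with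
    | true => exact ⟨q, List.mem_cons_self, Nat.eq_of_beq_eq_true hb⟩
    | false =>
      rw [hb] at h
      obtain ⟨q', hq', h'⟩ := ih h
      exact ⟨q', List.mem_cons_of_mem _ hq', h'⟩

theorem nm_agr {N p m : ℕ} (hN : N ≤ 9) (σ : Equiv.Perm (Fin 9))
    (hσ : ∀ i : Fin 9, ((σ i : Fin 9) : ℕ) = pe p i) (C : ℕ → Bool) (col : Bool)
    (hm : ∀ k, tb m k = true → C k = col) :
    ∀ k, tb (nm p m (prs N)) k = true → prm σ C k = col := by
  intro k hk
  obtain ⟨⟨x, y⟩, he, rfl, ht⟩ := nm_spec _ _ _ _ hk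
  obtain ⟨h1, h2⟩ := prs_spec he
  simp only at h1 h2 ht ⊢
  have hx : x < 9 := by omega
  have hy : y < 9 := by omega
  have e := prm_eid σ C (a := ⟨x, hx⟩) (b := ⟨y, hy⟩) (by
    intro he
    have := congrArg Fin.val he
    simp only at this
    omega)
  rw [hσ, hσ] at e
  simp only at e
  rw [e]
  exact hm _ ht

theorem iso_sound {N : ℕ} (hN : N ≤ 9) {L : List (ℕ × ℕ)} {p m m' : ℕ}
    (h : isoOK N L p m m' = true) {C : ℕ → Bool} (hC : Good C) (hA : Agr C m m') :
    ∃ C', Good C' ∧ ∃ q ∈ L, Agr C' q.1 (Nat.xor (fullm N) q.1) := by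
  unfold isoOK at h
  cases hp : permOK p with
  | false => rw [hp] at h; exact Bool.noConfusion h
  | true =>
    rw [hp] at h
    obtain ⟨σ, hσ⟩ := perm_spec hp
    cases hb : Nat.beq (nm p m' (prs N)) (Nat.xor (fullm N) (nm p m (prs N))) with
    | false => simp only [hb] at h; exact Bool.noConfusion h
    | true =>
      simp only [hb] at h
      have hb' := Nat.eq_of_beq_eq_true hb
      obtain ⟨q, hq, hq1⟩ := mem1_spec h
      refine ⟨prm σ C, good_prm hC σ, q, hq, ?_, ?_⟩
      · rw [hq1]
        exact nm_agr hN σ hσ C false hA.1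
      · rw [hq1, ← hb']
        exact nm_agr hN σ hσ C true hA.2

theorem go_sound {Ty : List Typ} (hTy : Ty.all certOK = true) {N : ℕ} (hN : N ≤ 9)
    (L : List (ℕ × ℕ)) : ∀ (f code m0 m1 r : ℕ), go Ty N L f code m0 m1 = some r →
      ∀ C : ℕ → Bool, Good C → Agr C m0 m1 →
      ∃ C', Good C' ∧ ∃ q ∈ L, Agr C' q.1 (Nat.xor (fullm N) q.1) := by
  intro f
  induction f with
  | zero => intro code m0 m1 r h; unfold go at h; exact absurd h (by simp)
  | succ f ih =>
    intro code m0 m1 r h C hC hA
    unfold go at h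
    cases c1 : Nat.beq (Nat.mod code 4) 0 with
    | true =>
      simp only [c1, cond_true] at h
      set e := Nat.mod (Nat.div code 4) 64 with he
      cases hg : go Ty N L f (Nat.div code 256) (Nat.lor m0 (Nat.shiftLeft 1 e)) m1 with
      | none => rw [hg] at h; exact absurd h (by simp)
      | some code' =>
        rw [hg] at h
        simp only at h
        cases hc : C e with
        | false =>
          refine ih _ _ _ _ hg C hC ⟨?_, hA.2⟩
          intro k hk
          rcases tb_lor _ _ _ hk with h1 | h1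
          · exact hA.1 k h1
          · rw [h1]; exact hc
        | true =>
          refine ih _ _ _ _ h C hC ⟨hA.1, ?_⟩
          intro k hk
          rcases tb_lor _ _ _ hk with h1 | h1
          · exact hA.2 k h1
          · rw [h1]; exact hc
    | false =>
      simp only [c1, cond_false] at h
      cases c2 : Nat.beq (Nat.mod code 4) 1 with
      | true =>
        simp only [c2, cond_true] at h
        exfalso
        cases c3 : Nat.beq (Nat.mod (Nat.div code 4) 2) 0 with
        | true =>
          simp only [c3, cond_true] at h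
          cases c4 : leafOK Ty (Nat.mod (Nat.div code 8) 64)
              (Nat.mod (Nat.div code 512) 68719476736) m0 with
          | false => rw [c4] at h; exact absurd h (by simp)
          | true => exact leaf_sound hTy c4 hC false hA.1
        | false =>
          simp only [c3, cond_false] at h
          cases c4 : leafOK Ty (Nat.mod (Nat.div code 8) 64)
              (Nat.mod (Nat.div code 512) 68719476736) m1 with
          | false => rw [c4] at h; exact absurd h (by simp)
          | true => exact leaf_sound hTy c4 hC true hA.2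
      | false =>
        simp only [c2, cond_false] at h
        cases c3 : Nat.beq (Nat.mod (Nat.div code 4) 2) 0 with
        | true =>
          simp only [c3, cond_true] at h
          cases c4 : isoOK N L (Nat.mod (Nat.div code 8) 68719476736) m0 m1 with
          | false => rw [c4] at h; exact absurd h (by simp)
          | true => exact iso_sound hN c4 hC hA
        | false =>
          simp only [c3, cond_false] at h
          cases c4 : isoOK N L (Nat.mod (Nat.div code 8) 68719476736) m1 m0 with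
          | false => rw [c4] at h; exact absurd h (by simp)
          | true =>
            refine iso_sound hN c4 (good_not hC) ⟨?_, ?_⟩
            · intro k hk; simp [hA.2 k hk]
            · intro k hk; simp [hA.1 k hk]

theorem level {Ty : List Typ} (hTy : Ty.all certOK = true) {n N : ℕ} (hN : N ≤ 9)
    (L : List (ℕ × ℕ)) : ∀ (D : List (ℕ × ℕ)), runL Ty n N L D = true →
    (∃ C, Good C ∧ ∃ q ∈ D, Agr C q.1 (Nat.xor (fullm n) q.1)) →
    ∃ C, Good C ∧ ∃ q ∈ L, Agr C q.1 (Nat.xor (fullm N) q.1) := by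
  intro D h
  have key : ∀ q ∈ D, ∃ r, go Ty N L 40 q.2 q.1 (Nat.xor (fullm n) q.1) = some r := by
    induction D with
    | nil => intro q hq; simp at hq
    | cons q' D ih =>
      unfold runL at h
      cases hg : (go Ty N L 40 q'.2 q'.1 (Nat.xor (fullm n) q'.1)).isSome with
      | false => rw [hg] at h; exact Bool.noConfusion h
      | true =>
        rw [hg] at h
        intro q hq
        rcases List.mem_cons.mp hq with rfl | hq
        · exact Option.isSome_iff_exists.mp hg
        · exact ih h q hq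
  rintro ⟨C, hC, q, hq, hA⟩
  obtain ⟨r, hr⟩ := key q hq
  exact go_sound hTy hN L 40 q.2 q.1 _ r hr C hC hA

theorem no_good (C : ℕ → Bool) : ¬ Good C := by
  intro hC
  have h1 : ∃ C, Good C ∧ ∃ q ∈ lev1, Agr C q.1 (Nat.xor (fullm 1) q.1) := by
    refine ⟨C, hC, lev1.head (by decide), List.head_mem _, ?_, ?_⟩
    · intro k hk
      have : (lev1.head (by decide)).1 = 0 := rfl
      rw [this, tb_eq] at hk
      simp at hk
    · intro k hk
      have : (Nat.xor (fullm 1) (lev1.head (by decide)).1) = 0 := by decide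
      rw [this, tb_eq] at hk
      simp at hk
  have h2 := level run_types (by norm_num) lev2 lev1 run1 h1
  have h3 := level run_types (by norm_num) lev3 lev2 run2 h2
  have h4 := level run_types (by norm_num) lev4 lev3 run3 h3
  have h5 := level run_types (by norm_num) lev5 lev4 run4 h4
  have h6 := level run_types (by norm_num) lev6 lev5 run5 h5
  obtain ⟨C7, hC7, q, hq, hA⟩ := level run_types (by norm_num) lev7 lev6 run6 h6
  have fin : ∀ D : List (ℕ × ℕ), runL types 7 9 [] D = true → q ∈ D → False := by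
    intro D hD hqD
    obtain ⟨_, _, q', hq', _⟩ := level run_types (by norm_num) [] D hD ⟨C7, hC7, q, hqD, hA⟩
    simp at hq'
  unfold lev7 at hq
  simp only [List.mem_append] at hq
  rcases hq with h | h | h | h | h | h | h | h | h | h | h | h | h | h | h
  · exact fin _ runf0 h
  · exact fin _ runf1 h
  · exact fin _ runf2 h
  · exact fin _ runf3 h
  · exact fin _ runf4 h
  · exact fin _ runf5 h
  · exact fin _ runf6 h
  · exact fin _ runf7 h
  · exact fin _ runf8 h
  · exact fin _ runf9 h
  · exact fin _ runf10 h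
  · exact fin _ runf11 h
  · exact fin _ runf12 h
  · exact fin _ runf13 h
  · exact fin _ runf14 h

end Pool.Agent.L5helper35.K9
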