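import Pool.Agent.L5helper35.K9Sound
import Pool.Agent.L5helper35.K9Draw

/-! The complete graph on nine vertices has no biplanar drawing without crossings. -/

namespace Pool.Agent.L5helper35.K9T

open Pool.Agent.Helper770.VanKampen Pool.Agent.L5helper35.K9

/-- A colouring of the edges of `K₉` whose two colour classes can be drawn without crossings. The
class `i` is drawn with the help of the arcs `γ i`. -/
theorem no_biplanar (c : Fin 9 → Fin 9 → Fin 2) (hsym : ∀ u v, u ≠ v → c u v = c v u)
    (p : Fin 2 → Fin 9 → ℂ) (hp : ∀ i, Function.Injective (p i))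
    (γ : Fin 2 → Fin 9 → Fin 9 → ℝ → ℂ)
    (hcont : ∀ i u v, u ≠ v → c u v = i → ContinuousOn (γ i u v) (Set.Icc (0:ℝ) 1))
    (h0 : ∀ i u v, u ≠ v → c u v = i → γ i u v 0 = p i u)
    (h1 : ∀ i u v, u ≠ v → c u v = i → γ i u v 1 = p i v)
    (hav : ∀ i u v, u ≠ v → c u v = i → ∀ t : ℝ, 0 < t → t < 1 → ∀ w, γ i u v t ≠ p i w)
    (hx : ∀ i u v x y, u ≠ v → x ≠ y → u ≠ x → u ≠ y → v ≠ x → v ≠ y → c u v = i → c x y = i →
      ∀ s t : ℝ, 0 < s → s < 1 → 0 < t → t < 1 → γ i u v s ≠ γ i x y t) : False := by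
  classical
  let C : ℕ → Bool := fun k => decide (∃ a b : Fin 9, a < b ∧ eid a b = k ∧ c a b = 1)
  have hC : ∀ a b : Fin 9, a ≠ b → (C (eid a b) = true ↔ c a b = 1) := by
    intro a b hab
    wlog h : a < b generalizing a b
    · rw [eid_comm, hsym a b hab]
      exact this b a hab.symm (lt_of_le_of_ne (not_lt.mp h) hab.symm)
    · simp only [C, decide_eq_true_eq]
      constructor
      · rintro ⟨x, y, hxy, he, h1⟩
        obtain ⟨rfl, rfl⟩ := eid_inj _ _ _ _ hxy h he
        exact h1
      · intro h1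
        exact ⟨a, b, h, rfl, h1⟩
  have hC' : ∀ a b x y : Fin 9, a ≠ b → x ≠ y → C (eid a b) = C (eid x y) → c a b = c x y := by
    intro a b x y hab hxy h
    have e1 := hC a b hab
    have e2 := hC x y hxy
    rw [h] at e1
    have e3 : c a b = 1 ↔ c x y = 1 := e1.symm.trans e2
    revert e3
    generalize c a b = q
    generalize c x y = r
    revert q r
    decide
  apply no_good C
  intro σ
  -- the projection to the unit interval
  let pr : ℝ → ℝ := fun t => max 0 (min 1 t)
  have prc : Continuous pr := by fun_prop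
  have pr0 : ∀ t, 0 ≤ pr t := fun t => le_max_left _ _
  have pr1 : ∀ t, pr t ≤ 1 := fun t => max_le zero_le_one (min_le_left _ _)
  have prz : pr 0 = 0 := by simp [pr]
  have pro : pr 1 = 1 := by simp [pr]
  have pcase : ∀ t, pr t = 0 ∨ pr t = 1 ∨ (0 < pr t ∧ pr t < 1) := by
    intro t
    rcases eq_or_lt_of_le (pr0 t) with h | h
    · exact Or.inl h.symm
    · rcases eq_or_lt_of_le (pr1 t) with h' | h'
      · exact Or.inr (Or.inl h')
      · exact Or.inr (Or.inr ⟨h, h'⟩)
  have key : ∀ i : Fin 2, ∃ m : Fin 9 → Fin 9 → Fin 9 → ZMod 2, ∀ a b x y : Fin 9, a < b → x < y →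
      c (σ a) (σ b) = i → c (σ x) (σ y) = i → a ≠ x → a ≠ y → b ≠ x → b ≠ y →
      beta a b x y = m a b x + m a b y + m x y a + m x y b := by
    intro i
    obtain ⟨m, hm⟩ := exists_labels (fun v => p i (σ v)) (fun u v h => σ.injective (hp i h))
      (fun a b => c (σ a) (σ b) = i) (fun a b t => γ i (σ a) (σ b) (pr t))
      (by
        intro a b hab hE
        exact (hcont i _ _ (σ.injective.ne hab.ne) hE).comp_continuous prc
          (fun t => ⟨pr0 t, pr1 t⟩))
      (by
        intro a b hab hE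
        simp only [prz]
        exact h0 i _ _ (σ.injective.ne hab.ne) hE)
      (by
        intro a b hab hE
        simp only [pro]
        exact h1 i _ _ (σ.injective.ne hab.ne) hE)
      (by
        intro a b x hab hE hxa hxb t
        have hne := σ.injective.ne hab.ne
        rcases pcase t with h | h | h
        · simp only [h, h0 i _ _ hne hE]
          exact (hp i).ne (σ.injective.ne hxa.symm)
        · simp only [h, h1 i _ _ hne hE]
          exact (hp i).ne (σ.injective.ne hxb.symm)
        · exact hav i _ _ hne hE _ h.1 h.2 _)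
    refine ⟨m, fun a b x y hab hxy hE1 hE2 n1 n2 n3 n4 => hm a b x y hab hxy hE1 hE2 n1 n2 n3 n4 ?_⟩
    intro s t
    have hne1 := σ.injective.ne hab.ne
    have hne2 := σ.injective.ne hxy.ne
    have k1 := σ.injective.ne n1
    have k2 := σ.injective.ne n2
    have k3 := σ.injective.ne n3
    have k4 := σ.injective.ne n4
    rcases pcase s with h | h | h
    · rcases pcase t with h' | h' | h'
      · simp only [h, h', h0 i _ _ hne1 hE1, h0 i _ _ hne2 hE2]
        exact (hp i).ne k1
      · simp only [h, h', h0 i _ _ hne1 hE1, h1 i _ _ hne2 hE2]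
        exact (hp i).ne k2
      · simp only [h, h0 i _ _ hne1 hE1]
        exact fun he => hav i _ _ hne2 hE2 _ h'.1 h'.2 _ he.symm
    · rcases pcase t with h' | h' | h'
      · simp only [h, h', h1 i _ _ hne1 hE1, h0 i _ _ hne2 hE2]
        exact (hp i).ne k3
      · simp only [h, h', h1 i _ _ hne1 hE1, h1 i _ _ hne2 hE2]
        exact (hp i).ne k4
      · simp only [h, h1 i _ _ hne1 hE1]
        exact fun he => hav i _ _ hne2 hE2 _ h'.1 h'.2 _ he.symm
    · rcases pcase t with h' | h' | h'
      · simp only [h', h0 i _ _ hne2 hE2]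
        exact hav i _ _ hne1 hE1 _ h.1 h.2 _
      · simp only [h', h1 i _ _ hne2 hE2]
        exact hav i _ _ hne1 hE1 _ h.1 h.2 _
      · exact hx i _ _ _ _ hne1 hne2 k1 k2 k3 k4 hE1 hE2 _ _ h.1 h.2 h'.1 h'.2
  choose m hm using key
  refine ⟨fun a b x => m (c (σ a) (σ b)) a b x, ?_⟩
  intro a b x y hab hxy n1 n2 n3 n4 hc
  have hc' := hC' _ _ _ _ (σ.injective.ne hab.ne) (σ.injective.ne hxy.ne) hc
  have := hm (c (σ a) (σ b)) a b x y hab hxy rfl hc'.symm n1 n2 n3 n4
  simp only [this, hc']

end Pool.Agent.L5helper35.K9T
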