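import Pool.Agent.L5helper35.K9Core

/-! Data for the proof that the complete graph on nine vertices is not biplanar. -/

namespace Pool.Agent.L5helper35.K9

def ty0 : List (ℕ × ℕ) × List (ℕ × ℕ × ℕ × ℕ) := (
  [(0, 1), (0, 2), (1, 2), (0, 3), (1, 3), (2, 3), (0, 4), (1, 4), (2, 4), (3, 4)],
  [(0, 1, 2, 3), (0, 1, 2, 4), (0, 1, 3, 4), (0, 2, 1, 3), (0, 2, 1, 4), (0, 2, 3, 4),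
  (1, 2, 0, 3), (1, 2, 0, 4), (1, 2, 3, 4), (0, 3, 1, 4), (0, 3, 2, 4), (1, 3, 0, 4),
  (1, 3, 2, 4), (2, 3, 0, 4), (2, 3, 1, 4)])

def ty1 : List (ℕ × ℕ) × List (ℕ × ℕ × ℕ × ℕ) := (
  [(0, 2), (1, 2), (0, 3), (1, 3), (0, 4), (1, 4), (2, 5), (3, 5), (4, 5)],
  [(0, 2, 1, 3), (0, 2, 1, 4), (0, 2, 3, 5), (0, 2, 4, 5), (1, 2, 0, 3), (1, 2, 0, 4),
  (1, 2, 3, 5), (1, 2, 4, 5), (0, 3, 1, 4), (0, 3, 2, 5), (0, 3, 4, 5), (1, 3, 0, 4),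
  (1, 3, 2, 5), (1, 3, 4, 5), (0, 4, 2, 5), (0, 4, 3, 5), (1, 4, 2, 5), (1, 4, 3, 5)])

def ty2 : List (ℕ × ℕ) × List (ℕ × ℕ × ℕ × ℕ) := (
  [(0, 1), (0, 2), (1, 2), (0, 3), (1, 3), (2, 3), (0, 4), (1, 4), (2, 4), (3, 5), (4, 5)],
  [(0, 1, 2, 3), (0, 1, 2, 4), (0, 1, 3, 5), (0, 1, 4, 5), (0, 2, 1, 3), (0, 2, 1, 4),
  (0, 2, 3, 5), (0, 2, 4, 5), (1, 2, 0, 3), (1, 2, 0, 4), (1, 2, 3, 5), (1, 2, 4, 5),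
  (0, 3, 1, 4), (0, 3, 2, 4), (1, 3, 0, 4), (1, 3, 2, 4), (2, 3, 0, 4), (2, 3, 1, 4)])

def ty3 : List (ℕ × ℕ) × List (ℕ × ℕ × ℕ × ℕ) := (
  [(0, 1), (0, 2), (1, 3), (2, 3), (1, 4), (2, 4), (3, 4), (2, 5), (1, 6), (3, 6), (4, 6), (5, 6)],
  [(0, 1, 3, 4), (0, 1, 3, 6), (0, 1, 4, 6), (0, 2, 3, 4), (0, 2, 3, 6), (0, 2, 4, 6),
  (1, 3, 2, 4), (1, 3, 2, 5), (1, 3, 4, 6), (1, 3, 5, 6), (2, 3, 1, 4), (2, 3, 1, 6),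
  (2, 3, 4, 6), (1, 4, 2, 5), (1, 4, 3, 6), (1, 4, 5, 6), (2, 4, 1, 6), (2, 4, 3, 6),
  (3, 4, 2, 5), (3, 4, 1, 6), (3, 4, 5, 6)])

def ty4 : List (ℕ × ℕ) × List (ℕ × ℕ × ℕ × ℕ) := (
  [(0, 3), (1, 3), (2, 3), (0, 4), (1, 4), (2, 4), (1, 5), (2, 5), (0, 6), (5, 6)],
  [(0, 3, 1, 4), (0, 3, 2, 4), (0, 3, 1, 5), (0, 3, 2, 5), (1, 3, 0, 4), (1, 3, 2, 4),
  (1, 3, 2, 5), (1, 3, 0, 6), (1, 3, 5, 6), (2, 3, 0, 4), (2, 3, 1, 4), (2, 3, 1, 5),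
  (2, 3, 0, 6), (2, 3, 5, 6), (0, 4, 1, 5), (0, 4, 2, 5), (1, 4, 2, 5), (1, 4, 0, 6),
  (1, 4, 5, 6), (2, 4, 1, 5), (2, 4, 0, 6), (2, 4, 5, 6)])

def ty5 : List (ℕ × ℕ) × List (ℕ × ℕ × ℕ × ℕ) := (
  [(0, 1), (0, 2), (1, 3), (2, 3), (0, 4), (1, 4), (2, 4), (0, 5), (1, 5), (2, 5), (4, 6), (5, 6)],
  [(0, 1, 2, 4), (0, 1, 2, 5), (0, 1, 4, 6), (0, 1, 5, 6), (0, 2, 1, 4), (0, 2, 1, 5),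
  (0, 2, 4, 6), (0, 2, 5, 6), (1, 3, 0, 4), (1, 3, 0, 5), (1, 3, 4, 6), (1, 3, 5, 6),
  (2, 3, 0, 4), (2, 3, 0, 5), (2, 3, 4, 6), (2, 3, 5, 6), (0, 4, 1, 5), (0, 4, 2, 5),
  (1, 4, 0, 5), (1, 4, 2, 5), (2, 4, 0, 5), (2, 4, 1, 5)])

def ty6 : List (ℕ × ℕ) × List (ℕ × ℕ × ℕ × ℕ) := (
  [(0, 1), (2, 3), (1, 4), (2, 4), (3, 4), (0, 5), (2, 5), (3, 5), (2, 6), (3, 6), (4, 6), (5, 6)],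
  [(0, 1, 2, 3), (0, 1, 2, 6), (0, 1, 3, 6), (2, 3, 1, 4), (2, 3, 0, 5), (2, 3, 4, 6),
  (2, 3, 5, 6), (1, 4, 2, 6), (1, 4, 3, 6), (2, 4, 3, 5), (2, 4, 3, 6), (2, 4, 5, 6),
  (3, 4, 2, 5), (3, 4, 2, 6), (3, 4, 5, 6), (0, 5, 2, 6), (0, 5, 3, 6), (2, 5, 3, 6),
  (2, 5, 4, 6), (3, 5, 2, 6), (3, 5, 4, 6)])

def ty7 : List (ℕ × ℕ) × List (ℕ × ℕ × ℕ × ℕ) := (
  [(1, 2), (2, 3), (0, 4), (1, 4), (3, 4), (0, 5), (1, 5), (3, 5), (0, 7), (2, 8), (7, 8)],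
  [(1, 2, 0, 4), (1, 2, 3, 4), (1, 2, 0, 5), (1, 2, 3, 5), (2, 3, 0, 4), (2, 3, 1, 4),
  (2, 3, 0, 5), (2, 3, 1, 5), (0, 4, 1, 5), (0, 4, 3, 5), (1, 4, 0, 5), (1, 4, 3, 5),
  (1, 4, 0, 7), (1, 4, 2, 8), (1, 4, 7, 8), (3, 4, 0, 5), (3, 4, 1, 5), (3, 4, 0, 7),
  (3, 4, 2, 8), (3, 4, 7, 8), (1, 5, 0, 7), (1, 5, 2, 8), (1, 5, 7, 8), (3, 5, 0, 7),
  (3, 5, 2, 8), (3, 5, 7, 8)])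

def ty8 : List (ℕ × ℕ) × List (ℕ × ℕ × ℕ × ℕ) := (
  [(0, 1), (0, 2), (1, 3), (2, 6), (3, 6), (5, 6), (2, 7), (3, 7), (0, 8), (5, 8), (7, 8)],
  [(0, 1, 2, 6), (0, 1, 5, 6), (0, 1, 2, 7), (0, 1, 5, 8), (0, 1, 7, 8), (0, 2, 3, 6),
  (0, 2, 5, 6), (0, 2, 3, 7), (0, 2, 5, 8), (0, 2, 7, 8), (1, 3, 2, 6), (1, 3, 5, 6),
  (1, 3, 2, 7), (1, 3, 5, 8), (1, 3, 7, 8), (2, 6, 3, 7), (2, 6, 0, 8), (2, 6, 7, 8),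
  (3, 6, 2, 7), (3, 6, 0, 8), (3, 6, 7, 8), (5, 6, 2, 7), (5, 6, 3, 7), (2, 7, 0, 8),
  (2, 7, 5, 8), (3, 7, 0, 8), (3, 7, 5, 8)])

def ty9 : List (ℕ × ℕ) × List (ℕ × ℕ × ℕ × ℕ) := (
  [(0, 1), (0, 2), (0, 6), (3, 6), (5, 6), (1, 7), (2, 7), (3, 7), (1, 8), (2, 8), (5, 8)],
  [(0, 1, 3, 6), (0, 1, 5, 6), (0, 1, 2, 7), (0, 1, 3, 7), (0, 1, 2, 8), (0, 1, 5, 8),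
  (0, 2, 3, 6), (0, 2, 5, 6), (0, 2, 1, 7), (0, 2, 3, 7), (0, 2, 1, 8), (0, 2, 5, 8),
  (0, 6, 1, 7), (0, 6, 2, 7), (0, 6, 1, 8), (0, 6, 2, 8), (3, 6, 1, 8), (3, 6, 2, 8),
  (5, 6, 1, 7), (5, 6, 2, 7), (1, 7, 2, 8), (1, 7, 5, 8), (2, 7, 1, 8), (2, 7, 5, 8),
  (3, 7, 1, 8), (3, 7, 2, 8)])

def ty10 : List (ℕ × ℕ) × List (ℕ × ℕ × ℕ × ℕ) := (
  [(0, 1), (0, 2), (1, 3), (0, 6), (4, 6), (5, 6), (2, 7), (3, 7), (4, 7), (2, 8), (3, 8), (5, 8)],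
  [(0, 1, 4, 6), (0, 1, 5, 6), (0, 1, 2, 7), (0, 1, 4, 7), (0, 1, 2, 8), (0, 1, 5, 8),
  (0, 2, 4, 6), (0, 2, 5, 6), (0, 2, 3, 7), (0, 2, 4, 7), (0, 2, 3, 8), (0, 2, 5, 8),
  (1, 3, 4, 6), (1, 3, 5, 6), (1, 3, 2, 7), (1, 3, 4, 7), (1, 3, 2, 8), (1, 3, 5, 8),
  (0, 6, 2, 7), (0, 6, 3, 7), (0, 6, 2, 8), (0, 6, 3, 8), (4, 6, 2, 8), (4, 6, 3, 8),
  (5, 6, 2, 7), (5, 6, 3, 7), (2, 7, 3, 8), (2, 7, 5, 8), (3, 7, 2, 8), (3, 7, 5, 8),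
  (4, 7, 2, 8), (4, 7, 3, 8)])

def ty11 : List (ℕ × ℕ) × List (ℕ × ℕ × ℕ × ℕ) := (
  [(0, 1), (0, 2), (0, 3), (1, 3), (2, 3), (1, 4), (2, 4), (3, 4), (0, 6), (1, 7), (2, 7), (4, 8), (6, 8)],
  [(0, 1, 2, 3), (0, 1, 2, 4), (0, 1, 3, 4), (0, 2, 1, 3), (0, 2, 1, 4), (0, 2, 3, 4),
  (0, 3, 1, 4), (0, 3, 2, 4), (0, 3, 1, 7), (0, 3, 2, 7), (1, 3, 2, 4), (1, 3, 0, 6),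
  (1, 3, 4, 8), (1, 3, 6, 8), (2, 3, 1, 4), (2, 3, 0, 6), (2, 3, 4, 8), (2, 3, 6, 8),
  (3, 4, 1, 7), (3, 4, 2, 7), (0, 6, 1, 7), (0, 6, 2, 7), (1, 7, 4, 8), (1, 7, 6, 8),
  (2, 7, 4, 8), (2, 7, 6, 8)])

def ty12 : List (ℕ × ℕ) × List (ℕ × ℕ × ℕ × ℕ) := (
  [(1, 2), (0, 4), (1, 5), (4, 5), (2, 6), (3, 6), (4, 6), (3, 7), (5, 7), (0, 8), (2, 8), (7, 8)],
  [(1, 2, 0, 4), (1, 2, 3, 6), (1, 2, 4, 6), (1, 2, 3, 7), (1, 2, 0, 8), (1, 2, 7, 8),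
  (0, 4, 1, 5), (0, 4, 2, 6), (0, 4, 3, 6), (0, 4, 3, 7), (0, 4, 5, 7), (1, 5, 3, 6),
  (1, 5, 4, 6), (1, 5, 3, 7), (1, 5, 0, 8), (1, 5, 7, 8), (4, 5, 2, 6), (4, 5, 3, 6),
  (4, 5, 3, 7), (4, 5, 2, 8), (4, 5, 7, 8), (2, 6, 5, 7), (2, 6, 0, 8), (2, 6, 7, 8),
  (3, 6, 0, 8), (3, 6, 2, 8), (4, 6, 5, 7), (4, 6, 2, 8), (4, 6, 7, 8), (3, 7, 0, 8),
  (3, 7, 2, 8), (5, 7, 0, 8), (5, 7, 2, 8)])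

def ty13 : List (ℕ × ℕ) × List (ℕ × ℕ × ℕ × ℕ) := (
  [(1, 2), (0, 4), (1, 5), (4, 5), (1, 6), (3, 6), (4, 6), (2, 7), (3, 7), (5, 7), (0, 8), (2, 8)],
  [(1, 2, 4, 5), (1, 2, 3, 6), (1, 2, 4, 6), (1, 2, 3, 7), (1, 2, 5, 7), (0, 4, 1, 5),
  (0, 4, 1, 6), (0, 4, 3, 6), (0, 4, 3, 7), (0, 4, 5, 7), (1, 5, 3, 6), (1, 5, 4, 6),
  (1, 5, 2, 7), (1, 5, 3, 7), (1, 5, 0, 8), (1, 5, 2, 8), (4, 5, 1, 6), (4, 5, 3, 6),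
  (4, 5, 2, 7), (4, 5, 3, 7), (1, 6, 2, 7), (1, 6, 5, 7), (1, 6, 0, 8), (1, 6, 2, 8),
  (3, 6, 0, 8), (3, 6, 2, 8), (4, 6, 2, 7), (4, 6, 5, 7), (3, 7, 0, 8), (3, 7, 2, 8),
  (5, 7, 0, 8), (5, 7, 2, 8)])

def ty14 : List (ℕ × ℕ) × List (ℕ × ℕ × ℕ × ℕ) := (
  [(1, 2), (0, 4), (0, 5), (1, 5), (1, 6), (3, 6), (4, 6), (0, 7), (2, 7), (2, 8), (3, 8), (5, 8)],
  [(1, 2, 0, 4), (1, 2, 0, 5), (1, 2, 3, 6), (1, 2, 4, 6), (1, 2, 3, 8), (1, 2, 5, 8),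
  (0, 4, 1, 5), (0, 4, 2, 8), (0, 4, 5, 8), (0, 5, 1, 6), (0, 5, 3, 6), (0, 5, 2, 8),
  (0, 5, 3, 8), (1, 5, 3, 6), (1, 5, 4, 6), (1, 5, 0, 7), (1, 5, 2, 7), (1, 5, 2, 8),
  (1, 5, 3, 8), (1, 6, 0, 7), (1, 6, 2, 7), (1, 6, 2, 8), (1, 6, 5, 8), (3, 6, 0, 7),
  (3, 6, 2, 7), (4, 6, 2, 8), (4, 6, 5, 8), (0, 7, 3, 8), (0, 7, 5, 8), (2, 7, 3, 8),
  (2, 7, 5, 8)])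

def ty15 : List (ℕ × ℕ) × List (ℕ × ℕ × ℕ × ℕ) := (
  [(0, 3), (2, 3), (1, 4), (3, 4), (0, 5), (2, 5), (4, 5), (0, 6), (1, 7), (6, 7), (2, 8), (6, 8)],
  [(0, 3, 1, 4), (0, 3, 2, 5), (0, 3, 4, 5), (0, 3, 1, 7), (0, 3, 6, 7), (0, 3, 2, 8),
  (0, 3, 6, 8), (2, 3, 1, 4), (2, 3, 0, 5), (2, 3, 4, 5), (2, 3, 0, 6), (2, 3, 1, 7),
  (2, 3, 6, 7), (1, 4, 0, 5), (1, 4, 2, 5), (3, 4, 0, 5), (3, 4, 2, 5), (3, 4, 0, 6),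
  (3, 4, 2, 8), (3, 4, 6, 8), (0, 5, 1, 7), (0, 5, 6, 7), (0, 5, 2, 8), (0, 5, 6, 8),
  (2, 5, 0, 6), (2, 5, 1, 7), (2, 5, 6, 7), (4, 5, 0, 6), (4, 5, 2, 8), (4, 5, 6, 8)])

def ty16 : List (ℕ × ℕ) × List (ℕ × ℕ × ℕ × ℕ) := (
  [(1, 2), (0, 3), (2, 3), (1, 4), (3, 4), (0, 5), (2, 5), (4, 5), (0, 6), (6, 7), (1, 8), (7, 8)],
  [(1, 2, 0, 3), (1, 2, 3, 4), (1, 2, 0, 5), (1, 2, 4, 5), (0, 3, 1, 4), (0, 3, 2, 5),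
  (0, 3, 4, 5), (2, 3, 1, 4), (2, 3, 0, 5), (2, 3, 4, 5), (2, 3, 0, 6), (2, 3, 6, 7),
  (2, 3, 1, 8), (2, 3, 7, 8), (1, 4, 0, 5), (1, 4, 2, 5), (3, 4, 0, 5), (3, 4, 2, 5),
  (3, 4, 0, 6), (3, 4, 6, 7), (3, 4, 1, 8), (3, 4, 7, 8), (2, 5, 0, 6), (2, 5, 6, 7),
  (2, 5, 1, 8), (2, 5, 7, 8), (4, 5, 0, 6), (4, 5, 6, 7), (4, 5, 1, 8), (4, 5, 7, 8)])

def ty17 : List (ℕ × ℕ) × List (ℕ × ℕ × ℕ × ℕ) := (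
  [(0, 1), (0, 2), (1, 3), (2, 4), (1, 6), (2, 6), (3, 7), (4, 7), (5, 7), (0, 8), (5, 8), (6, 8)],
  [(0, 1, 2, 4), (0, 1, 2, 6), (0, 1, 4, 7), (0, 1, 5, 7), (0, 1, 5, 8), (0, 1, 6, 8),
  (0, 2, 1, 3), (0, 2, 1, 6), (0, 2, 3, 7), (0, 2, 5, 7), (0, 2, 5, 8), (0, 2, 6, 8),
  (1, 3, 2, 6), (1, 3, 0, 8), (1, 3, 6, 8), (2, 4, 1, 6), (2, 4, 0, 8), (2, 4, 6, 8),
  (1, 6, 4, 7), (1, 6, 5, 7), (1, 6, 0, 8), (1, 6, 5, 8), (2, 6, 3, 7), (2, 6, 5, 7),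
  (2, 6, 0, 8), (2, 6, 5, 8), (3, 7, 0, 8), (3, 7, 6, 8), (4, 7, 0, 8), (4, 7, 6, 8)])

def ty18 : List (ℕ × ℕ) × List (ℕ × ℕ × ℕ × ℕ) := (
  [(0, 1), (1, 2), (2, 5), (0, 6), (2, 6), (4, 6), (5, 6), (0, 7), (5, 7), (0, 8), (2, 8), (4, 8), (5, 8)],
  [(0, 1, 4, 6), (0, 1, 5, 6), (0, 1, 4, 8), (0, 1, 5, 8), (1, 2, 4, 6), (1, 2, 5, 6),
  (1, 2, 4, 8), (1, 2, 5, 8), (2, 5, 0, 6), (2, 5, 4, 6), (2, 5, 0, 8), (2, 5, 4, 8),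
  (0, 6, 2, 8), (0, 6, 5, 8), (2, 6, 0, 7), (2, 6, 5, 7), (2, 6, 0, 8), (2, 6, 5, 8),
  (4, 6, 0, 7), (4, 6, 5, 7), (5, 6, 0, 8), (5, 6, 2, 8), (0, 7, 2, 8), (0, 7, 4, 8),
  (5, 7, 2, 8), (5, 7, 4, 8)])

def ty19 : List (ℕ × ℕ) × List (ℕ × ℕ × ℕ × ℕ) := (
  [(3, 4), (1, 5), (3, 5), (4, 5), (2, 6), (3, 6), (4, 6), (5, 6), (1, 7), (2, 7), (3, 7), (4, 8), (7, 8)],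
  [(3, 4, 1, 5), (3, 4, 2, 6), (3, 4, 5, 6), (3, 4, 1, 7), (3, 4, 2, 7), (1, 5, 3, 6),
  (1, 5, 4, 6), (3, 5, 2, 6), (3, 5, 4, 6), (3, 5, 2, 7), (3, 5, 4, 8), (3, 5, 7, 8),
  (4, 5, 2, 6), (4, 5, 3, 6), (4, 5, 2, 7), (4, 5, 3, 7), (3, 6, 1, 7), (3, 6, 4, 8),
  (3, 6, 7, 8), (4, 6, 1, 7), (4, 6, 3, 7), (5, 6, 3, 7), (5, 6, 4, 8), (5, 6, 7, 8)])

def ty20 : List (ℕ × ℕ) × List (ℕ × ℕ × ℕ × ℕ) := (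
  [(0, 1), (0, 4), (3, 4), (0, 5), (3, 5), (4, 5), (3, 6), (4, 6), (5, 6), (1, 7), (3, 7), (0, 8), (6, 8)],
  [(0, 1, 4, 5), (0, 1, 4, 6), (0, 1, 5, 6), (0, 4, 3, 5), (0, 4, 3, 6), (0, 4, 5, 6),
  (3, 4, 0, 5), (3, 4, 5, 6), (3, 4, 0, 8), (3, 4, 6, 8), (0, 5, 3, 6), (0, 5, 4, 6),
  (3, 5, 4, 6), (3, 5, 0, 8), (3, 5, 6, 8), (4, 5, 3, 6), (4, 5, 1, 7), (4, 5, 3, 7),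
  (4, 5, 0, 8), (4, 5, 6, 8), (4, 6, 1, 7), (4, 6, 3, 7), (5, 6, 1, 7), (5, 6, 3, 7)])

def ty21 : List (ℕ × ℕ) × List (ℕ × ℕ × ℕ × ℕ) := (
  [(0, 1), (0, 4), (3, 4), (0, 5), (3, 5), (4, 5), (2, 6), (3, 6), (4, 6), (5, 6), (1, 7), (3, 7), (0, 8), (2, 8)],
  [(0, 1, 4, 5), (0, 1, 4, 6), (0, 1, 5, 6), (0, 4, 3, 5), (0, 4, 3, 6), (0, 4, 5, 6),
  (3, 4, 0, 5), (3, 4, 2, 6), (3, 4, 5, 6), (3, 4, 0, 8), (3, 4, 2, 8), (0, 5, 3, 6),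
  (0, 5, 4, 6), (3, 5, 2, 6), (3, 5, 4, 6), (3, 5, 0, 8), (3, 5, 2, 8), (4, 5, 2, 6),
  (4, 5, 3, 6), (4, 5, 1, 7), (4, 5, 3, 7), (4, 5, 0, 8), (4, 5, 2, 8), (4, 6, 1, 7),
  (4, 6, 3, 7), (5, 6, 1, 7), (5, 6, 3, 7)])

def ty22 : List (ℕ × ℕ) × List (ℕ × ℕ × ℕ × ℕ) := (
  [(0, 2), (1, 3), (0, 5), (1, 5), (2, 6), (3, 6), (5, 6), (1, 7), (2, 7), (5, 7), (6, 7), (1, 8), (2, 8)],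
  [(0, 2, 1, 3), (0, 2, 3, 6), (0, 2, 1, 7), (0, 2, 6, 7), (1, 3, 0, 5), (1, 3, 2, 7),
  (1, 3, 5, 7), (0, 5, 3, 6), (0, 5, 1, 7), (0, 5, 6, 7), (1, 5, 2, 6), (1, 5, 2, 7),
  (1, 5, 6, 7), (2, 6, 1, 7), (2, 6, 5, 7), (3, 6, 2, 7), (3, 6, 5, 7), (5, 6, 1, 7),
  (5, 6, 2, 7), (5, 6, 1, 8), (5, 6, 2, 8), (5, 7, 1, 8), (5, 7, 2, 8), (6, 7, 1, 8),
  (6, 7, 2, 8)])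

def ty23 : List (ℕ × ℕ) × List (ℕ × ℕ × ℕ × ℕ) := (
  [(0, 2), (1, 3), (0, 5), (1, 5), (2, 6), (3, 6), (5, 6), (2, 7), (3, 7), (5, 7), (6, 7), (2, 8), (3, 8)],
  [(0, 2, 3, 6), (0, 2, 3, 7), (0, 2, 6, 7), (1, 3, 2, 6), (1, 3, 2, 7), (1, 3, 6, 7),
  (0, 5, 3, 6), (0, 5, 3, 7), (0, 5, 6, 7), (1, 5, 2, 6), (1, 5, 2, 7), (1, 5, 6, 7),
  (2, 6, 3, 7), (2, 6, 5, 7), (3, 6, 2, 7), (3, 6, 5, 7), (5, 6, 2, 7), (5, 6, 3, 7),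
  (5, 6, 2, 8), (5, 6, 3, 8), (5, 7, 2, 8), (5, 7, 3, 8), (6, 7, 2, 8), (6, 7, 3, 8)])

def ty24 : List (ℕ × ℕ) × List (ℕ × ℕ × ℕ × ℕ) := (
  [(1, 2), (0, 3), (1, 3), (3, 4), (1, 5), (4, 5), (2, 6), (3, 6), (4, 6), (5, 6), (1, 7), (4, 7), (0, 8), (5, 8)],
  [(1, 2, 0, 3), (1, 2, 3, 4), (1, 2, 4, 5), (1, 2, 0, 8), (1, 2, 5, 8), (0, 3, 2, 6),
  (0, 3, 4, 6), (0, 3, 1, 7), (0, 3, 4, 7), (1, 3, 4, 5), (1, 3, 4, 6), (1, 3, 5, 6),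
  (3, 4, 1, 5), (3, 4, 2, 6), (3, 4, 5, 6), (1, 5, 3, 6), (1, 5, 4, 6), (4, 5, 2, 6),
  (4, 5, 3, 6), (2, 6, 0, 8), (2, 6, 5, 8), (3, 6, 1, 7), (3, 6, 4, 7), (4, 6, 0, 8),
  (4, 6, 5, 8), (5, 6, 1, 7), (5, 6, 4, 7), (1, 7, 0, 8), (1, 7, 5, 8), (4, 7, 0, 8),
  (4, 7, 5, 8)])

def ty25 : List (ℕ × ℕ) × List (ℕ × ℕ × ℕ × ℕ) := (
  [(0, 2), (1, 2), (0, 3), (1, 4), (2, 4), (1, 5), (3, 6), (4, 6), (5, 6), (1, 7), (2, 7), (6, 7), (4, 8), (7, 8)],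
  [(0, 2, 1, 4), (0, 2, 1, 7), (0, 2, 4, 8), (0, 2, 7, 8), (1, 2, 4, 6), (1, 2, 6, 7),
  (1, 2, 4, 8), (1, 2, 7, 8), (0, 3, 1, 4), (0, 3, 1, 7), (0, 3, 4, 8), (0, 3, 7, 8),
  (1, 4, 3, 6), (1, 4, 2, 7), (1, 4, 6, 7), (2, 4, 1, 5), (2, 4, 5, 6), (2, 4, 1, 7),
  (2, 4, 6, 7), (1, 5, 2, 7), (1, 5, 4, 8), (1, 5, 7, 8), (3, 6, 1, 7), (3, 6, 4, 8),
  (3, 6, 7, 8), (4, 6, 1, 7), (4, 6, 2, 7), (5, 6, 2, 7), (5, 6, 4, 8), (5, 6, 7, 8)])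

def ty26 : List (ℕ × ℕ) × List (ℕ × ℕ × ℕ × ℕ) := (
  [(0, 1), (0, 2), (1, 2), (0, 5), (1, 5), (2, 5), (3, 5), (0, 6), (1, 6), (2, 6), (3, 7), (6, 8), (7, 8)],
  [(0, 1, 2, 5), (0, 1, 3, 5), (0, 1, 2, 6), (0, 1, 3, 7), (0, 1, 6, 8), (0, 1, 7, 8),
  (0, 2, 1, 5), (0, 2, 3, 5), (0, 2, 1, 6), (0, 2, 3, 7), (0, 2, 6, 8), (0, 2, 7, 8),
  (1, 2, 0, 5), (1, 2, 3, 5), (1, 2, 0, 6), (1, 2, 3, 7), (1, 2, 6, 8), (1, 2, 7, 8),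
  (0, 5, 1, 6), (0, 5, 2, 6), (1, 5, 0, 6), (1, 5, 2, 6), (2, 5, 0, 6), (2, 5, 1, 6)])

def ty27 : List (ℕ × ℕ) × List (ℕ × ℕ × ℕ × ℕ) := (
  [(0, 2), (1, 2), (1, 3), (0, 5), (2, 5), (3, 5), (1, 6), (2, 6), (4, 6), (5, 6), (0, 7), (1, 7), (0, 8), (4, 8)],
  [(0, 2, 1, 3), (0, 2, 3, 5), (0, 2, 1, 6), (0, 2, 5, 6), (1, 2, 0, 5), (1, 2, 4, 6),
  (1, 2, 5, 6), (1, 2, 0, 8), (1, 2, 4, 8), (1, 3, 2, 6), (1, 3, 4, 6), (1, 3, 0, 8),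
  (1, 3, 4, 8), (0, 5, 1, 6), (0, 5, 2, 6), (2, 5, 1, 6), (2, 5, 4, 6), (2, 5, 0, 7),
  (2, 5, 1, 7), (2, 5, 0, 8), (2, 5, 4, 8), (3, 5, 2, 6), (3, 5, 4, 6), (3, 5, 0, 8),
  (3, 5, 4, 8), (2, 6, 0, 7), (2, 6, 1, 7), (5, 6, 0, 7), (5, 6, 1, 7)])

def ty28 : List (ℕ × ℕ) × List (ℕ × ℕ × ℕ × ℕ) := (
  [(0, 1), (0, 2), (1, 2), (0, 3), (0, 4), (1, 5), (2, 5), (4, 5), (1, 6), (2, 6), (3, 6), (6, 7), (5, 8), (7, 8)],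
  [(0, 1, 2, 5), (0, 1, 2, 6), (0, 1, 6, 7), (0, 1, 5, 8), (0, 1, 7, 8), (0, 2, 1, 5),
  (0, 2, 1, 6), (0, 2, 6, 7), (0, 2, 5, 8), (0, 2, 7, 8), (1, 2, 0, 3), (1, 2, 0, 4),
  (1, 2, 4, 5), (1, 2, 3, 6), (1, 2, 6, 7), (1, 2, 5, 8), (1, 2, 7, 8), (0, 3, 1, 5),
  (0, 3, 2, 5), (0, 4, 1, 6), (0, 4, 2, 6), (1, 5, 2, 6), (1, 5, 3, 6), (2, 5, 1, 6),
  (2, 5, 3, 6), (4, 5, 1, 6), (4, 5, 2, 6)])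

def ty29 : List (ℕ × ℕ) × List (ℕ × ℕ × ℕ × ℕ) := (
  [(1, 2), (0, 3), (2, 3), (1, 4), (3, 4), (0, 5), (2, 5), (0, 6), (1, 6), (2, 6), (3, 6), (0, 7), (1, 8), (7, 8)],
  [(1, 2, 0, 3), (1, 2, 0, 6), (1, 2, 3, 6), (0, 3, 1, 6), (0, 3, 2, 6), (2, 3, 0, 6),
  (2, 3, 1, 6), (2, 3, 0, 7), (2, 3, 1, 8), (2, 3, 7, 8), (1, 4, 0, 5), (1, 4, 2, 5),
  (1, 4, 0, 6), (1, 4, 2, 6), (3, 4, 0, 5), (3, 4, 2, 5), (3, 4, 0, 6), (3, 4, 2, 6),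
  (0, 5, 1, 6), (0, 5, 3, 6), (2, 5, 1, 6), (2, 5, 3, 6), (2, 6, 0, 7), (2, 6, 1, 8),
  (2, 6, 7, 8), (3, 6, 0, 7), (3, 6, 1, 8), (3, 6, 7, 8)])

def ty30 : List (ℕ × ℕ) × List (ℕ × ℕ × ℕ × ℕ) := (
  [(0, 1), (0, 2), (1, 2), (0, 5), (1, 5), (2, 5), (4, 5), (0, 6), (1, 6), (2, 6), (3, 6), (3, 7), (4, 8), (7, 8)],
  [(0, 1, 2, 5), (0, 1, 4, 5), (0, 1, 2, 6), (0, 1, 3, 6), (0, 1, 3, 7), (0, 1, 4, 8),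
  (0, 1, 7, 8), (0, 2, 1, 5), (0, 2, 4, 5), (0, 2, 1, 6), (0, 2, 3, 6), (0, 2, 3, 7),
  (0, 2, 4, 8), (0, 2, 7, 8), (1, 2, 0, 5), (1, 2, 4, 5), (1, 2, 0, 6), (1, 2, 3, 6),
  (1, 2, 3, 7), (1, 2, 4, 8), (1, 2, 7, 8), (0, 5, 1, 6), (0, 5, 2, 6), (1, 5, 0, 6),
  (1, 5, 2, 6), (2, 5, 0, 6), (2, 5, 1, 6)])

def ty31 : List (ℕ × ℕ) × List (ℕ × ℕ × ℕ × ℕ) := (
  [(0, 1), (0, 2), (1, 3), (2, 4), (3, 4), (0, 5), (3, 5), (4, 5), (0, 6), (5, 6), (3, 7), (6, 7), (4, 8), (6, 8)],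
  [(0, 1, 4, 5), (0, 1, 5, 6), (0, 1, 4, 8), (0, 1, 6, 8), (0, 2, 3, 5), (0, 2, 5, 6),
  (0, 2, 3, 7), (0, 2, 6, 7), (1, 3, 4, 5), (1, 3, 5, 6), (1, 3, 4, 8), (1, 3, 6, 8),
  (2, 4, 3, 5), (2, 4, 5, 6), (2, 4, 3, 7), (2, 4, 6, 7), (3, 4, 0, 5), (3, 4, 0, 6),
  (3, 4, 5, 6), (0, 5, 3, 7), (0, 5, 6, 7), (0, 5, 4, 8), (0, 5, 6, 8), (3, 5, 0, 6),
  (3, 5, 4, 8), (3, 5, 6, 8), (4, 5, 0, 6), (4, 5, 3, 7), (4, 5, 6, 7)])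

def ty32 : List (ℕ × ℕ) × List (ℕ × ℕ × ℕ × ℕ) := (
  [(2, 3), (0, 4), (2, 4), (3, 4), (1, 5), (2, 5), (3, 5), (1, 6), (2, 6), (3, 6), (4, 6), (0, 7), (5, 8), (7, 8)],
  [(2, 3, 0, 4), (2, 3, 1, 5), (2, 3, 1, 6), (2, 3, 4, 6), (2, 3, 0, 7), (2, 3, 5, 8),
  (2, 3, 7, 8), (0, 4, 2, 6), (0, 4, 3, 6), (2, 4, 1, 5), (2, 4, 3, 5), (2, 4, 1, 6),
  (2, 4, 3, 6), (3, 4, 1, 5), (3, 4, 2, 5), (3, 4, 1, 6), (3, 4, 2, 6), (2, 5, 3, 6),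
  (2, 5, 4, 6), (3, 5, 2, 6), (3, 5, 4, 6), (2, 6, 0, 7), (2, 6, 5, 8), (2, 6, 7, 8),
  (3, 6, 0, 7), (3, 6, 5, 8), (3, 6, 7, 8)])

def ty33 : List (ℕ × ℕ) × List (ℕ × ℕ × ℕ × ℕ) := (
  [(2, 3), (2, 4), (0, 5), (2, 5), (3, 5), (4, 5), (1, 6), (2, 6), (3, 6), (4, 6), (3, 7), (4, 7), (0, 8), (1, 8)],
  [(2, 3, 0, 5), (2, 3, 4, 5), (2, 3, 1, 6), (2, 3, 4, 6), (2, 3, 0, 8), (2, 3, 1, 8),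
  (2, 4, 0, 5), (2, 4, 3, 5), (2, 4, 1, 6), (2, 4, 3, 6), (2, 4, 0, 8), (2, 4, 1, 8),
  (0, 5, 3, 7), (0, 5, 4, 7), (2, 5, 3, 6), (2, 5, 4, 6), (2, 5, 3, 7), (2, 5, 4, 7),
  (3, 5, 2, 6), (3, 5, 4, 6), (4, 5, 2, 6), (4, 5, 3, 6), (1, 6, 3, 7), (1, 6, 4, 7),
  (2, 6, 3, 7), (2, 6, 4, 7), (3, 7, 0, 8), (3, 7, 1, 8), (4, 7, 0, 8), (4, 7, 1, 8)])

def ty34 : List (ℕ × ℕ) × List (ℕ × ℕ × ℕ × ℕ) := (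
  [(0, 4), (1, 4), (2, 4), (0, 5), (1, 5), (3, 5), (0, 6), (2, 6), (3, 6), (4, 7), (5, 7), (6, 7), (0, 8), (7, 8)],
  [(0, 4, 3, 5), (0, 4, 3, 6), (0, 4, 5, 7), (0, 4, 6, 7), (1, 4, 0, 6), (1, 4, 6, 7),
  (1, 4, 0, 8), (1, 4, 7, 8), (2, 4, 0, 5), (2, 4, 5, 7), (2, 4, 0, 8), (2, 4, 7, 8),
  (0, 5, 2, 6), (0, 5, 4, 7), (0, 5, 6, 7), (1, 5, 0, 6), (1, 5, 6, 7), (1, 5, 0, 8),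
  (1, 5, 7, 8), (3, 5, 4, 7), (3, 5, 0, 8), (3, 5, 7, 8), (0, 6, 4, 7), (0, 6, 5, 7),
  (2, 6, 5, 7), (2, 6, 0, 8), (2, 6, 7, 8), (3, 6, 4, 7), (3, 6, 0, 8), (3, 6, 7, 8)])

def ty35 : List (ℕ × ℕ) × List (ℕ × ℕ × ℕ × ℕ) := (
  [(0, 3), (1, 3), (2, 3), (1, 4), (2, 4), (0, 5), (2, 5), (4, 5), (2, 6), (4, 6), (5, 6), (6, 7), (3, 8), (7, 8)],
  [(0, 3, 2, 4), (0, 3, 2, 6), (0, 3, 4, 6), (1, 3, 2, 5), (1, 3, 2, 6), (1, 3, 5, 6),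
  (2, 3, 4, 5), (2, 3, 4, 6), (2, 3, 5, 6), (1, 4, 2, 5), (1, 4, 2, 6), (1, 4, 5, 6),
  (2, 4, 0, 5), (2, 4, 5, 6), (2, 4, 6, 7), (2, 4, 3, 8), (2, 4, 7, 8), (0, 5, 2, 6),
  (0, 5, 4, 6), (2, 5, 4, 6), (2, 5, 6, 7), (2, 5, 3, 8), (2, 5, 7, 8), (4, 5, 2, 6),
  (4, 5, 6, 7), (4, 5, 3, 8), (4, 5, 7, 8)])

def ty36 : List (ℕ × ℕ) × List (ℕ × ℕ × ℕ × ℕ) := (
  [(0, 1), (0, 2), (1, 2), (0, 4), (3, 4), (1, 5), (3, 5), (0, 6), (1, 6), (3, 6), (2, 7), (6, 7), (2, 8), (3, 8)],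
  [(0, 1, 3, 6), (0, 1, 2, 7), (0, 1, 6, 7), (0, 1, 2, 8), (0, 1, 3, 8), (0, 2, 1, 5),
  (0, 2, 3, 5), (0, 2, 1, 6), (0, 2, 3, 6), (1, 2, 0, 4), (1, 2, 3, 4), (1, 2, 0, 6),
  (1, 2, 3, 6), (0, 4, 1, 6), (0, 4, 2, 7), (0, 4, 6, 7), (3, 4, 1, 6), (3, 4, 2, 7),
  (3, 4, 6, 7), (1, 5, 0, 6), (1, 5, 2, 7), (1, 5, 6, 7), (3, 5, 0, 6), (3, 5, 2, 7),
  (3, 5, 6, 7), (0, 6, 2, 8), (0, 6, 3, 8), (1, 6, 2, 8), (1, 6, 3, 8)])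

/-- the nonplanar graphs used as certificates -/
def types : List (List (ℕ × ℕ) × List (ℕ × ℕ × ℕ × ℕ)) := [ty0, ty1, ty2, ty3, ty4, ty5, ty6, ty7, ty8, ty9, ty10, ty11, ty12, ty13, ty14, ty15, ty16, ty17, ty18, ty19, ty20, ty21, ty22, ty23, ty24, ty25, ty26, ty27, ty28, ty29, ty30, ty31, ty32, ty33, ty34, ty35, ty36]

end Pool.Agent.L5helper35.K9
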