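import Pool.Agent.L5helper66.TD.Defs

set_option autoImplicit false

open scoped TensorProduct RealInnerProductSpace

namespace Pool.Agent.L5helper35.TD

open Pool.Agent.L5helper66.TD

theorem com_dis_id (p q : ℕ) (hp : 0 < p) (hq : 0 < q) (hpq : q ^ 2 < 2 * p ^ 2) (α β : ℝ)
    (hα : 0 < α) (hα' : α < Real.pi) (hβ : 0 < β) (hβ' : β < Real.pi)
    (hca : Real.cos α = (4 * (p : ℝ) ^ 2 - 3 * q ^ 2) / (4 * p ^ 2 - q ^ 2))
    (hcb : Real.cos β = (q : ℝ) ^ 2 / (4 * p ^ 2 - q ^ 2))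
    (hr : ∃ r : ℚ, q * α + 2 * p * β = r * Real.pi) :
    ∃ M : ℕ, 0 < M ∧
      ((⟨q, -1⟩ : ℤ√(2 * (q : ℤ) ^ 2 - 4 * (p : ℤ) ^ 2)) ^ (2 * q * M) * ⟨2 * p, 1⟩ ^ (4 * p * M) =
        ⟨q, 1⟩ ^ (2 * q * M) * ⟨2 * p, -1⟩ ^ (4 * p * M)) := by
  obtain ⟨r, hr⟩ := hr
  obtain ⟨S, hS⟩ : ∃ S : ℝ, S = √(4 * (p : ℝ) ^ 2 - 2 * q ^ 2) := ⟨_, rfl⟩
  have hpq' : (q : ℝ) ^ 2 < 2 * (p : ℝ) ^ 2 := by exact_mod_cast hpq
  have hq' : (0 : ℝ) < q := by exact_mod_cast hq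
  have hp' : (0 : ℝ) < p := by exact_mod_cast hp
  have hS0 : 0 < 4 * (p : ℝ) ^ 2 - 2 * q ^ 2 := by linarith
  have hSp : 0 < S := by rw [hS]; exact Real.sqrt_pos.mpr hS0
  have hS2 : S ^ 2 = 4 * (p : ℝ) ^ 2 - 2 * q ^ 2 := by rw [hS]; exact Real.sq_sqrt hS0.le
  have hD : 0 < 4 * (p : ℝ) ^ 2 - q ^ 2 := by nlinarith
  have hD0 : 4 * (p : ℝ) ^ 2 - q ^ 2 ≠ 0 := hD.ne'
  have hsa : Real.sin α = 2 * q * S / (4 * (p : ℝ) ^ 2 - q ^ 2) := by
    have h1 : 0 < Real.sin α := Real.sin_pos_of_pos_of_lt_pi hα hα'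
    have h2 : 0 < 2 * q * S / (4 * (p : ℝ) ^ 2 - q ^ 2) := div_pos (by positivity) hD
    have h3 : Real.sin α ^ 2 = (2 * q * S / (4 * (p : ℝ) ^ 2 - q ^ 2)) ^ 2 := by
      rw [Real.sin_sq, hca, div_pow, div_pow, mul_pow, hS2]
      field_simp
      ring
    exact (sq_eq_sq₀ h1.le h2.le).mp h3
  have hsb : Real.sin β = 2 * p * S / (4 * (p : ℝ) ^ 2 - q ^ 2) := by
    have h1 : 0 < Real.sin β := Real.sin_pos_of_pos_of_lt_pi hβ hβ'
    have h2 : 0 < 2 * p * S / (4 * (p : ℝ) ^ 2 - q ^ 2) := div_pos (by positivity) hD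
    have h3 : Real.sin β ^ 2 = (2 * p * S / (4 * (p : ℝ) ^ 2 - q ^ 2)) ^ 2 := by
      rw [Real.sin_sq, hcb, div_pow, div_pow, mul_pow, hS2]
      field_simp
      ring
    exact (sq_eq_sq₀ h1.le h2.le).mp h3
  have hca' : Real.cos α * (4 * (p : ℝ) ^ 2 - q ^ 2) = 4 * (p : ℝ) ^ 2 - 3 * q ^ 2 := by
    rw [hca, div_mul_cancel₀ _ hD0]
  have hcb' : Real.cos β * (4 * (p : ℝ) ^ 2 - q ^ 2) = (q : ℝ) ^ 2 := by
    rw [hcb, div_mul_cancel₀ _ hD0]
  have hsa' : Real.sin α * (4 * (p : ℝ) ^ 2 - q ^ 2) = 2 * q * S := by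
    rw [hsa, div_mul_cancel₀ _ hD0]
  have hsb' : Real.sin β * (4 * (p : ℝ) ^ 2 - q ^ 2) = 2 * p * S := by
    rw [hsb, div_mul_cancel₀ _ hD0]
  have ra : Real.cos α * q - Real.sin α * S = -q := by
    apply mul_right_cancel₀ hD0
    linear_combination (q : ℝ) * hca' - S * hsa' - 2 * q * hS2
  have ia : Real.cos α * S + Real.sin α * q = S := by
    apply mul_right_cancel₀ hD0
    linear_combination S * hca' + (q : ℝ) * hsa'
  have rb : 2 * p * Real.cos β + Real.sin β * S = 2 * p := by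
    apply mul_right_cancel₀ hD0
    linear_combination 2 * (p : ℝ) * hcb' + S * hsb' + 2 * p * hS2
  have ib : 2 * p * Real.sin β - Real.cos β * S = S := by
    apply mul_right_cancel₀ hD0
    linear_combination 2 * (p : ℝ) * hsb' - S * hcb'
  have ra' := congrArg (fun x : ℝ => (x : ℂ)) ra
  have ia' := congrArg (fun x : ℝ => (x : ℂ)) ia
  have rb' := congrArg (fun x : ℝ => (x : ℂ)) rb
  have ib' := congrArg (fun x : ℝ => (x : ℂ)) ib
  push_cast at ra' ia' rb' ib'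
  have hs2 : ((S : ℂ) * Complex.I) * ((S : ℂ) * Complex.I) =
      ((2 * (q : ℤ) ^ 2 - 4 * (p : ℤ) ^ 2 : ℤ) : ℂ) := by
    have h1 := congrArg (fun x : ℝ => (x : ℂ)) hS2
    push_cast at h1 ⊢
    linear_combination (-1 : ℂ) * h1 + (S : ℂ) ^ 2 * Complex.I_sq
  have hA : -((q : ℂ) - S * Complex.I) = Complex.exp (α * Complex.I) * (q + S * Complex.I) := by
    rw [Complex.exp_mul_I]
    linear_combination (-1 : ℂ) * ra' - Complex.I * ia' -
      Complex.sin α * S * Complex.I_sq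
  have hB : (2 * (p : ℂ) + S * Complex.I) =
      Complex.exp (β * Complex.I) * (2 * p - S * Complex.I) := by
    rw [Complex.exp_mul_I]
    linear_combination (-1 : ℂ) * rb' - Complex.I * ib' +
      Complex.sin β * S * Complex.I_sq
  refine ⟨r.den, r.den_pos, ?_⟩
  have hAB : Complex.exp (α * Complex.I) ^ (2 * q * r.den) *
      Complex.exp (β * Complex.I) ^ (4 * p * r.den) = 1 := by
    rw [← Complex.exp_nat_mul, ← Complex.exp_nat_mul, ← Complex.exp_add]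
    have h1 : ((2 * q * r.den : ℕ) : ℂ) * (α * Complex.I) + ((4 * p * r.den : ℕ) : ℂ) *
        (β * Complex.I) = (r.num : ℂ) * (2 * Real.pi * Complex.I) := by
      have h2 := congrArg (fun x : ℝ => (x : ℂ)) hr
      have h3 : (r : ℂ) * r.den = r.num := by exact_mod_cast Rat.mul_den_eq_num r
      push_cast at h2 ⊢
      linear_combination (2 * (r.den : ℂ) * Complex.I) * h2 + 2 * Real.pi * Complex.I * h3
    rw [h1]
    exact Complex.exp_int_mul_two_pi_mul_I r.num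
  have hinj : Function.Injective (Zsqrtd.lift (d := 2 * (q : ℤ) ^ 2 - 4 * (p : ℤ) ^ 2)
      ⟨(S : ℂ) * Complex.I, hs2⟩) := by
    apply Zsqrtd.lift_injective
    intro n hn
    have h1 : (q : ℤ) ^ 2 < 2 * (p : ℤ) ^ 2 := by exact_mod_cast hpq
    nlinarith [mul_self_nonneg n]
  apply hinj
  simp only [map_mul, map_pow, Zsqrtd.lift_apply_apply]
  push_cast
  have e1 : ((q : ℂ) + -1 * (S * Complex.I)) ^ (2 * q * r.den) =
      (Complex.exp (α * Complex.I) * (q + S * Complex.I)) ^ (2 * q * r.den) := by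
    rw [← hA, Even.neg_pow (by rw [mul_assoc]; exact even_two_mul _)]
    congr 1
    ring
  have e2 : (2 * (p : ℂ) + 1 * (S * Complex.I)) =
      Complex.exp (β * Complex.I) * (2 * p - S * Complex.I) := by
    rw [← hB]
    ring
  rw [e1, e2, mul_pow, mul_pow]
  have e3 : (q : ℂ) + 1 * (S * Complex.I) = q + S * Complex.I := by ring
  have e4 : 2 * (p : ℂ) + -1 * (S * Complex.I) = 2 * p - S * Complex.I := by ring
  rw [e3, e4]
  linear_combination ((q : ℂ) + S * Complex.I) ^ (2 * q * r.den) *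
    (2 * p - S * Complex.I) ^ (4 * p * r.den) * hAB

end Pool.Agent.L5helper35.TD
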